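import Mathlib

/-!
# The weighted quartic extension inequality on the unit sphere

Definitions for MP_404158_an.  `E` is a real finite-dimensional inner product space (the
problem is the case `E = EuclideanSpace ℝ (Fin 8)`, whose unit sphere is `𝕊⁷`).
-/

namespace Pool.Agent.SharpS7

open MeasureTheory Metric
open scoped ENNReal RealInnerProductSpace

noncomputable section

/-- The (unnormalised) surface measure of the unit sphere of `E`. -/
abbrev surf (E : Type*) [NormedAddCommGroup E] [InnerProductSpace ℝ E] [FiniteDimensional ℝ E]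
    [MeasurableSpace E] [BorelSpace E] : Measure (sphere (0 : E) 1) :=
  (volume : Measure E).toSphere

variable {E : Type*} [NormedAddCommGroup E] [InnerProductSpace ℝ E] [FiniteDimensional ℝ E]
  [MeasurableSpace E] [BorelSpace E]

/-- The extension `(f σ)^(x) = ∫ e^{-i x·ω} f(ω) dσ(ω)`. -/
def extension (f : sphere (0 : E) 1 → ℂ) (x : E) : ℂ :=
  ∫ ω, Complex.exp (-(⟪x, (ω : E)⟫ : ℂ) * Complex.I) * f ω ∂(surf E)

/-- `‖(f σ)^‖_{L⁴(E)}⁴`, as an extended nonnegative number. -/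
def extL4 (f : sphere (0 : E) 1 → ℂ) : ℝ≥0∞ :=
  eLpNorm (extension f) 4 (volume : Measure E) ^ 4

/-- `W_a = |𝕊|⁻² ‖σ^‖_4⁴ + a |𝕊|²`. -/
def Wa (E : Type*) [NormedAddCommGroup E] [InnerProductSpace ℝ E] [FiniteDimensional ℝ E]
    [MeasurableSpace E] [BorelSpace E] (a : ℝ) : ℝ≥0∞ :=
  extL4 (fun _ : sphere (0 : E) 1 => 1) / surf E Set.univ ^ 2 +
    ENNReal.ofReal a * surf E Set.univ ^ 2

/-- `a` is admissible: every `f ∈ L²` satisfies
`‖(fσ)^‖_4⁴ + a |∫ f dσ|⁴ ≤ W_a ‖f‖_2⁴`, with equality only if `f` is a.e. constant. -/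
def Admissible (E : Type*) [NormedAddCommGroup E] [InnerProductSpace ℝ E]
    [FiniteDimensional ℝ E] [MeasurableSpace E] [BorelSpace E] (a : ℝ) : Prop :=
  ∀ f : sphere (0 : E) 1 → ℂ, MemLp f 2 (surf E) →
    extL4 f + ENNReal.ofReal a * ‖∫ ω, f ω ∂(surf E)‖ₑ ^ 4 ≤
        Wa E a * eLpNorm f 2 (surf E) ^ 4 ∧
      (extL4 f + ENNReal.ofReal a * ‖∫ ω, f ω ∂(surf E)‖ₑ ^ 4 =
          Wa E a * eLpNorm f 2 (surf E) ^ 4 →
        ∃ c : ℂ, f =ᵐ[surf E] fun _ => c)

/-- The threshold `a_* = inf {a > 0 : a admissible}`. -/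
def aStar (E : Type*) [NormedAddCommGroup E] [InnerProductSpace ℝ E]
    [FiniteDimensional ℝ E] [MeasurableSpace E] [BorelSpace E] : ℝ :=
  sInf {a : ℝ | 0 < a ∧ Admissible E a}

end

end Pool.Agent.SharpS7
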