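import Pool.Agent.SharpS7.Limit

/-!
# The sharp inequality on `𝕊⁷`
-/

set_option linter.unusedSectionVars false

namespace Pool.Agent.SharpS7

open MeasureTheory Measure Metric Set Function Filter Topology Real
open scoped ENNReal RealInnerProductSpace Pointwise

noncomputable section

section M

variable {E : Type*} [NormedAddCommGroup E] [InnerProductSpace ℝ E] [FiniteDimensional ℝ E]
  [MeasurableSpace E] [BorelSpace E]

/-- the square of the even rearrangement of `|f|` -/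
def gg (f : sphere (0 : E) 1 → ℂ) (ω : sphere (0 : E) 1) : ℝ := hs (fun ω => ‖f ω‖) ω ^ 2

theorem gg_nonneg (f : sphere (0 : E) 1 → ℂ) (ω : sphere (0 : E) 1) : 0 ≤ gg f ω := sq_nonneg _

theorem gg_neg (f : sphere (0 : E) 1 → ℂ) (ω : sphere (0 : E) 1) : gg f (-ω) = gg f ω := by
  unfold gg
  rw [hs_neg]

theorem gg_eq (f : sphere (0 : E) 1 → ℂ) (ω : sphere (0 : E) 1) :
    gg f ω = (‖f ω‖ ^ 2 + ‖f (-ω)‖ ^ 2) / 2 := hs_sq _ _

theorem measurable_gg {f : sphere (0 : E) 1 → ℂ} (hf : Measurable f) : Measurable (gg f) := by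
  unfold gg
  exact (measurable_hs hf.norm).pow_const 2

theorem integrable_sq {f : sphere (0 : E) 1 → ℂ} (hf : MemLp f 2 (surf E)) :
    Integrable (fun ω => ‖f ω‖ ^ 2) (surf E) := by
  have := hf.integrable_norm_pow (by norm_num)
  simpa using this

theorem integrable_sq_neg {f : sphere (0 : E) 1 → ℂ} (hf : MemLp f 2 (surf E)) :
    Integrable (fun ω => ‖f (-ω)‖ ^ 2) (surf E) :=
  ((measurePreserving_neg_surf (E := E)).integrable_comp (integrable_sq hf).aestronglyMeasurable).2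
    (integrable_sq hf)

theorem integrable_gg {f : sphere (0 : E) 1 → ℂ} (hf : MemLp f 2 (surf E)) :
    Integrable (gg f) (surf E) := by
  have h := ((integrable_sq hf).add (integrable_sq_neg hf)).div_const 2
  refine h.congr (Eventually.of_forall fun ω => ?_)
  rw [gg_eq]
  rfl

theorem integral_gg {f : sphere (0 : E) 1 → ℂ} (hf : MemLp f 2 (surf E)) :
    ∫ ω, gg f ω ∂(surf E) = ∫ ω, ‖f ω‖ ^ 2 ∂(surf E) := by
  have h1 : ∫ ω, ‖f (-ω)‖ ^ 2 ∂(surf E) = ∫ ω, ‖f ω‖ ^ 2 ∂(surf E) := by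
    have hT := measurePreserving_neg_surf (E := E)
    conv_rhs => rw [← hT.map_eq]
    rw [integral_map hT.measurable.aemeasurable]
    rw [hT.map_eq]
    exact (integrable_sq hf).aestronglyMeasurable
  simp_rw [gg_eq]
  rw [integral_div, integral_add (integrable_sq hf) (integrable_sq_neg hf), h1]
  ring

/-- the limiting inequality -/
theorem upper (hd : Module.finrank ℝ E = 8) {f : sphere (0 : E) 1 → ℂ} (hf : Measurable f)
    (hf2 : MemLp f 2 (surf E)) :
    7 * X4 f ≤ 3 * (ENNReal.ofReal ((2 * π) ^ 8) *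
      ENNReal.ofReal (kap / 112 * Qf (gg f) ke)) := by
  have hfi : Integrable f (surf E) := hf2.integrable (by norm_num)
  have hg := integrable_gg hf2
  have hgm := measurable_gg hf
  have h1 := tendsto_RHS hd hg hgm
  have h2 : ∫⁻ p : sphere (0 : E) 1 × sphere (0 : E) 1,
        ENNReal.ofReal (gg f p.1 * gg f p.2) *
          (ENNReal.ofReal (pbar (‖(p.1 : E) + p.2‖ ^ 2 / 4)) *
          ENNReal.ofReal ((2 * π) ^ 8 * wt ‖(p.1 : E) + p.2‖)) ∂(surf2 E) =
      ENNReal.ofReal ((2 * π) ^ 8) * ENNReal.ofReal (kap / 112 * Qf (gg f) ke) := by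
    rw [← reduced (gg f) hg (gg_nonneg f) (gg_neg f), ← lintegral_const_mul]
    · apply lintegral_congr
      intro p
      have hp0 : 0 ≤ pbar (‖(p.1 : E) + p.2‖ ^ 2 / 4) := by
        rw [norm_add_sq_eq]
        have h := inner_mem_Icc p.1 p.2
        exact pbar_nonneg (by linarith [h.1]) (by linarith [h.2])
      rw [ENNReal.ofReal_mul (p := (2 * π) ^ 8) (by positivity), ENNReal.ofReal_mul hp0]
      ring
    · have m1 : Measurable fun p : sphere (0 : E) 1 × sphere (0 : E) 1 =>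
          ENNReal.ofReal (gg f p.1 * gg f p.2) := by fun_prop
      have m2 : Measurable fun p : sphere (0 : E) 1 × sphere (0 : E) 1 =>
          wt ‖(p.1 : E) + p.2‖ := measurable_wt.comp (by fun_prop)
      have m3 : Measurable fun p : sphere (0 : E) 1 × sphere (0 : E) 1 =>
          pbar (‖(p.1 : E) + p.2‖ ^ 2 / 4) := by
        unfold pbar
        fun_prop
      exact m1.mul (ENNReal.measurable_ofReal.comp (m3.mul m2))
  rw [h2] at h1
  have h3 := ENNReal.Tendsto.const_mul (a := 3) h1 (Or.inr (by norm_num))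
  have h4 : 7 * X4 f ≤ liminf (fun n => 7 * ∫⁻ x : E,
      ENNReal.ofReal (‖extension f x‖ ^ 4 * gw (eps n) x)) atTop := by
    have h5 := fatou_ext hf
    calc 7 * X4 f ≤ 7 * liminf (fun n => ∫⁻ x : E,
          ENNReal.ofReal (‖extension f x‖ ^ 4 * gw (eps n) x)) atTop := by gcongr
      _ = _ := by
        rw [ENNReal.liminf_const_mul_of_ne_top (by norm_num)]
  refine h4.trans ?_
  rw [← h3.liminf_eq]
  apply liminf_le_liminf
  · apply Eventually.of_forall
    intro n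
    exact step_n hd hf hfi n
  · isBoundedDefault
  · isBoundedDefault

/-- the lower bound at `f = 1` -/
theorem lower (hd : Module.finrank ℝ E = 8) :
    ENNReal.ofReal ((2 * π) ^ 8) * ∫⁻ a : sphere (0 : E) 1, ∫⁻ b : sphere (0 : E) 1,
      ENNReal.ofReal (wt ‖(a : E) + b‖) ∂(surf E) ∂(surf E) ≤
      X4 (fun _ : sphere (0 : E) 1 => 1) := by
  have hwm : Measurable fun p : sphere (0 : E) 1 × sphere (0 : E) 1 =>
      ENNReal.ofReal (wt ‖(p.1 : E) + p.2‖) :=
    ENNReal.measurable_ofReal.comp (measurable_wt.comp (by fun_prop))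
  have h0 : ∀ n, ∫⁻ p : sphere (0 : E) 1 × sphere (0 : E) 1,
      Wk E (eps n) ((p.1 : E) + p.2) ∂(surf2 E) ≤ X4 (fun _ : sphere (0 : E) 1 => 1) := by
    intro n
    have hm : Measurable fun p : sphere (0 : E) 1 × sphere (0 : E) 1 =>
        Wk E (eps n) ((p.1 : E) + p.2) := (measurable_Wk _).comp (by fun_prop)
    rw [lintegral_prod _ hm.aemeasurable]
    have h1 := ext_quartic_one (E := E) hd (eps_pos n)
    have hm0 : MeasF fun a b c d : sphere (0 : E) 1 =>
        ENNReal.ofReal (1 * gam (eps n) ‖(a : E) + b - (c + d)‖) := by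
      apply measF_gam'
      fun_prop
    rw [← I4_neg34 hm0] at h1
    have h2 : ∫⁻ a : sphere (0 : E) 1, ∫⁻ b : sphere (0 : E) 1,
        Wk E (eps n) ((a : E) + b) ∂(surf E) ∂(surf E) =
        I4 fun a b c d : sphere (0 : E) 1 =>
        ENNReal.ofReal (1 * gam (eps n) ‖(a : E) + b - (((-c : sphere (0 : E) 1) : E) +
          ((-d : sphere (0 : E) 1) : E))‖) := by
      unfold I4 Wk
      apply lintegral_congr
      intro a
      apply lintegral_congr
      intro b
      apply lintegral_congr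
      intro c
      apply lintegral_congr
      intro d
      simp only [one_mul, coe_neg_sphere]
      congr 3
      abel
    rw [h2, ← h1]
    unfold X4
    apply lintegral_mono
    intro x
    apply ENNReal.ofReal_le_ofReal
    have h3 := gw_le_one (eps_pos n).le x
    have h4 : 0 ≤ ‖extension (fun _ : sphere (0 : E) 1 => 1) x‖ ^ 4 := by positivity
    nlinarith
  have h5 : ∫⁻ p : sphere (0 : E) 1 × sphere (0 : E) 1,
      ENNReal.ofReal ((2 * π) ^ 8 * wt ‖(p.1 : E) + p.2‖) ∂(surf2 E) ≤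
      liminf (fun n => ∫⁻ p : sphere (0 : E) 1 × sphere (0 : E) 1,
      Wk E (eps n) ((p.1 : E) + p.2) ∂(surf2 E)) atTop := by
    refine le_trans (le_of_eq ?_) (lintegral_liminf_le fun n =>
      (measurable_Wk (E := E) (eps n)).comp
        (f := fun p : sphere (0 : E) 1 × sphere (0 : E) 1 => (p.1 : E) + p.2) (by fun_prop))
    apply lintegral_congr_ae
    filter_upwards [ae_add_ne_zero (E := E) hd] with p hp
    have h6 := tendsto_Wk_aux (E := E) hd hp (zero_lt_one (α := ℝ))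
    simp only [one_mul] at h6
    exact h6.liminf_eq.symm
  have h7 : ENNReal.ofReal ((2 * π) ^ 8) * ∫⁻ a : sphere (0 : E) 1, ∫⁻ b : sphere (0 : E) 1,
      ENNReal.ofReal (wt ‖(a : E) + b‖) ∂(surf E) ∂(surf E) =
      ∫⁻ p : sphere (0 : E) 1 × sphere (0 : E) 1,
      ENNReal.ofReal ((2 * π) ^ 8 * wt ‖(p.1 : E) + p.2‖) ∂(surf2 E) := by
    rw [← lintegral_prod (f := fun p : sphere (0 : E) 1 × sphere (0 : E) 1 =>
      ENNReal.ofReal (wt ‖(p.1 : E) + p.2‖)) hwm.aemeasurable, ← lintegral_const_mul _ hwm]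
    apply lintegral_congr
    intro p
    rw [ENNReal.ofReal_mul (by positivity)]
  rw [h7]
  refine h5.trans ?_
  exact (liminf_le_liminf (Eventually.of_forall h0)).trans (le_of_eq (liminf_const _))

theorem surf_univ_eq : surf E univ = ENNReal.ofReal ((surf E).real univ) :=
  (ofReal_measureReal (measure_ne_top _ _)).symm

theorem reduced_one :
    ∫⁻ a : sphere (0 : E) 1, ∫⁻ b : sphere (0 : E) 1,
      ENNReal.ofReal (pbar (‖(a : E) + b‖ ^ 2 / 4) * wt ‖(a : E) + b‖) ∂(surf E) ∂(surf E) =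
      ENNReal.ofReal (kap / 112 * Qf (E := E) (fun _ => 1) ke) := by
  have h := reduced (E := E) (fun _ => 1) (integrable_const _) (fun _ => zero_le_one) (fun _ => rfl)
  rw [← h, lintegral_prod]
  · simp
  · apply Measurable.aemeasurable
    have m2 : Measurable fun p : sphere (0 : E) 1 × sphere (0 : E) 1 =>
        wt ‖(p.1 : E) + p.2‖ := measurable_wt.comp (by fun_prop)
    have m3 : Measurable fun p : sphere (0 : E) 1 × sphere (0 : E) 1 =>
        pbar (‖(p.1 : E) + p.2‖ ^ 2 / 4) := by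
      unfold pbar
      fun_prop
    exact measurable_const.mul (ENNReal.measurable_ofReal.comp (m3.mul m2))

theorem X4_one_lt_top (hd : Module.finrank ℝ E = 8) :
    X4 (fun _ : sphere (0 : E) 1 => 1) < ∞ := by
  have h := upper (E := E) hd (f := fun _ => 1) measurable_const (memLp_const _)
  by_contra hcon
  rw [not_lt, top_le_iff] at hcon
  rw [hcon, ENNReal.mul_top (by norm_num), top_le_iff] at h
  exact ENNReal.mul_ne_top (by norm_num)
    (ENNReal.mul_ne_top ENNReal.ofReal_ne_top ENNReal.ofReal_ne_top) h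

/-- **The sharp inequality** for measurable functions. -/
theorem sharp_meas (hd : Module.finrank ℝ E = 8) {f : sphere (0 : E) 1 → ℂ} (hf : Measurable f)
    (hf2 : MemLp f 2 (surf E)) :
    surf E univ ^ 2 * X4 f ≤ ENNReal.ofReal ((∫ ω, ‖f ω‖ ^ 2 ∂(surf E)) ^ 2) *
      X4 (fun _ : sphere (0 : E) 1 => 1) := by
  have hk := kap_pos
  have hup := upper hd hf hf2
  have hlo := lower (E := E) hd
  have hat := at_one (E := E) hd
  rw [reduced_one] at hat
  have hker := kernel_ineq hd (integrable_gg hf2) (gg_nonneg f)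
  rw [integral_gg hf2] at hker
  set G := ∫ ω, ‖f ω‖ ^ 2 ∂(surf E) with hG
  set S := (surf E).real univ with hS
  set Y := ∫⁻ a : sphere (0 : E) 1, ∫⁻ b : sphere (0 : E) 1,
      ENNReal.ofReal (wt ‖(a : E) + b‖) ∂(surf E) ∂(surf E) with hY
  have h1 : surf E univ ^ 2 = ENNReal.ofReal (S ^ 2) := by
    rw [surf_univ_eq, ENNReal.ofReal_pow measureReal_nonneg]
  have h2 : ENNReal.ofReal (S ^ 2) * ENNReal.ofReal (kap / 112 * Qf (gg f) ke) ≤
      ENNReal.ofReal (G ^ 2) * ENNReal.ofReal (kap / 112 * Qf (E := E) (fun _ => 1) ke) := by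
    rw [← ENNReal.ofReal_mul (by positivity), ← ENNReal.ofReal_mul (by positivity)]
    apply ENNReal.ofReal_le_ofReal
    have h3 : 0 ≤ kap / 112 := by positivity
    nlinarith [mul_le_mul_of_nonneg_left hker h3]
  have h7 : 7 * (surf E univ ^ 2 * X4 f) ≤ 7 * (ENNReal.ofReal (G ^ 2) *
      X4 (fun _ : sphere (0 : E) 1 => 1)) := by
    calc 7 * (surf E univ ^ 2 * X4 f) = ENNReal.ofReal (S ^ 2) * (7 * X4 f) := by
          rw [h1]; ring
      _ ≤ ENNReal.ofReal (S ^ 2) * (3 * (ENNReal.ofReal ((2 * π) ^ 8) *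
          ENNReal.ofReal (kap / 112 * Qf (gg f) ke))) := by gcongr
      _ = 3 * ENNReal.ofReal ((2 * π) ^ 8) * (ENNReal.ofReal (S ^ 2) *
          ENNReal.ofReal (kap / 112 * Qf (gg f) ke)) := by ring
      _ ≤ 3 * ENNReal.ofReal ((2 * π) ^ 8) * (ENNReal.ofReal (G ^ 2) *
          ENNReal.ofReal (kap / 112 * Qf (E := E) (fun _ => 1) ke)) := by gcongr
      _ = ENNReal.ofReal ((2 * π) ^ 8) * ENNReal.ofReal (G ^ 2) *
          (3 * ENNReal.ofReal (kap / 112 * Qf (E := E) (fun _ => 1) ke)) := by ring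
      _ = ENNReal.ofReal ((2 * π) ^ 8) * ENNReal.ofReal (G ^ 2) * (7 * Y) := by rw [hat]
      _ = 7 * (ENNReal.ofReal (G ^ 2) * (ENNReal.ofReal ((2 * π) ^ 8) * Y)) := by ring
      _ ≤ _ := by gcongr
  exact (ENNReal.mul_le_mul_iff_right (by norm_num) (by norm_num)).1 h7

theorem extension_congr {f g : sphere (0 : E) 1 → ℂ} (h : f =ᵐ[surf E] g) :
    extension f = extension g := by
  ext x
  unfold extension
  apply integral_congr_ae
  filter_upwards [h] with ω hω
  rw [hω]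

theorem extL4_eq (f : sphere (0 : E) 1 → ℂ) : extL4 f = X4 f := by
  unfold extL4 X4
  have h := eLpNorm_nnreal_pow_eq_lintegral (f := extension f) (μ := (volume : Measure E))
    (p := 4) (by norm_num)
  have h2 : ((4 : NNReal) : ℝ≥0∞) = 4 := by norm_num
  have h3 : ((4 : NNReal) : ℝ) = ((4 : ℕ) : ℝ) := by norm_num
  rw [h2, h3, ENNReal.rpow_natCast] at h
  rw [h]
  apply lintegral_congr
  intro x
  rw [ENNReal.rpow_natCast, ← ofReal_norm, ENNReal.ofReal_pow (norm_nonneg _)]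

theorem eLpNorm_two_sq {f : sphere (0 : E) 1 → ℂ} (hf : MemLp f 2 (surf E)) :
    eLpNorm f 2 (surf E) ^ 2 = ENNReal.ofReal (∫ ω, ‖f ω‖ ^ 2 ∂(surf E)) := by
  have h := eLpNorm_nnreal_pow_eq_lintegral (f := f) (μ := surf E)
    (p := 2) (by norm_num)
  have h2 : ((2 : NNReal) : ℝ≥0∞) = 2 := by norm_num
  have h3 : ((2 : NNReal) : ℝ) = ((2 : ℕ) : ℝ) := by norm_num
  rw [h2, h3, ENNReal.rpow_natCast] at h
  rw [h, ofReal_integral_eq_lintegral_ofReal (integrable_sq hf)]
  · apply lintegral_congr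
    intro x
    rw [ENNReal.rpow_natCast, ← ofReal_norm, ENNReal.ofReal_pow (norm_nonneg _)]
  · exact Eventually.of_forall fun ω => sq_nonneg _

theorem eLpNorm_two_four {f : sphere (0 : E) 1 → ℂ} (hf : MemLp f 2 (surf E)) :
    eLpNorm f 2 (surf E) ^ 4 = ENNReal.ofReal ((∫ ω, ‖f ω‖ ^ 2 ∂(surf E)) ^ 2) := by
  have h : eLpNorm f 2 (surf E) ^ 4 = (eLpNorm f 2 (surf E) ^ 2) ^ 2 := by ring
  rw [h, eLpNorm_two_sq hf, ENNReal.ofReal_pow]
  exact integral_nonneg fun ω => sq_nonneg _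

/-- **The sharp inequality** `|𝕊|² ‖(fσ)^‖_4⁴ ≤ ‖σ^‖_4⁴ ‖f‖_2⁴`. -/
theorem sharp (hd : Module.finrank ℝ E = 8) {f : sphere (0 : E) 1 → ℂ}
    (hf2 : MemLp f 2 (surf E)) :
    surf E univ ^ 2 * extL4 f ≤ extL4 (fun _ : sphere (0 : E) 1 => 1) *
      eLpNorm f 2 (surf E) ^ 4 := by
  set f' := hf2.1.mk f with hf'
  have hae : f =ᵐ[surf E] f' := hf2.1.ae_eq_mk
  have hm : Measurable f' := hf2.1.stronglyMeasurable_mk.measurable
  have hf'2 : MemLp f' 2 (surf E) := (memLp_congr_ae hae).1 hf2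
  have h1 : extL4 f = extL4 f' := by
    unfold extL4
    rw [extension_congr hae]
  rw [h1, eLpNorm_congr_ae hae, extL4_eq, extL4_eq, eLpNorm_two_four hf'2, mul_comm (X4 _)]
  exact sharp_meas hd hm hf'2

theorem extL4_one_lt_top (hd : Module.finrank ℝ E = 8) :
    extL4 (fun _ : sphere (0 : E) 1 => 1) < ∞ := by
  rw [extL4_eq]
  exact X4_one_lt_top hd

/-- the variance identity -/
theorem variance {f : sphere (0 : E) 1 → ℂ} (hf2 : MemLp f 2 (surf E)) :
    (surf E).real univ * (∫ ω, ‖f ω‖ ^ 2 ∂(surf E)) - ‖∫ ω, f ω ∂(surf E)‖ ^ 2 =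
      (surf E).real univ * ∫ ω, ‖f ω - ((surf E).real univ)⁻¹ • ∫ ω, f ω ∂(surf E)‖ ^ 2
        ∂(surf E) := by
  set S := (surf E).real univ with hS
  set I := ∫ ω, f ω ∂(surf E) with hI
  rcases eq_or_ne S 0 with hS0 | hS0
  · have : (surf E) = 0 := by
      rw [← Measure.measure_univ_eq_zero]
      rwa [hS, measureReal_eq_zero_iff (measure_ne_top _ _)] at hS0
    simp [hI, hS0, this]
  have hfi : Integrable f (surf E) := hf2.integrable (by norm_num)
  have h1 : ∀ ω, ‖f ω - S⁻¹ • I‖ ^ 2 = ‖f ω‖ ^ 2 - 2 * ⟪S⁻¹ • I, f ω⟫ + ‖S⁻¹ • I‖ ^ 2 := by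
    intro ω
    rw [norm_sub_sq_real, real_inner_comm]
  simp_rw [h1]
  have i1 := integrable_sq hf2
  have i2 : Integrable (fun ω => 2 * ⟪S⁻¹ • I, f ω⟫) (surf E) :=
    (hfi.const_inner (S⁻¹ • I)).const_mul 2
  rw [integral_add, integral_sub, integral_const_mul,
    integral_inner hfi, integral_const, real_inner_smul_left, real_inner_self_eq_norm_sq,
    norm_smul, norm_inv, Real.norm_of_nonneg measureReal_nonneg, smul_eq_mul]
  · simp only [← hS]
    field_simp
    ring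
  · exact i1
  · exact i2
  · exact i1.sub i2
  · exact integrable_const _

theorem norm_integral_sq_le {f : sphere (0 : E) 1 → ℂ} (hf2 : MemLp f 2 (surf E)) :
    ‖∫ ω, f ω ∂(surf E)‖ ^ 2 ≤ (surf E).real univ * (∫ ω, ‖f ω‖ ^ 2 ∂(surf E)) := by
  have h := variance hf2
  have h2 : 0 ≤ (surf E).real univ * ∫ ω, ‖f ω - ((surf E).real univ)⁻¹ •
      ∫ ω, f ω ∂(surf E)‖ ^ 2 ∂(surf E) :=
    mul_nonneg measureReal_nonneg (integral_nonneg fun ω => sq_nonneg _)
  linarith

theorem surf_real_pos (hd : Module.finrank ℝ E = 8) : 0 < (surf E).real univ := by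
  apply lt_of_le_of_ne measureReal_nonneg
  intro h
  have h2 := h.symm
  rw [measureReal_eq_zero_iff (measure_ne_top _ _)] at h2
  exact surf_univ_ne_zero hd h2

/-- every positive `a` is admissible -/
theorem admissible_of_pos (hd : Module.finrank ℝ E = 8) {a : ℝ} (ha : 0 < a) :
    Admissible E a := by
  intro f hf2
  have hS0 := surf_univ_ne_zero (E := E) hd
  have hSt : surf E univ ≠ ∞ := measure_ne_top _ _
  have hSp := surf_real_pos (E := E) hd
  have hX := extL4_one_lt_top (E := E) hd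
  set G := ∫ ω, ‖f ω‖ ^ 2 ∂(surf E) with hG
  set I := ∫ ω, f ω ∂(surf E) with hI
  set S := (surf E).real univ with hS
  have hG0 : 0 ≤ G := integral_nonneg fun ω => sq_nonneg _
  have hN := eLpNorm_two_four hf2
  rw [← hG] at hN
  have hSS : surf E univ ^ 2 = ENNReal.ofReal (S ^ 2) := by
    rw [surf_univ_eq, ENNReal.ofReal_pow measureReal_nonneg]
  have hI4 : ‖I‖ₑ ^ 4 = ENNReal.ofReal (‖I‖ ^ 4) := by
    rw [← ofReal_norm, ENNReal.ofReal_pow (norm_nonneg _)]
  have hle : ‖I‖ ^ 2 ≤ S * G := norm_integral_sq_le hf2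
  have hle4 : ‖I‖ ^ 4 ≤ S ^ 2 * G ^ 2 := by
    have h1 : (‖I‖ ^ 2) ^ 2 ≤ (S * G) ^ 2 := pow_le_pow_left₀ (sq_nonneg _) hle 2
    calc ‖I‖ ^ 4 = (‖I‖ ^ 2) ^ 2 := by ring
      _ ≤ _ := h1
      _ = _ := by ring
  have hI4le : ‖I‖ₑ ^ 4 ≤ surf E univ ^ 2 * eLpNorm f 2 (surf E) ^ 4 := by
    rw [hI4, hN, hSS, ← ENNReal.ofReal_mul (by positivity)]
    exact ENNReal.ofReal_le_ofReal hle4
  have hsharp := sharp hd hf2
  have hA : extL4 f ≤ extL4 (fun _ : sphere (0 : E) 1 => 1) / surf E univ ^ 2 *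
      eLpNorm f 2 (surf E) ^ 4 := by
    have h1 : extL4 (fun _ : sphere (0 : E) 1 => 1) / surf E univ ^ 2 *
        eLpNorm f 2 (surf E) ^ 4 = extL4 (fun _ : sphere (0 : E) 1 => 1) *
          eLpNorm f 2 (surf E) ^ 4 / surf E univ ^ 2 := by
      rw [div_eq_mul_inv, div_eq_mul_inv]; ring
    rw [h1, ENNReal.le_div_iff_mul_le (Or.inl (by positivity)) (Or.inl (by finiteness)), mul_comm]
    exact hsharp
  have hW : Wa E a * eLpNorm f 2 (surf E) ^ 4 =
      extL4 (fun _ : sphere (0 : E) 1 => 1) / surf E univ ^ 2 * eLpNorm f 2 (surf E) ^ 4 +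
        ENNReal.ofReal a * (surf E univ ^ 2 * eLpNorm f 2 (surf E) ^ 4) := by
    unfold Wa
    ring
  rw [hW]
  refine ⟨by gcongr, ?_⟩
  intro heq
  have hAfin : extL4 (fun _ : sphere (0 : E) 1 => 1) / surf E univ ^ 2 *
      eLpNorm f 2 (surf E) ^ 4 ≠ ∞ := by
    apply ENNReal.mul_ne_top
    · exact ENNReal.div_ne_top hX.ne (by positivity)
    · rw [hN]; exact ENNReal.ofReal_ne_top
  have hfin : extL4 f ≠ ∞ := ne_top_of_le_ne_top hAfin hA
  have haI : ENNReal.ofReal a * ‖I‖ₑ ^ 4 =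
      ENNReal.ofReal a * (surf E univ ^ 2 * eLpNorm f 2 (surf E) ^ 4) := by
    apply le_antisymm (by gcongr)
    by_contra hcon
    rw [not_le] at hcon
    exact (ENNReal.add_lt_add_of_le_of_lt hfin hA hcon).ne heq
  have hIeq : ‖I‖ₑ ^ 4 = surf E univ ^ 2 * eLpNorm f 2 (surf E) ^ 4 := by
    rwa [ENNReal.mul_right_inj (by simpa using ha) ENNReal.ofReal_ne_top] at haI
  rw [hI4, hN, hSS, ← ENNReal.ofReal_mul (by positivity),
    ENNReal.ofReal_eq_ofReal_iff (by positivity) (by positivity)] at hIeq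
  have hI2 : ‖I‖ ^ 2 = S * G := by
    have h1 : (‖I‖ ^ 2) ^ 2 = (S * G) ^ 2 := by
      calc (‖I‖ ^ 2) ^ 2 = ‖I‖ ^ 4 := by ring
        _ = _ := hIeq
        _ = _ := by ring
    exact (sq_eq_sq₀ (sq_nonneg _) (by positivity)).1 h1
  have hvar := variance hf2
  rw [← hS, ← hG, ← hI, hI2, sub_self] at hvar
  have hz : ∫ ω, ‖f ω - S⁻¹ • I‖ ^ 2 ∂(surf E) = 0 := by
    rcases mul_eq_zero.1 hvar.symm with h | h
    · exact absurd h hSp.ne'
    · exact h
  refine ⟨S⁻¹ • I, ?_⟩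
  have hint : Integrable (fun ω => ‖f ω - S⁻¹ • I‖ ^ 2) (surf E) :=
    integrable_sq (f := fun ω => f ω - S⁻¹ • I) (hf2.sub (memLp_const _))
  rw [integral_eq_zero_iff_of_nonneg (fun ω => sq_nonneg _) hint] at hz
  filter_upwards [hz] with ω hω
  have h1 : ‖f ω - S⁻¹ • I‖ ^ 2 = 0 := hω
  rw [pow_eq_zero_iff (by norm_num), norm_eq_zero, sub_eq_zero] at h1
  exact h1

theorem aStar_eq_zero (hd : Module.finrank ℝ E = 8) : aStar E = 0 := by
  unfold aStar
  have h : {a : ℝ | 0 < a ∧ Admissible E a} = Ioi 0 := by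
    ext a
    constructor
    · intro h
      exact h.1
    · intro h
      exact ⟨h, admissible_of_pos hd h⟩
  rw [h, csInf_Ioi]

end M

end

end Pool.Agent.SharpS7
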