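import Pool.Agent.SharpS7.Slice

/-!
# The convolution of the surface measure with itself
-/

set_option linter.unusedSectionVars false

namespace Pool.Agent.SharpS7

open MeasureTheory Measure Metric Set Function Filter Topology
open scoped ENNReal RealInnerProductSpace Pointwise

noncomputable section

/-- the slicing constant: the surface of the unit sphere of `ℝ⁷` -/
def kap : ℝ := (surf E7).real univ

theorem ofReal_kap : ENNReal.ofReal kap = surf E7 univ := by
  unfold kap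
  rw [ofReal_measureReal (measure_ne_top _ _)]

theorem kap_pos : 0 < kap := by
  have h : surf E7 univ ≠ 0 := by
    rw [Measure.measure_univ_ne_zero]
    exact Measure.toSphere_ne_zero _
  have h2 : (surf E7).real univ ≠ 0 := by
    rw [Ne, measureReal_eq_zero_iff (measure_ne_top _ _)]
    exact h
  exact lt_of_le_of_ne measureReal_nonneg (Ne.symm h2)

/-- the radial density of `σ * σ` -/
def wt (r : ℝ) : ℝ := kap / 32 * r⁻¹ * ((4 - r ^ 2) ^ 2 * √(4 - r ^ 2))

theorem measurable_wt : Measurable wt := by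
  unfold wt
  fun_prop

theorem wt_nonneg {r : ℝ} (hr : 0 ≤ r) : 0 ≤ wt r := by
  have := kap_pos
  unfold wt
  positivity

section Conv

variable {E : Type*} [NormedAddCommGroup E] [InnerProductSpace ℝ E] [FiniteDimensional ℝ E]
  [MeasurableSpace E] [BorelSpace E]

theorem norm_add_sphere (α β : sphere (0 : E) 1) :
    ‖(α : E) + β‖ = √(2 + 2 * ⟪(β : E), α⟫) := by
  symm
  rw [Real.sqrt_eq_iff_mul_self_eq (by
    have := norm_add_sq_real (α : E) β
    rw [norm_eq_of_mem_sphere, norm_eq_of_mem_sphere, real_inner_comm] at this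
    nlinarith [sq_nonneg ‖(α : E) + β‖]) (norm_nonneg _), ← pow_two, norm_add_sq_real,
    norm_eq_of_mem_sphere, norm_eq_of_mem_sphere, real_inner_comm]
  ring

theorem subst_radial (b : ℝ → ℝ≥0∞) :
    ∫⁻ t, b (√(2 + 2 * t)) * ENNReal.ofReal ((1 - t ^ 2) ^ 2 * √(1 - t ^ 2)) =
      ∫⁻ r in Ioi (0 : ℝ), ENNReal.ofReal (r ^ 7) * (b r *
        ENNReal.ofReal (32⁻¹ * r⁻¹ * ((4 - r ^ 2) ^ 2 * √(4 - r ^ 2)))) := by
  have h0 : ∫⁻ t, b (√(2 + 2 * t)) * ENNReal.ofReal ((1 - t ^ 2) ^ 2 * √(1 - t ^ 2)) =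
      ∫⁻ t in Ioi (-1 : ℝ), b (√(2 + 2 * t)) *
        ENNReal.ofReal ((1 - t ^ 2) ^ 2 * √(1 - t ^ 2)) := by
    rw [← lintegral_indicator measurableSet_Ioi]
    apply lintegral_congr
    intro t
    by_cases ht : t ∈ Ioi (-1 : ℝ)
    · rw [indicator_of_mem ht]
    · rw [indicator_of_notMem ht]
      have ht' : t ≤ -1 := not_lt.1 ht
      have : √(1 - t ^ 2) = 0 := Real.sqrt_eq_zero_of_nonpos (by nlinarith)
      simp [this]
  rw [h0]
  have himg : (fun r : ℝ => r ^ 2 / 2 - 1) '' Ioi (0 : ℝ) = Ioi (-1 : ℝ) := by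
    ext t
    constructor
    · rintro ⟨r, hr, rfl⟩
      have hr : 0 < r := hr
      simp only [mem_Ioi]
      have : 0 < r ^ 2 := by positivity
      linarith
    · intro ht
      have ht : -1 < t := ht
      refine ⟨√(2 + 2 * t), Real.sqrt_pos.2 (by linarith), ?_⟩
      simp only
      rw [Real.sq_sqrt (by linarith)]
      ring
  have hinj : InjOn (fun r : ℝ => r ^ 2 / 2 - 1) (Ioi (0 : ℝ)) := by
    intro r hr r' hr' h
    have hr : 0 < r := hr
    have hr' : 0 < r' := hr'
    simp only at h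
    have : r ^ 2 = r' ^ 2 := by linarith
    rwa [sq_eq_sq₀ hr.le hr'.le] at this
  have hder : ∀ r ∈ Ioi (0 : ℝ), HasDerivWithinAt (fun r : ℝ => r ^ 2 / 2 - 1) r
      (Ioi (0 : ℝ)) r := by
    intro r _
    have h1 : HasDerivAt (fun r : ℝ => r ^ 2 / 2 - 1) (((2 : ℕ) : ℝ) * r ^ (2 - 1) / 2) r :=
      ((hasDerivAt_pow 2 r).div_const 2).sub_const 1
    refine (h1.congr_deriv ?_).hasDerivWithinAt
    norm_num
  have h := lintegral_image_eq_lintegral_abs_deriv_mul measurableSet_Ioi hder hinj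
    (fun t => b (√(2 + 2 * t)) * ENNReal.ofReal ((1 - t ^ 2) ^ 2 * √(1 - t ^ 2)))
  rw [himg] at h
  rw [h]
  apply setLIntegral_congr_fun measurableSet_Ioi
  intro r hr
  have hr : 0 < r := hr
  simp only
  have e1 : √(2 + 2 * (r ^ 2 / 2 - 1)) = r := by
    have : 2 + 2 * (r ^ 2 / 2 - 1) = r ^ 2 := by ring
    rw [this, Real.sqrt_sq hr.le]
  have e2 : 1 - (r ^ 2 / 2 - 1) ^ 2 = (r / 2) ^ 2 * (4 - r ^ 2) := by ring
  have e3 : √(1 - (r ^ 2 / 2 - 1) ^ 2) = r / 2 * √(4 - r ^ 2) := by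
    rw [e2, Real.sqrt_mul (sq_nonneg _), Real.sqrt_sq (by positivity)]
  rw [e1, e3, e2, abs_of_pos hr]
  rw [mul_left_comm (ENNReal.ofReal (r ^ 7)), mul_left_comm (ENNReal.ofReal r),
    ← ENNReal.ofReal_mul hr.le, ← ENNReal.ofReal_mul (by positivity)]
  congr 2
  field_simp
  ring

theorem radial (hd : Module.finrank ℝ E = 8) {b : ℝ → ℝ≥0∞} (hb : Measurable b) :
    ∫⁻ α : sphere (0 : E) 1, ∫⁻ β : sphere (0 : E) 1, b ‖(α : E) + β‖ ∂(surf E) ∂(surf E) =
      ∫⁻ y : E, b ‖y‖ * ENNReal.ofReal (wt ‖y‖) := by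
  have : Nontrivial E := Module.nontrivial_of_finrank_pos (R := ℝ) (by omega)
  have h1 : ∀ α : sphere (0 : E) 1, ∫⁻ β : sphere (0 : E) 1, b ‖(α : E) + β‖ ∂(surf E) =
      surf E7 univ * ∫⁻ t, b (√(2 + 2 * t)) *
        ENNReal.ofReal ((1 - t ^ 2) ^ 2 * √(1 - t ^ 2)) := by
    intro α
    simp_rw [norm_add_sphere]
    exact slice hd (norm_eq_of_mem_sphere α) (ψ := fun t => b (√(2 + 2 * t)))
      (hb.comp (by fun_prop))
  simp_rw [h1]
  rw [lintegral_const]
  have hm : Measurable fun y : E => b ‖y‖ * ENNReal.ofReal (wt ‖y‖) := by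
    apply Measurable.mul
    · exact hb.comp measurable_norm
    · exact ENNReal.measurable_ofReal.comp (measurable_wt.comp measurable_norm)
  rw [lintegral_polar hm, hd]
  have h3 : ∀ ω : sphere (0 : E) 1, ∫⁻ r in Ioi (0 : ℝ),
      ENNReal.ofReal (r ^ (8 - 1)) * (b ‖r • (ω : E)‖ * ENNReal.ofReal (wt ‖r • (ω : E)‖)) =
      ∫⁻ r in Ioi (0 : ℝ), surf E7 univ * (ENNReal.ofReal (r ^ 7) * (b r *
        ENNReal.ofReal (32⁻¹ * r⁻¹ * ((4 - r ^ 2) ^ 2 * √(4 - r ^ 2))))) := by
    intro ω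
    apply setLIntegral_congr_fun measurableSet_Ioi
    intro r hr
    have hr : 0 < r := hr
    have hn : ‖r • (ω : E)‖ = r := by
      rw [norm_smul, norm_eq_of_mem_sphere, Real.norm_of_nonneg hr.le, mul_one]
    simp only [hn]
    have : wt r = kap * (32⁻¹ * r⁻¹ * ((4 - r ^ 2) ^ 2 * √(4 - r ^ 2))) := by
      unfold wt
      ring
    rw [this, ENNReal.ofReal_mul kap_pos.le, ofReal_kap]
    ring
  simp_rw [h3]
  rw [lintegral_const, subst_radial, lintegral_const_mul]
  apply Measurable.mul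
  · fun_prop
  · apply Measurable.mul hb
    fun_prop

theorem surf_univ_ne_zero (hd : Module.finrank ℝ E = 8) : surf E univ ≠ 0 := by
  have : Nontrivial E := Module.nontrivial_of_finrank_pos (R := ℝ) (by omega)
  rw [Measure.measure_univ_ne_zero]
  exact Measure.toSphere_ne_zero _

/-- `σ * σ = wt(|y|) dy` tested on functions of `|x + y|`. -/
theorem conv_eq (hd : Module.finrank ℝ E = 8) {G : ℝ → ℝ≥0∞} (hG : Measurable G) (x : E) :
    ∫⁻ α : sphere (0 : E) 1, ∫⁻ β : sphere (0 : E) 1, G ‖x + ((α : E) + β)‖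
      ∂(surf E) ∂(surf E) = ∫⁻ y : E, G ‖x + y‖ * ENNReal.ofReal (wt ‖y‖) := by
  have : Nontrivial E := Module.nontrivial_of_finrank_pos (R := ℝ) (by omega)
  obtain ⟨e, he⟩ := exists_norm_eq E (zero_le_one (α := ℝ))
  set r : ℝ := ‖x‖ with hr
  set A : E → ℝ≥0∞ := fun x => ∫⁻ α : sphere (0 : E) 1, ∫⁻ β : sphere (0 : E) 1,
    G ‖x + ((α : E) + β)‖ ∂(surf E) ∂(surf E) with hA
  set A' : E → ℝ≥0∞ := fun x => ∫⁻ y : E, G ‖x + y‖ * ENNReal.ofReal (wt ‖y‖) with hA'
  -- invariance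
  have hAinv : ∀ (R : E ≃ₗᵢ[ℝ] E) (z : E), A (R z) = A z := by
    intro R z
    simp only [hA]
    have hm : Measurable (fun p : sphere (0 : E) 1 × sphere (0 : E) 1 =>
        G ‖R z + ((p.1 : E) + p.2)‖) := hG.comp (by fun_prop)
    rw [← lintegral_surf_isometry R (ψ := fun α => ∫⁻ β : sphere (0 : E) 1,
      G ‖R z + ((α : E) + β)‖ ∂(surf E)) hm.lintegral_prod_right']
    apply lintegral_congr
    intro α
    rw [← lintegral_surf_isometry R (ψ := fun β : sphere (0 : E) 1 =>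
      G ‖R z + ((sphMap R α : E) + β)‖) (hG.comp (by fun_prop))]
    apply lintegral_congr
    intro β
    rw [coe_sphMap, coe_sphMap, ← map_add, ← map_add, LinearIsometryEquiv.norm_map]
  have hA'inv : ∀ (R : E ≃ₗᵢ[ℝ] E) (z : E), A' (R z) = A' z := by
    intro R z
    simp only [hA']
    have hm : Measurable fun y : E => G ‖R z + y‖ * ENNReal.ofReal (wt ‖y‖) := by
      apply Measurable.mul
      · exact hG.comp (by fun_prop)
      · exact ENNReal.measurable_ofReal.comp (measurable_wt.comp measurable_norm)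
    rw [← R.measurePreserving.lintegral_comp hm]
    apply lintegral_congr
    intro y
    rw [← map_add, LinearIsometryEquiv.norm_map, LinearIsometryEquiv.norm_map]
  have hnorm : ∀ θ : sphere (0 : E) 1, ‖r • (θ : E)‖ = ‖x‖ := by
    intro θ
    rw [norm_smul, norm_eq_of_mem_sphere, Real.norm_of_nonneg (norm_nonneg _), mul_one]
  have hAθ : ∀ θ : sphere (0 : E) 1, A (r • (θ : E)) = A x := by
    intro θ
    obtain ⟨R, hR, _⟩ := exists_isometry (hnorm θ)
    rw [← hR, hAinv]
  have hA'θ : ∀ θ : sphere (0 : E) 1, A' (r • (θ : E)) = A' x := by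
    intro θ
    obtain ⟨R, hR, _⟩ := exists_isometry (hnorm θ)
    rw [← hR, hA'inv]
  -- the averaged kernel
  set B : E → ℝ≥0∞ := fun y => ∫⁻ θ : sphere (0 : E) 1, G ‖r • (θ : E) + y‖ ∂(surf E) with hB
  set b : ℝ → ℝ≥0∞ := fun s => B (s • e) with hb
  have hBm : Measurable B := by
    have hm : Measurable (fun p : E × sphere (0 : E) 1 => G ‖r • (p.2 : E) + p.1‖) :=
      hG.comp (by fun_prop)
    exact hm.lintegral_prod_right'
  have hbm : Measurable b := hBm.comp (by fun_prop)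
  have hBb : ∀ y, B y = b ‖y‖ := by
    intro y
    have h1 : ‖‖y‖ • e‖ = ‖y‖ := by
      rw [norm_smul, he, mul_one, norm_norm]
    obtain ⟨R, hR, _⟩ := exists_isometry h1
    simp only [hb]
    conv_lhs => rw [← hR]
    simp only [hB]
    rw [← lintegral_surf_isometry R (ψ := fun θ : sphere (0 : E) 1 =>
      G ‖r • (θ : E) + R (‖y‖ • e)‖) (hG.comp (by fun_prop))]
    apply lintegral_congr
    intro θ
    rw [coe_sphMap, ← map_smul, ← map_add, LinearIsometryEquiv.norm_map]
  have h1 : A x * surf E univ = ∫⁻ α : sphere (0 : E) 1, ∫⁻ β : sphere (0 : E) 1,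
      b ‖(α : E) + β‖ ∂(surf E) ∂(surf E) := by
    rw [← lintegral_const, lintegral_congr (fun θ => (hAθ θ).symm)]
    simp only [hA]
    have hm3 : Measurable (fun p : sphere (0 : E) 1 × sphere (0 : E) 1 × sphere (0 : E) 1 =>
        G ‖r • (p.1 : E) + ((p.2.1 : E) + p.2.2)‖) := hG.comp (by fun_prop)
    have hm3' : Measurable (fun p : (sphere (0 : E) 1 × sphere (0 : E) 1) × sphere (0 : E) 1 =>
        G ‖r • (p.1.1 : E) + ((p.1.2 : E) + p.2)‖) := hG.comp (by fun_prop)
    rw [lintegral_lintegral_swap hm3'.lintegral_prod_right'.aemeasurable]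
    apply lintegral_congr
    intro α
    rw [lintegral_lintegral_swap]
    · apply lintegral_congr
      intro β
      rw [← hBb]
    · apply Measurable.aemeasurable
      exact hG.comp (by fun_prop)
  have h2 : A' x * surf E univ = ∫⁻ y : E, b ‖y‖ * ENNReal.ofReal (wt ‖y‖) := by
    rw [← lintegral_const, lintegral_congr (fun θ => (hA'θ θ).symm)]
    simp only [hA']
    rw [lintegral_lintegral_swap]
    · apply lintegral_congr
      intro y
      rw [← hBb, lintegral_mul_const]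
      exact hG.comp (by fun_prop)
    · apply Measurable.aemeasurable
      apply Measurable.mul
      · exact hG.comp (by fun_prop)
      · exact ENNReal.measurable_ofReal.comp (measurable_wt.comp (by fun_prop))
  have h3 : A x * surf E univ = A' x * surf E univ := by
    rw [h1, h2]
    exact radial hd hbm
  exact (ENNReal.mul_left_inj (surf_univ_ne_zero hd) (measure_ne_top _ _)).1 h3

end Conv

end

end Pool.Agent.SharpS7
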