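import Pool.Agent.SharpS7.Kernel

/-!
# Gaussian regularisation of the quartic form
-/

set_option linter.unusedSectionVars false

namespace Pool.Agent.SharpS7

open MeasureTheory Measure Metric Set Function Filter Topology Real
open scoped ENNReal RealInnerProductSpace Pointwise ComplexConjugate

noncomputable section

section G

variable {E : Type*} [NormedAddCommGroup E] [InnerProductSpace ℝ E] [FiniteDimensional ℝ E]
  [MeasurableSpace E] [BorelSpace E]

/-- the Gaussian weight -/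
def gw (ε : ℝ) (x : E) : ℝ := Real.exp (-(ε * ‖x‖ ^ 2 / 2))

theorem gw_pos (ε : ℝ) (x : E) : 0 < gw ε x := Real.exp_pos _

theorem continuous_gw (ε : ℝ) : Continuous (gw (E := E) ε) := by
  unfold gw
  fun_prop

theorem integrable_gw {ε : ℝ} (hε : 0 < ε) : Integrable (gw (E := E) ε) := by
  have h := GaussianFourier.integrable_cexp_neg_mul_sq_norm_add (V := E) (b := (ε / 2 : ℝ))
    (by simpa using hε) 0 0
  have h2 := h.norm
  refine h2.congr (Eventually.of_forall fun x => ?_)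
  simp only [Complex.norm_exp, gw]
  congr 1
  simp
  norm_cast
  ring

theorem fourier_gw (hd : Module.finrank ℝ E = 8) {ε : ℝ} (hε : 0 < ε) (y : E) :
    ∫ x : E, Complex.exp (-(⟪x, y⟫ : ℂ) * Complex.I) * (gw ε x : ℂ) = (gam ε ‖y‖ : ℂ) := by
  have h := GaussianFourier.integral_cexp_neg_mul_sq_norm_add (V := E) (b := (ε / 2 : ℝ))
    (by simpa using hε) (-Complex.I) y
  have h1 : ∀ x : E, Complex.exp (-(⟪x, y⟫ : ℂ) * Complex.I) * (gw ε x : ℂ) =
      Complex.exp (-((ε / 2 : ℝ) : ℂ) * ‖x‖ ^ 2 + -Complex.I * ⟪y, x⟫) := by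
    intro x
    unfold gw
    rw [Complex.ofReal_exp, ← Complex.exp_add, real_inner_comm]
    congr 1
    push_cast
    ring
  simp_rw [h1]
  rw [h, hd]
  unfold gam
  have hε' : (ε : ℂ) ≠ 0 := by exact_mod_cast hε.ne'
  have h2 : (((8 : ℕ) : ℂ) / 2) = ((4 : ℕ) : ℂ) := by norm_num
  rw [h2, Complex.cpow_natCast]
  push_cast
  congr 1
  · congr 1
    field_simp
  · congr 1
    rw [neg_sq, Complex.I_sq]
    field_simp
    ring

variable {X : Type*} [MeasurableSpace X] {μ : Measure X} [IsFiniteMeasure μ]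

/-- generalised extension operator -/
def Tx (μ : Measure X) (φ : X → E) (F : X → ℂ) (x : E) : ℂ :=
  ∫ t, Complex.exp (-(⟪x, φ t⟫ : ℂ) * Complex.I) * F t ∂μ

theorem norm_cexp_inner (x y : E) : ‖Complex.exp (-(⟪x, y⟫ : ℂ) * Complex.I)‖ = 1 := by
  have : -(⟪x, y⟫ : ℂ) * Complex.I = ((-⟪x, y⟫ : ℝ) : ℂ) * Complex.I := by push_cast; ring
  rw [this, Complex.norm_exp_ofReal_mul_I]

theorem Tx_sq {φ : X → E} {F : X → ℂ} (x : E) :
    ((‖Tx μ φ F x‖ ^ 2 : ℝ) : ℂ) = ∫ z : X × X,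
      Complex.exp (-(⟪x, φ z.1 - φ z.2⟫ : ℂ) * Complex.I) * (F z.1 * conj (F z.2)) ∂(μ.prod μ) := by
  have h1 : ((‖Tx μ φ F x‖ ^ 2 : ℝ) : ℂ) = Tx μ φ F x * conj (Tx μ φ F x) := by
    rw [Complex.mul_conj, Complex.normSq_eq_norm_sq]
  rw [h1]
  unfold Tx
  rw [← integral_conj, ← integral_prod_mul]
  congr 1
  ext z
  rw [map_mul, ← Complex.exp_conj, inner_sub_right]
  have h2 : Complex.exp (-((⟪x, φ z.1⟫ - ⟪x, φ z.2⟫ : ℝ) : ℂ) * Complex.I) =
      Complex.exp (-(⟪x, φ z.1⟫ : ℂ) * Complex.I) *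
        Complex.exp (conj (-(⟪x, φ z.2⟫ : ℂ) * Complex.I)) := by
    rw [← Complex.exp_add]
    congr 1
    simp
    ring
  rw [h2]
  ring

theorem gauss_identity (hd : Module.finrank ℝ E = 8) {ε : ℝ} (hε : 0 < ε) {φ : X → E}
    (hφ : Measurable φ) {F : X → ℂ} (hF : Integrable F μ) :
    ((∫ x : E, ‖Tx μ φ F x‖ ^ 2 * gw ε x : ℝ) : ℂ) = ∫ z : X × X,
      (F z.1 * conj (F z.2)) * (gam ε ‖φ z.1 - φ z.2‖ : ℂ) ∂(μ.prod μ) := by
  rw [← integral_complex_ofReal]
  have h1 : ∀ x : E, ((‖Tx μ φ F x‖ ^ 2 * gw ε x : ℝ) : ℂ) = ∫ z : X × X,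
      (Complex.exp (-(⟪x, φ z.1 - φ z.2⟫ : ℂ) * Complex.I)) *
        ((gw ε x : ℂ) * (F z.1 * conj (F z.2))) ∂(μ.prod μ) := by
    intro x
    rw [Complex.ofReal_mul, Tx_sq, ← integral_mul_const]
    congr 1
    ext z
    ring
  simp_rw [h1]
  rw [integral_integral_swap]
  · congr 1
    ext z
    rw [← fourier_gw hd hε, ← integral_const_mul]
    congr 1
    ext x
    ring
  · have hFc : Integrable (fun t => conj (F t)) μ :=
      (Complex.conjLIE.toContinuousLinearEquiv.integrable_comp_iff).2 hF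
    have hF2 : Integrable (fun z : X × X => F z.1 * conj (F z.2)) (μ.prod μ) :=
      hF.mul_prod hFc
    have hgw : Integrable (fun x : E => (gw ε x : ℂ)) := (integrable_gw hε).ofReal
    have h3 := hgw.mul_prod hF2
    refine h3.bdd_mul (c := 1) ?_ ?_
    · apply Measurable.aestronglyMeasurable
      fun_prop
    · apply Eventually.of_forall
      rintro ⟨x, z⟩
      exact (norm_cexp_inner _ _).le

theorem measurable_Tx {φ : X → E} (hφ : Measurable φ) {F : X → ℂ} (hF : Measurable F) :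
    Measurable (Tx μ φ F) := by
  unfold Tx
  have h : StronglyMeasurable (fun z : E × X =>
      Complex.exp (-(⟪z.1, φ z.2⟫ : ℂ) * Complex.I) * F z.2) := by
    apply Measurable.stronglyMeasurable
    fun_prop
  exact (h.integral_prod_right).measurable

theorem norm_Tx_le {φ : X → E} {F : X → ℂ} (x : E) : ‖Tx μ φ F x‖ ≤ ∫ t, ‖F t‖ ∂μ := by
  unfold Tx
  refine (norm_integral_le_integral_norm _).trans (le_of_eq ?_)
  congr 1
  ext t
  rw [norm_mul, norm_cexp_inner, one_mul]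

theorem lintegral_Tx {ε : ℝ} (hε : 0 < ε) {φ : X → E}
    (hφ : Measurable φ) {F : X → ℂ} (hF : Measurable F) :
    ∫⁻ x : E, ENNReal.ofReal (‖Tx μ φ F x‖ ^ 2 * gw ε x) =
      ENNReal.ofReal (∫ x : E, ‖Tx μ φ F x‖ ^ 2 * gw ε x) := by
  symm
  apply ofReal_integral_eq_lintegral_ofReal
  · apply (integrable_gw hε).bdd_mul (c := (∫ t, ‖F t‖ ∂μ) ^ 2)
    · exact ((measurable_Tx hφ hF).norm.pow_const 2).aestronglyMeasurable
    · apply Eventually.of_forall
      intro x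
      rw [norm_pow, norm_norm]
      exact pow_le_pow_left₀ (norm_nonneg _) (norm_Tx_le x) 2
  · apply Eventually.of_forall
    intro x
    have := gw_pos ε x
    positivity

theorem gauss_upper (hd : Module.finrank ℝ E = 8) {ε : ℝ} (hε : 0 < ε) {φ : X → E}
    (hφ : Measurable φ) {F : X → ℂ} (hF : Measurable F) (hFi : Integrable F μ) :
    ∫⁻ x : E, ENNReal.ofReal (‖Tx μ φ F x‖ ^ 2 * gw ε x) ≤
      ∫⁻ s, ∫⁻ t, ENNReal.ofReal (‖F s‖ * ‖F t‖ * gam ε ‖φ s - φ t‖) ∂μ ∂μ := by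
  rw [lintegral_Tx hε hφ hF]
  have h1 := gauss_identity hd hε hφ hFi (μ := μ)
  have h2 : ENNReal.ofReal (∫ x : E, ‖Tx μ φ F x‖ ^ 2 * gw ε x) ≤
      ‖((∫ x : E, ‖Tx μ φ F x‖ ^ 2 * gw ε x : ℝ) : ℂ)‖ₑ := by
    rw [← ofReal_norm, Complex.norm_real]
    exact ENNReal.ofReal_le_ofReal (Real.le_norm_self _)
  refine h2.trans ?_
  rw [h1]
  refine (enorm_integral_le_lintegral_enorm _).trans (le_of_eq ?_)
  have h3 : ∀ z : X × X, ‖(F z.1 * conj (F z.2)) * (gam ε ‖φ z.1 - φ z.2‖ : ℂ)‖ₑ =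
      ENNReal.ofReal (‖F z.1‖ * ‖F z.2‖ * gam ε ‖φ z.1 - φ z.2‖) := by
    intro z
    rw [← ofReal_norm, norm_mul, norm_mul, RCLike.norm_conj, Complex.norm_real,
      Real.norm_of_nonneg (gam_nonneg _ _)]
  simp_rw [h3]
  rw [lintegral_prod]
  apply Measurable.aemeasurable
  apply ENNReal.measurable_ofReal.comp
  apply Measurable.mul
  · fun_prop
  · exact (measurable_gam ε).comp (by fun_prop)

theorem gauss_exact (hd : Module.finrank ℝ E = 8) {ε : ℝ} (hε : 0 < ε) {φ : X → E}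
    (hφ : Measurable φ) :
    ∫⁻ x : E, ENNReal.ofReal (‖Tx μ φ (fun _ => 1) x‖ ^ 2 * gw ε x) =
      ∫⁻ s, ∫⁻ t, ENNReal.ofReal (gam ε ‖φ s - φ t‖) ∂μ ∂μ := by
  rw [lintegral_Tx hε hφ measurable_const]
  have h1 := gauss_identity hd hε hφ (integrable_const (1 : ℂ)) (μ := μ)
  have hm : Measurable (fun z : X × X => gam ε ‖φ z.1 - φ z.2‖) :=
    (measurable_gam ε).comp (by fun_prop)
  have h2 : ∫ x : E, ‖Tx μ φ (fun _ => 1) x‖ ^ 2 * gw ε x =
      ∫ z : X × X, gam ε ‖φ z.1 - φ z.2‖ ∂(μ.prod μ) := by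
    have h3 : ((∫ z : X × X, gam ε ‖φ z.1 - φ z.2‖ ∂(μ.prod μ) : ℝ) : ℂ) =
        ∫ z : X × X, ((1 : ℂ) * conj (1 : ℂ)) * (gam ε ‖φ z.1 - φ z.2‖ : ℂ) ∂(μ.prod μ) := by
      rw [← integral_complex_ofReal]
      congr 1
      ext z
      simp
    rw [← h3] at h1
    exact_mod_cast h1
  rw [h2, ofReal_integral_eq_lintegral_ofReal, lintegral_prod]
  · exact (ENNReal.measurable_ofReal.comp hm).aemeasurable
  · refine (integrable_const ((2 * π / ε) ^ 4)).mono' hm.aestronglyMeasurable ?_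
    apply Eventually.of_forall
    intro z
    rw [Real.norm_of_nonneg (gam_nonneg _ _)]
    exact gam_le _ _ hε
  · exact Eventually.of_forall fun z => gam_nonneg _ _

end G

end

end Pool.Agent.SharpS7
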