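import Pool.Agent.SharpS7.Kernel

/-!
# The conditional expectation of the weight
-/

set_option linter.unusedSectionVars false

namespace Pool.Agent.SharpS7

open MeasureTheory Measure Metric Set Function Filter Topology Real
open scoped ENNReal RealInnerProductSpace Pointwise

noncomputable section

/-- the cubic weight -/
def psi (a b c : ℝ) : ℝ :=
  7 * a ^ 3 + 18 * a ^ 2 * (b + c) + 3 * a * (b ^ 2 + c ^ 2) + 14 * a * b * c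

theorem psi_nonneg {a b c : ℝ} (ha : 0 ≤ a) (hb : 0 ≤ b) (hc : 0 ≤ c) : 0 ≤ psi a b c := by
  unfold psi
  positivity

theorem psi_sum (a b c : ℝ) : psi a b c + psi b a c + psi c a b = 7 * (a + b + c) ^ 3 := by
  unfold psi
  ring

theorem psi_eq (a b c : ℝ) : psi a b c =
    a * (7 * a ^ 2 + 18 * a * (b + c) + 5 * (b + c) ^ 2) - 2 * a * (b - c) ^ 2 := by
  unfold psi
  ring

theorem poly_bound {a a₀ t m δ : ℝ} (ha0 : 0 ≤ a) (ha1 : a ≤ 1) (ha00 : 0 ≤ a₀) (ha01 : a₀ ≤ 1)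
    (ht0 : 0 ≤ t) (ht2 : t ≤ 2) (hm0 : 0 ≤ m) (hm16 : m ≤ 16) (hδ0 : 0 ≤ δ)
    (hdiff : |a - a₀| ≤ δ / 2) (hdiff2 : |t - (1 - a₀)| ≤ δ) :
    a * (7 * a ^ 2 + 18 * a * t + 5 * t ^ 2) - a / 8 * m ≤
      a₀ * (7 * a₀ ^ 2 + 18 * a₀ * (1 - a₀) + 5 * (1 - a₀) ^ 2) - a₀ / 8 * m + 100 * δ := by
  have e1 : a * (7 * a ^ 2 + 18 * a * t + 5 * t ^ 2) - a / 8 * m -
      (a₀ * (7 * a₀ ^ 2 + 18 * a₀ * (1 - a₀) + 5 * (1 - a₀) ^ 2) - a₀ / 8 * m) =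
      (a - a₀) * (7 * (a ^ 2 + a * a₀ + a₀ ^ 2) + 18 * (a + a₀) * t + 5 * t ^ 2) +
      (t - (1 - a₀)) * (18 * a₀ ^ 2 + 5 * a₀ * (t + (1 - a₀))) +
      (-(a - a₀)) * (m / 8) := by ring
  have e2 : (a - a₀) * (7 * (a ^ 2 + a * a₀ + a₀ ^ 2) + 18 * (a + a₀) * t + 5 * t ^ 2) ≤
      δ / 2 * 113 := by
    have h1 : 0 ≤ 7 * (a ^ 2 + a * a₀ + a₀ ^ 2) + 18 * (a + a₀) * t + 5 * t ^ 2 := by positivity
    have h2 : 7 * (a ^ 2 + a * a₀ + a₀ ^ 2) + 18 * (a + a₀) * t + 5 * t ^ 2 ≤ 113 := by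
      have k1 : a ^ 2 ≤ 1 := pow_le_one₀ ha0 ha1
      have k2 : a * a₀ ≤ 1 := mul_le_one₀ ha1 ha00 ha01
      have k3 : a₀ ^ 2 ≤ 1 := pow_le_one₀ ha00 ha01
      have k4 : (a + a₀) * t ≤ 2 * 2 := mul_le_mul (by linarith) ht2 ht0 (by norm_num)
      have k5 : t ^ 2 ≤ 2 ^ 2 := pow_le_pow_left₀ ht0 ht2 2
      linarith
    calc _ ≤ |a - a₀| * (7 * (a ^ 2 + a * a₀ + a₀ ^ 2) + 18 * (a + a₀) * t + 5 * t ^ 2) :=
          mul_le_mul_of_nonneg_right (le_abs_self _) h1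
      _ ≤ _ := mul_le_mul hdiff h2 h1 (by positivity)
  have e3 : (t - (1 - a₀)) * (18 * a₀ ^ 2 + 5 * a₀ * (t + (1 - a₀))) ≤ δ * 33 := by
    have h0 : 0 ≤ 1 - a₀ := by linarith
    have h1 : 0 ≤ 18 * a₀ ^ 2 + 5 * a₀ * (t + (1 - a₀)) := by positivity
    have h2 : 18 * a₀ ^ 2 + 5 * a₀ * (t + (1 - a₀)) ≤ 33 := by
      have k1 : a₀ ^ 2 ≤ 1 := pow_le_one₀ ha00 ha01
      have k2 : a₀ * (t + (1 - a₀)) ≤ 1 * 3 :=
        mul_le_mul ha01 (by linarith) (by positivity) (by norm_num)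
      linarith
    calc _ ≤ |t - (1 - a₀)| * (18 * a₀ ^ 2 + 5 * a₀ * (t + (1 - a₀))) :=
          mul_le_mul_of_nonneg_right (le_abs_self _) h1
      _ ≤ _ := mul_le_mul hdiff2 h2 h1 (by positivity)
  have e4 : (-(a - a₀)) * (m / 8) ≤ δ / 2 * 2 := by
    have h1 : 0 ≤ m / 8 := by positivity
    calc _ ≤ |a - a₀| * (m / 8) := mul_le_mul_of_nonneg_right (neg_le_abs _) h1
      _ ≤ _ := mul_le_mul hdiff (by linarith) h1 (by positivity)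
  linarith

theorem sq_le_of_abs {x b c : ℝ} (h1 : |x| ≤ b) (h2 : |x| ≤ c) : x ^ 2 ≤ b * c := by
  rw [← sq_abs, pow_two]
  exact mul_le_mul h1 h2 (abs_nonneg _) ((abs_nonneg _).trans h1)

section I

variable {E : Type*} [NormedAddCommGroup E] [InnerProductSpace ℝ E] [FiniteDimensional ℝ E]
  [MeasurableSpace E] [BorelSpace E]

/-- `(|p + q|² + |r + s|²) / 8` -/
def aa (p q r s : E) : ℝ := (‖p + q‖ ^ 2 + ‖r + s‖ ^ 2) / 8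

/-- the cubic weight on quadruples -/
def P4 (p q r s : E) : ℝ := psi (aa p q r s) (aa p r q s) (aa p s q r)

theorem aa_nonneg (p q r s : E) : 0 ≤ aa p q r s := by
  unfold aa
  positivity

theorem P4_nonneg (p q r s : E) : 0 ≤ P4 p q r s :=
  psi_nonneg (aa_nonneg _ _ _ _) (aa_nonneg _ _ _ _) (aa_nonneg _ _ _ _)

theorem aa_sum {p q r s : E} (hp : ‖p‖ = 1) (hq : ‖q‖ = 1) (hr : ‖r‖ = 1) (hs : ‖s‖ = 1) :
    aa p q r s + aa p r q s + aa p s q r = 1 + ‖p + q + (r + s)‖ ^ 2 / 8 := by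
  unfold aa
  have h : ‖p + q + (r + s)‖ ^ 2 = ‖p‖ ^ 2 + ‖q‖ ^ 2 + ‖r‖ ^ 2 + ‖s‖ ^ 2 +
      2 * (⟪p, q⟫ + ⟪p, r⟫ + ⟪p, s⟫ + ⟪q, r⟫ + ⟪q, s⟫ + ⟪r, s⟫) := by
    rw [norm_add_sq_real, norm_add_sq_real, norm_add_sq_real]
    simp only [inner_add_left, inner_add_right]
    ring
  rw [h]
  simp only [norm_add_sq_real, hp, hq, hr, hs]
  ring

theorem aa_sub (p q r s : E) : aa p r q s - aa p s q r = ⟪p - q, r - s⟫ / 4 := by
  unfold aa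
  simp only [norm_add_sq_real, inner_sub_left, inner_sub_right]
  ring

theorem norm_add_le_two {p q : E} (hp : ‖p‖ = 1) (hq : ‖q‖ = 1) : ‖p + q‖ ≤ 2 :=
  (norm_add_le _ _).trans (by rw [hp, hq]; norm_num)

theorem norm_sub_le_two {p q : E} (hp : ‖p‖ = 1) (hq : ‖q‖ = 1) : ‖p - q‖ ≤ 2 :=
  (norm_sub_le _ _).trans (by rw [hp, hq]; norm_num)

theorem norm_sq_le_four {x : E} (hx : ‖x‖ ≤ 2) : ‖x‖ ^ 2 ≤ 4 :=
  (pow_le_pow_left₀ (norm_nonneg _) hx 2).trans (by norm_num)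

theorem aa_le_one {p q r s : E} (hp : ‖p‖ = 1) (hq : ‖q‖ = 1) (hr : ‖r‖ = 1) (hs : ‖s‖ = 1) :
    aa p q r s ≤ 1 := by
  have h1 := norm_sq_le_four (norm_add_le_two hp hq)
  have h2 := norm_sq_le_four (norm_add_le_two hr hs)
  unfold aa
  linarith

theorem diff_sq_le {p q r s : E} (hp : ‖p‖ = 1) (hq : ‖q‖ = 1) (hr : ‖r‖ = 1) (hs : ‖s‖ = 1) :
    |‖r + s‖ ^ 2 - ‖p + q‖ ^ 2| ≤ 4 * ‖p + q + (r + s)‖ := by
  have h1 := norm_add_le_two hp hq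
  have h2 := norm_add_le_two hr hs
  have hpq0 := norm_nonneg (p + q)
  have hrs0 := norm_nonneg (r + s)
  have h3 := abs_norm_sub_norm_le (r + s) (-(p + q))
  rw [norm_neg, sub_neg_eq_add, add_comm (r + s)] at h3
  have h4 : ‖r + s‖ ^ 2 - ‖p + q‖ ^ 2 = (‖r + s‖ + ‖p + q‖) * (‖r + s‖ - ‖p + q‖) := by ring
  rw [h4, abs_mul, abs_of_nonneg (add_nonneg hrs0 hpq0)]
  exact mul_le_mul (by linarith) h3 (abs_nonneg _) (by norm_num)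

theorem P4_le {p q r s : E} (hp : ‖p‖ = 1) (hq : ‖q‖ = 1) (hr : ‖r‖ = 1) (hs : ‖s‖ = 1) :
    P4 p q r s ≤ ‖p + q‖ ^ 2 / 4 * (7 * (‖p + q‖ ^ 2 / 4) ^ 2 +
      18 * (‖p + q‖ ^ 2 / 4) * (1 - ‖p + q‖ ^ 2 / 4) + 5 * (1 - ‖p + q‖ ^ 2 / 4) ^ 2) -
      ‖p + q‖ ^ 2 / 32 * ⟪p - q, r - s⟫ ^ 2 + 100 * ‖p + q + (r + s)‖ := by
  have hsum := aa_sum hp hq hr hs
  have hsub := aa_sub p q r s
  have hd := diff_sq_le hp hq hr hs
  have ha0 := aa_nonneg p q r s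
  have ha1 := aa_le_one hp hq hr hs
  have hb0 := aa_nonneg p r q s
  have hb1 := aa_le_one hp hr hq hs
  have hc0 := aa_nonneg p s q r
  have hc1 := aa_le_one hp hs hq hr
  have hpq4 := norm_sq_le_four (norm_add_le_two hp hq)
  have hδ0 : 0 ≤ ‖p + q + (r + s)‖ := norm_nonneg _
  have hδ4 : ‖p + q + (r + s)‖ ≤ 4 :=
    (norm_add_le _ _).trans (by linarith [norm_add_le_two hp hq, norm_add_le_two hr hs])
  have hm16 : ⟪p - q, r - s⟫ ^ 2 ≤ 16 := by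
    have h1 : |⟪p - q, r - s⟫| ≤ 2 * 2 := (abs_real_inner_le_norm _ _).trans
      (mul_le_mul (norm_sub_le_two hp hq) (norm_sub_le_two hr hs) (norm_nonneg _) (by norm_num))
    exact (sq_le_of_abs h1 h1).trans (by norm_num)
  have hm0 := sq_nonneg ⟪p - q, r - s⟫
  have haeq : aa p q r s = (‖p + q‖ ^ 2 + ‖r + s‖ ^ 2) / 8 := rfl
  have hP : P4 p q r s = aa p q r s * (7 * aa p q r s ^ 2 + 18 * aa p q r s *
      (aa p r q s + aa p s q r) + 5 * (aa p r q s + aa p s q r) ^ 2) -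
      aa p q r s / 8 * ⟪p - q, r - s⟫ ^ 2 := by
    unfold P4
    rw [psi_eq, hsub]
    ring
  have hdiff : |aa p q r s - ‖p + q‖ ^ 2 / 4| ≤ ‖p + q + (r + s)‖ / 2 := by
    have h1 : aa p q r s - ‖p + q‖ ^ 2 / 4 = (‖r + s‖ ^ 2 - ‖p + q‖ ^ 2) / 8 := by
      rw [haeq]; ring
    rw [h1, abs_div, abs_of_nonneg (by norm_num : (0 : ℝ) ≤ 8)]
    linarith
  have hdiff2 : |(aa p r q s + aa p s q r) - (1 - ‖p + q‖ ^ 2 / 4)| ≤ ‖p + q + (r + s)‖ := by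
    have h1 : (aa p r q s + aa p s q r) - (1 - ‖p + q‖ ^ 2 / 4) =
        ‖p + q + (r + s)‖ * ‖p + q + (r + s)‖ / 8 - (aa p q r s - ‖p + q‖ ^ 2 / 4) := by
      linarith
    rw [h1]
    have h2 := abs_le.1 hdiff
    have h3 : 0 ≤ ‖p + q + (r + s)‖ * ‖p + q + (r + s)‖ := by positivity
    have h4 : ‖p + q + (r + s)‖ * ‖p + q + (r + s)‖ ≤ 4 * ‖p + q + (r + s)‖ :=
      mul_le_mul_of_nonneg_right hδ4 hδ0
    rw [abs_le]
    constructor <;> linarith [h2.1, h2.2]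
  have key := poly_bound ha0 ha1 (a₀ := ‖p + q‖ ^ 2 / 4) (by positivity) (by linarith)
    (add_nonneg hb0 hc0) (by linarith) hm0 hm16 hδ0 hdiff hdiff2
  rw [hP]
  refine key.trans (le_of_eq ?_)
  ring

/-- lower bound for the second moment orthogonal to `x` -/
theorem perp_ge {p q r s : E} (hp : ‖p‖ = 1) (hq : ‖q‖ = 1) (hr : ‖r‖ = 1) (hs : ‖s‖ = 1) :
    ‖p + q‖ ^ 2 * (4 - ‖p + q‖ ^ 2) - 24 * ‖p + q + (r + s)‖ ≤
      ‖p + q‖ ^ 2 * ‖r - s‖ ^ 2 - ⟪p + q, r - s⟫ ^ 2 := by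
  have hd := diff_sq_le hp hq hr hs
  have hpq4 := norm_sq_le_four (norm_add_le_two hp hq)
  have hpq0 : 0 ≤ ‖p + q‖ ^ 2 := by positivity
  have hδ0 : 0 ≤ ‖p + q + (r + s)‖ := norm_nonneg _
  have h1 : ‖r - s‖ ^ 2 = 4 - ‖r + s‖ ^ 2 := by
    rw [norm_add_sq_real, norm_sub_sq_real, hr, hs]; ring
  have h4 : ⟪p + q, r - s⟫ = ⟪p + q + (r + s), r - s⟫ := by
    rw [inner_add_left (p + q)]
    have : ⟪r + s, r - s⟫ = 0 := by
      rw [real_inner_add_sub_eq_zero_iff, hr, hs]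
    rw [this, add_zero]
  have h5 : ⟪p + q, r - s⟫ ^ 2 ≤ ‖p + q + (r + s)‖ * 2 * (2 * 2) := by
    apply sq_le_of_abs
    · rw [h4]
      exact (abs_real_inner_le_norm _ _).trans
        (mul_le_mul_of_nonneg_left (norm_sub_le_two hr hs) hδ0)
    · exact (abs_real_inner_le_norm _ _).trans
        (mul_le_mul (norm_add_le_two hp hq) (norm_sub_le_two hr hs) (norm_nonneg _) (by norm_num))
  have h6 : ‖p + q‖ ^ 2 * (‖r + s‖ ^ 2 - ‖p + q‖ ^ 2) ≤ 4 * (4 * ‖p + q + (r + s)‖) := by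
    calc _ ≤ ‖p + q‖ ^ 2 * |‖r + s‖ ^ 2 - ‖p + q‖ ^ 2| :=
          mul_le_mul_of_nonneg_left (le_abs_self _) hpq0
      _ ≤ _ := mul_le_mul hpq4 hd (abs_nonneg _) (by norm_num)
  rw [h1]
  linarith

end I

end

end Pool.Agent.SharpS7
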