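import Pool.Agent.SharpS7.Inner

/-!
# Isotropy of the conditional law and the estimate of the reduced kernel
-/

set_option linter.unusedSectionVars false

namespace Pool.Agent.SharpS7

open MeasureTheory Measure Metric Set Function Filter Topology Real
open scoped ENNReal RealInnerProductSpace Pointwise

noncomputable section

section Iso

variable {E : Type*} [NormedAddCommGroup E] [InnerProductSpace ℝ E] [FiniteDimensional ℝ E]
  [MeasurableSpace E] [BorelSpace E]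

/-- the product measure on pairs of points of the sphere -/
abbrev surf2 (E : Type*) [NormedAddCommGroup E] [InnerProductSpace ℝ E] [FiniteDimensional ℝ E]
    [MeasurableSpace E] [BorelSpace E] : Measure (sphere (0 : E) 1 × sphere (0 : E) 1) :=
  (surf E).prod (surf E)

theorem integrable_surf2 {F : sphere (0 : E) 1 × sphere (0 : E) 1 → ℝ} (hF : Continuous F) :
    Integrable F (surf2 E) :=
  hF.integrable_of_hasCompactSupport (HasCompactSupport.of_compactSpace F)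

theorem integral_surf2_inv (R : E ≃ₗᵢ[ℝ] E) {F : sphere (0 : E) 1 × sphere (0 : E) 1 → ℝ}
    (hF : Continuous F) :
    ∫ p, F (sphMap R p.1, sphMap R p.2) ∂(surf2 E) = ∫ p, F p ∂(surf2 E) := by
  have hT : MeasurePreserving (Prod.map (sphMap R) (sphMap R)) (surf2 E) (surf2 E) :=
    (measurePreserving_sphMap R).prod (measurePreserving_sphMap R)
  conv_rhs => rw [← hT.map_eq]
  rw [integral_map hT.measurable.aemeasurable hF.aestronglyMeasurable]
  rfl

/-- second moments -/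
def Phi (ε : ℝ) (x u : E) : ℝ :=
  ∫ p : sphere (0 : E) 1 × sphere (0 : E) 1,
    ⟪u, (p.1 : E) - p.2⟫ ^ 2 * gam ε ‖x + ((p.1 : E) + p.2)‖ ∂(surf2 E)

theorem continuous_gk (ε : ℝ) (x : E) :
    Continuous fun p : sphere (0 : E) 1 × sphere (0 : E) 1 =>
      gam ε ‖x + ((p.1 : E) + p.2)‖ :=
  (continuous_gam ε).comp (by fun_prop)

theorem Phi_inv (ε : ℝ) (x u : E) (R : E ≃ₗᵢ[ℝ] E) (hR : R x = x) :
    Phi ε x (R u) = Phi ε x u := by
  unfold Phi
  rw [← integral_surf2_inv R (F := fun p : sphere (0 : E) 1 × sphere (0 : E) 1 =>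
    ⟪R u, (p.1 : E) - p.2⟫ ^ 2 * gam ε ‖x + ((p.1 : E) + p.2)‖)]
  · apply integral_congr_ae
    apply Eventually.of_forall
    intro p
    simp only [coe_sphMap]
    have h1 : x + (R (p.1 : E) + R (p.2 : E)) = R (x + ((p.1 : E) + p.2)) := by
      rw [map_add, map_add, hR]
    rw [h1, LinearIsometryEquiv.norm_map, ← map_sub, LinearIsometryEquiv.inner_map_map]
  · exact (Continuous.pow (by fun_prop) 2).mul (continuous_gk ε x)

theorem Phi_smul (ε : ℝ) (x u : E) (c : ℝ) : Phi ε x (c • u) = c ^ 2 * Phi ε x u := by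
  unfold Phi
  rw [← integral_const_mul]
  congr 1
  ext p
  rw [real_inner_smul_left]
  ring

theorem Phi_unit (ε : ℝ) {x u v : E} (hu : ‖u‖ = 1) (hv : ‖v‖ = 1) (hxu : ⟪x, u⟫ = 0)
    (hxv : ⟪x, v⟫ = 0) : Phi ε x u = Phi ε x v := by
  obtain ⟨R, hR, hR2⟩ := exists_isometry (hu.trans hv.symm)
  rw [← hR, Phi_inv ε x u R (hR2 x (hxu.trans hxv.symm))]

theorem isotropy (hd : Module.finrank ℝ E = 8) (ε : ℝ) {x v : E} (hxv : ⟪x, v⟫ = 0) :
    ‖x‖ ^ 2 * Phi ε x v = ‖v‖ ^ 2 / 7 * ∫ p : sphere (0 : E) 1 × sphere (0 : E) 1,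
      (‖x‖ ^ 2 * ‖(p.1 : E) - p.2‖ ^ 2 - ⟪x, (p.1 : E) - p.2⟫ ^ 2) *
        gam ε ‖x + ((p.1 : E) + p.2)‖ ∂(surf2 E) := by
  rcases eq_or_ne x 0 with rfl | hx
  · simp
  rcases eq_or_ne v 0 with rfl | hv
  · simp [Phi]
  have hxn : ‖x‖ ≠ 0 := norm_ne_zero_iff.2 hx
  have hvn : ‖v‖ ≠ 0 := norm_ne_zero_iff.2 hv
  set x' : E := ‖x‖⁻¹ • x with hx'
  set v' : E := ‖v‖⁻¹ • v with hv'
  have hx'n : ‖x'‖ = 1 := by
    rw [hx', norm_smul, norm_inv, norm_norm, inv_mul_cancel₀ hxn]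
  have hv'n : ‖v'‖ = 1 := by
    rw [hv', norm_smul, norm_inv, norm_norm, inv_mul_cancel₀ hvn]
  have hxx' : x = ‖x‖ • x' := by rw [hx', smul_smul, mul_inv_cancel₀ hxn, one_smul]
  have hvv' : v = ‖v‖ • v' := by rw [hv', smul_smul, mul_inv_cancel₀ hvn, one_smul]
  have hxv' : ⟪x, v'⟫ = 0 := by rw [hv', real_inner_smul_right, hxv, mul_zero]
  -- an adapted orthonormal basis
  have hon : Orthonormal ℝ (({0} : Set (Fin 8)).domRestrict (fun _ : Fin 8 => x')) := by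
    constructor
    · intro i
      simpa using hx'n
    · intro i j hij
      exact absurd (Subsingleton.elim i j) hij
  obtain ⟨b, hb⟩ := hon.exists_orthonormalBasis_extension_of_card_eq (by simpa using hd)
  have hb0 : b 0 = x' := hb 0 rfl
  have hbi : ∀ i : Fin 7, Phi ε x (b i.succ) = Phi ε x v' := by
    intro i
    apply Phi_unit ε (b.orthonormal.1 _) hv'n _ hxv'
    rw [hxx', real_inner_smul_left, ← hb0, b.orthonormal.2 (Fin.succ_ne_zero i).symm, mul_zero]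
  have hsum : ∑ i, Phi ε x (b i) = ∫ p : sphere (0 : E) 1 × sphere (0 : E) 1,
      ‖(p.1 : E) - p.2‖ ^ 2 * gam ε ‖x + ((p.1 : E) + p.2)‖ ∂(surf2 E) := by
    unfold Phi
    rw [← integral_finsetSum]
    · congr 1
      ext p
      rw [← Finset.sum_mul, b.sum_sq_inner_right]
    · intro i _
      apply integrable_surf2
      exact (Continuous.pow (by fun_prop) 2).mul (continuous_gk ε x)
  rw [Fin.sum_univ_succ] at hsum
  simp_rw [hbi] at hsum
  rw [Finset.sum_const, Finset.card_univ, Fintype.card_fin, nsmul_eq_mul, hb0] at hsum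
  have hsplit : ∫ p : sphere (0 : E) 1 × sphere (0 : E) 1,
      (‖x‖ ^ 2 * ‖(p.1 : E) - p.2‖ ^ 2 - ⟪x, (p.1 : E) - p.2⟫ ^ 2) *
        gam ε ‖x + ((p.1 : E) + p.2)‖ ∂(surf2 E) = ‖x‖ ^ 2 *
      (∫ p : sphere (0 : E) 1 × sphere (0 : E) 1,
      ‖(p.1 : E) - p.2‖ ^ 2 * gam ε ‖x + ((p.1 : E) + p.2)‖ ∂(surf2 E)) - Phi ε x x := by
    unfold Phi
    rw [← integral_const_mul, ← integral_sub]
    · congr 1
      ext p
      ring
    · apply integrable_surf2
      exact continuous_const.mul ((Continuous.pow (by fun_prop) 2).mul (continuous_gk ε x))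
    · apply integrable_surf2
      exact (Continuous.pow (by fun_prop) 2).mul (continuous_gk ε x)
  have h1 : Phi ε x x = ‖x‖ ^ 2 * Phi ε x x' := by
    have h := Phi_smul ε x x' ‖x‖
    rwa [← hxx'] at h
  have h2 : Phi ε x v = ‖v‖ ^ 2 * Phi ε x v' := by
    have h := Phi_smul ε x v' ‖v‖
    rwa [← hvv'] at h
  rw [hsplit, ← hsum, h1, h2]
  push_cast
  ring

/-- the reduced polynomial -/
def pbar (a : ℝ) : ℝ := a / 7 * (33 + 60 * a - 44 * a ^ 2)

theorem pbar_nonneg {a : ℝ} (h0 : 0 ≤ a) (h1 : a ≤ 1) : 0 ≤ pbar a := by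
  unfold pbar
  have : a ^ 2 ≤ 1 := pow_le_one₀ h0 h1
  have h2 : a ^ 2 ≤ a := by nlinarith
  have h3 : 0 ≤ 33 + 60 * a - 44 * a ^ 2 := by linarith
  positivity

/-- the reduced kernel -/
def Kk (E : Type*) [NormedAddCommGroup E] [InnerProductSpace ℝ E] [FiniteDimensional ℝ E]
    [MeasurableSpace E] [BorelSpace E] (ε : ℝ) (p q : E) : ℝ≥0∞ :=
  ∫⁻ α : sphere (0 : E) 1, ∫⁻ β : sphere (0 : E) 1,
    ENNReal.ofReal (P4 p q α β * gam ε ‖p + q + ((α : E) + β)‖) ∂(surf E) ∂(surf E)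

theorem lintegral_surf2 {F : sphere (0 : E) 1 × sphere (0 : E) 1 → ℝ} (hF : Continuous F)
    (h0 : ∀ p, 0 ≤ F p) :
    ∫⁻ α : sphere (0 : E) 1, ∫⁻ β : sphere (0 : E) 1, ENNReal.ofReal (F (α, β))
      ∂(surf E) ∂(surf E) = ENNReal.ofReal (∫ p, F p ∂(surf2 E)) := by
  rw [ofReal_integral_eq_lintegral_ofReal (integrable_surf2 hF) (Eventually.of_forall h0),
    lintegral_prod]
  exact (ENNReal.measurable_ofReal.comp hF.measurable).aemeasurable

theorem continuous_P4 (p q : E) : Continuous fun z : sphere (0 : E) 1 × sphere (0 : E) 1 =>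
    P4 p q (z.1 : E) z.2 := by
  unfold P4 psi aa
  fun_prop

theorem Kk_le (hd : Module.finrank ℝ E = 8) (ε : ℝ) {p q : E} (hp : ‖p‖ = 1) (hq : ‖q‖ = 1) :
    Kk E ε p q ≤ ENNReal.ofReal (pbar (‖p + q‖ ^ 2 / 4)) * Wk E ε (p + q) +
      ENNReal.ofReal 101 * Mk E ε (p + q) := by
  have hn : ∀ α : sphere (0 : E) 1, ‖(α : E)‖ = 1 := fun α => norm_eq_of_mem_sphere α
  set x := p + q with hx
  set v := p - q with hv
  have hg := continuous_gk ε x
  have hg0 : ∀ z : sphere (0 : E) 1 × sphere (0 : E) 1, 0 ≤ gam ε ‖x + ((z.1 : E) + z.2)‖ :=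
    fun z => gam_nonneg _ _
  have hW : Wk E ε x = ENNReal.ofReal (∫ z : sphere (0 : E) 1 × sphere (0 : E) 1,
      gam ε ‖x + ((z.1 : E) + z.2)‖ ∂(surf2 E)) := lintegral_surf2 hg hg0
  have hMc : Continuous fun z : sphere (0 : E) 1 × sphere (0 : E) 1 =>
      ‖x + ((z.1 : E) + z.2)‖ * gam ε ‖x + ((z.1 : E) + z.2)‖ :=
    Continuous.mul (by fun_prop) hg
  have hM : Mk E ε x = ENNReal.ofReal (∫ z : sphere (0 : E) 1 × sphere (0 : E) 1,
      ‖x + ((z.1 : E) + z.2)‖ * gam ε ‖x + ((z.1 : E) + z.2)‖ ∂(surf2 E)) :=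
    lintegral_surf2 hMc fun z => mul_nonneg (norm_nonneg _) (hg0 z)
  have hKc : Continuous fun z : sphere (0 : E) 1 × sphere (0 : E) 1 =>
      P4 p q z.1 z.2 * gam ε ‖x + ((z.1 : E) + z.2)‖ := (continuous_P4 p q).mul hg
  have hK : Kk E ε p q = ENNReal.ofReal (∫ z : sphere (0 : E) 1 × sphere (0 : E) 1,
      P4 p q z.1 z.2 * gam ε ‖x + ((z.1 : E) + z.2)‖ ∂(surf2 E)) :=
    lintegral_surf2 hKc fun z => mul_nonneg (P4_nonneg _ _ _ _) (hg0 z)
  set W := ∫ z : sphere (0 : E) 1 × sphere (0 : E) 1,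
      gam ε ‖x + ((z.1 : E) + z.2)‖ ∂(surf2 E) with hWdef
  set M := ∫ z : sphere (0 : E) 1 × sphere (0 : E) 1,
      ‖x + ((z.1 : E) + z.2)‖ * gam ε ‖x + ((z.1 : E) + z.2)‖ ∂(surf2 E) with hMdef
  have hW0 : 0 ≤ W := integral_nonneg hg0
  have hM0 : 0 ≤ M := integral_nonneg fun z => mul_nonneg (norm_nonneg _) (hg0 z)
  -- real inequality
  have hx4 : ‖x‖ ^ 2 ≤ 4 := norm_sq_le_four (norm_add_le_two hp hq)
  have hx0 : 0 ≤ ‖x‖ ^ 2 := by positivity
  have hvn : ‖v‖ ^ 2 = 4 - ‖x‖ ^ 2 := by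
    rw [hx, hv, norm_add_sq_real, norm_sub_sq_real, hp, hq]; ring
  have hxv : ⟪x, v⟫ = 0 := by
    rw [hx, hv, real_inner_add_sub_eq_zero_iff, hp, hq]
  have hPc : Continuous fun z : sphere (0 : E) 1 × sphere (0 : E) 1 =>
      ⟪v, (z.1 : E) - z.2⟫ ^ 2 * gam ε ‖x + ((z.1 : E) + z.2)‖ :=
    (Continuous.pow (by fun_prop) 2).mul hg
  set c₀ := ‖x‖ ^ 2 / 4 * (7 * (‖x‖ ^ 2 / 4) ^ 2 +
      18 * (‖x‖ ^ 2 / 4) * (1 - ‖x‖ ^ 2 / 4) + 5 * (1 - ‖x‖ ^ 2 / 4) ^ 2) with hc₀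
  have h1 : ∫ z : sphere (0 : E) 1 × sphere (0 : E) 1,
      P4 p q z.1 z.2 * gam ε ‖x + ((z.1 : E) + z.2)‖ ∂(surf2 E) ≤
      c₀ * W - ‖x‖ ^ 2 / 32 * Phi ε x v + 100 * M := by
    have h2 : c₀ * W - ‖x‖ ^ 2 / 32 * Phi ε x v + 100 * M =
        ∫ z : sphere (0 : E) 1 × sphere (0 : E) 1,
          (c₀ * gam ε ‖x + ((z.1 : E) + z.2)‖ - ‖x‖ ^ 2 / 32 * (⟪v, (z.1 : E) - z.2⟫ ^ 2 *
            gam ε ‖x + ((z.1 : E) + z.2)‖) + 100 * (‖x + ((z.1 : E) + z.2)‖ *
            gam ε ‖x + ((z.1 : E) + z.2)‖)) ∂(surf2 E) := by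
      rw [integral_add, integral_sub, integral_const_mul, integral_const_mul, integral_const_mul]
      · rfl
      · exact integrable_surf2 (continuous_const.mul hg)
      · exact integrable_surf2 (continuous_const.mul hPc)
      · exact integrable_surf2 ((continuous_const.mul hg).sub (continuous_const.mul hPc))
      · exact integrable_surf2 (continuous_const.mul hMc)
    rw [h2]
    apply integral_mono
    · exact integrable_surf2 hKc
    · exact integrable_surf2 (((continuous_const.mul hg).sub (continuous_const.mul hPc)).add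
        (continuous_const.mul hMc))
    · intro z
      have h3 := P4_le hp hq (hn z.1) (hn z.2)
      have h4 := mul_le_mul_of_nonneg_right h3 (hg0 z)
      refine h4.trans (le_of_eq ?_)
      ring
  have h5 : ‖v‖ ^ 2 / 7 * ((‖x‖ ^ 2 * ‖v‖ ^ 2) * W - 24 * M) ≤ ‖x‖ ^ 2 * Phi ε x v := by
    rw [isotropy hd ε hxv]
    apply mul_le_mul_of_nonneg_left _ (by positivity)
    have h6 : (‖x‖ ^ 2 * ‖v‖ ^ 2) * W - 24 * M =
        ∫ z : sphere (0 : E) 1 × sphere (0 : E) 1,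
          ((‖x‖ ^ 2 * ‖v‖ ^ 2) * gam ε ‖x + ((z.1 : E) + z.2)‖ -
            24 * (‖x + ((z.1 : E) + z.2)‖ *
            gam ε ‖x + ((z.1 : E) + z.2)‖)) ∂(surf2 E) := by
      rw [integral_sub, integral_const_mul, integral_const_mul]
      · exact integrable_surf2 (continuous_const.mul hg)
      · exact integrable_surf2 (continuous_const.mul hMc)
    rw [h6]
    apply integral_mono
    · exact integrable_surf2 ((continuous_const.mul hg).sub (continuous_const.mul hMc))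
    · apply integrable_surf2
      exact Continuous.mul (by fun_prop) hg
    · intro z
      have h3 := perp_ge hp hq (hn z.1) (hn z.2)
      rw [← hx, ← hvn] at h3
      have h4 := mul_le_mul_of_nonneg_right h3 (hg0 z)
      refine le_trans (le_of_eq ?_) h4
      ring
  have h7 : ∫ z : sphere (0 : E) 1 × sphere (0 : E) 1,
      P4 p q z.1 z.2 * gam ε ‖x + ((z.1 : E) + z.2)‖ ∂(surf2 E) ≤
      pbar (‖x‖ ^ 2 / 4) * W + 101 * M := by
    refine h1.trans ?_
    have h8 : pbar (‖x‖ ^ 2 / 4) * W = c₀ * W -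
        1 / 32 * (‖v‖ ^ 2 / 7 * ((‖x‖ ^ 2 * ‖v‖ ^ 2) * W)) := by
      rw [hc₀, hvn]
      unfold pbar
      ring
    have h9 : ‖v‖ ^ 2 / 7 * (24 * M) ≤ 32 * M := by
      have : ‖v‖ ^ 2 ≤ 4 := by linarith
      nlinarith
    have h10 : ‖v‖ ^ 2 / 7 * ((‖x‖ ^ 2 * ‖v‖ ^ 2) * W - 24 * M) =
      ‖v‖ ^ 2 / 7 * ((‖x‖ ^ 2 * ‖v‖ ^ 2) * W) - ‖v‖ ^ 2 / 7 * (24 * M) := by ring
    rw [h10] at h5
    rw [h8]
    linarith
  rw [hK, hW, hM, ← ENNReal.ofReal_mul, ← ENNReal.ofReal_mul (by norm_num),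
    ← ENNReal.ofReal_add]
  · exact ENNReal.ofReal_le_ofReal h7
  · have := pbar_nonneg (a := ‖x‖ ^ 2 / 4) (by positivity) (by linarith)
    positivity
  · positivity
  · exact pbar_nonneg (by positivity) (by linarith)

end Iso

end

end Pool.Agent.SharpS7
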