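import Pool.Agent.SharpS7.Conv

/-!
# The Gaussian kernel and the regularised convolution
-/

set_option linter.unusedSectionVars false

namespace Pool.Agent.SharpS7

open MeasureTheory Measure Metric Set Function Filter Topology Real
open scoped ENNReal RealInnerProductSpace Pointwise

noncomputable section

/-- the Gaussian profile -/
def gam (ε r : ℝ) : ℝ := (2 * π / ε) ^ 4 * Real.exp (-(r ^ 2 / (2 * ε)))

theorem gam_nonneg (ε r : ℝ) : 0 ≤ gam ε r := by
  unfold gam
  positivity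

theorem continuous_gam (ε : ℝ) : Continuous (gam ε) := by
  unfold gam
  fun_prop

theorem measurable_gam (ε : ℝ) : Measurable (gam ε) := (continuous_gam ε).measurable

theorem gam_neg (ε r : ℝ) : gam ε (-r) = gam ε r := by
  unfold gam
  rw [neg_sq]

theorem gam_le (ε r : ℝ) (hε : 0 < ε) : gam ε r ≤ (2 * π / ε) ^ 4 := by
  unfold gam
  have h1 : Real.exp (-(r ^ 2 / (2 * ε))) ≤ 1 := by
    rw [Real.exp_le_one_iff]
    have : 0 ≤ r ^ 2 / (2 * ε) := by positivity
    linarith
  have h2 : 0 ≤ (2 * π / ε) ^ 4 := by positivity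
  nlinarith

theorem gam_two (ε r : ℝ) (hε : 0 < ε) :
    gam ε r = 16 * Real.exp (-(r ^ 2 / (4 * ε))) * gam (2 * ε) r := by
  unfold gam
  have h1 : Real.exp (-(r ^ 2 / (2 * ε))) = Real.exp (-(r ^ 2 / (4 * ε))) *
      Real.exp (-(r ^ 2 / (2 * (2 * ε)))) := by
    rw [← Real.exp_add]
    congr 1
    field_simp
    ring
  rw [h1]
  field_simp
  norm_num

theorem gam_le_two {ε : ℝ} (hε : 0 < ε) (r : ℝ) : gam ε r ≤ 16 * gam (2 * ε) r := by
  rw [gam_two ε r hε]
  have h1 : Real.exp (-(r ^ 2 / (4 * ε))) ≤ 1 := by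
    rw [Real.exp_le_one_iff]
    have : 0 ≤ r ^ 2 / (4 * ε) := by positivity
    linarith
  have h2 := gam_nonneg (2 * ε) r
  nlinarith

theorem sq_mul_gam_le {ε : ℝ} (hε : 0 < ε) (r : ℝ) :
    r ^ 2 * gam ε r ≤ 64 * ε * gam (2 * ε) r := by
  rw [gam_two ε r hε]
  have h2 := gam_nonneg (2 * ε) r
  set u := r ^ 2 / (4 * ε) with hu
  have hr : r ^ 2 = 4 * ε * u := by
    rw [hu]; field_simp
  have h3 : u * Real.exp (-u) ≤ 1 := by
    have h4 := Real.add_one_le_exp u
    have h5 : Real.exp u * Real.exp (-u) = 1 := by rw [← Real.exp_add]; simp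
    have h6 := Real.exp_pos (-u)
    nlinarith
  rw [hr]
  have h7 : 4 * ε * u * (16 * Real.exp (-u) * gam (2 * ε) r) =
      (64 * ε * gam (2 * ε) r) * (u * Real.exp (-u)) := by ring
  rw [h7]
  have h8 : 0 ≤ 64 * ε * gam (2 * ε) r := by positivity
  nlinarith

theorem mul_gam_le {ε : ℝ} (hε : 0 < ε) (r : ℝ) :
    r * gam ε r ≤ 40 * √ε * gam (2 * ε) r := by
  have h1 := sq_mul_gam_le hε r
  have h2 := gam_le_two hε r
  have h3 := gam_nonneg (2 * ε) r
  have h4 := gam_nonneg ε r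
  have hs : 0 < √ε := Real.sqrt_pos.2 hε
  have hs2 : √ε ^ 2 = ε := Real.sq_sqrt hε.le
  -- `r ≤ (r²/√ε + √ε)/2`
  have h5 : √ε * r ≤ (r ^ 2 + ε) / 2 := by nlinarith [sq_nonneg (r - √ε)]
  have h6 : √ε * (r * gam ε r) ≤ √ε * (40 * √ε * gam (2 * ε) r) := by
    have h7 : √ε * (r * gam ε r) ≤ (r ^ 2 + ε) / 2 * gam ε r := by nlinarith
    have h8 : (r ^ 2 + ε) / 2 * gam ε r ≤ 40 * ε * gam (2 * ε) r := by nlinarith
    calc _ ≤ _ := h7
      _ ≤ _ := h8
      _ = _ := by rw [← hs2]; simp only [Real.sqrt_sq hs.le]; ring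
  exact le_of_mul_le_mul_left h6 hs

section K

variable {E : Type*} [NormedAddCommGroup E] [InnerProductSpace ℝ E] [FiniteDimensional ℝ E]
  [MeasurableSpace E] [BorelSpace E]

theorem integral_gam (hd : Module.finrank ℝ E = 8) {ε : ℝ} (hε : 0 < ε) :
    ∫ y : E, gam ε ‖y‖ = (2 * π) ^ 8 := by
  unfold gam
  rw [integral_const_mul]
  have h1 : ∀ y : E, Real.exp (-(‖y‖ ^ 2 / (2 * ε))) = Real.exp (-(1 / (2 * ε)) * ‖y‖ ^ 2) := by
    intro y
    congr 1
    ring
  simp_rw [h1]
  rw [GaussianFourier.integral_rexp_neg_mul_sq_norm (by positivity), hd]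
  have h2 : ((8 : ℕ) : ℝ) / 2 = ((4 : ℕ) : ℝ) := by norm_num
  rw [h2, Real.rpow_natCast]
  field_simp

theorem integrable_gam (hd : Module.finrank ℝ E = 8) {ε : ℝ} (hε : 0 < ε) :
    Integrable fun y : E => gam ε ‖y‖ := by
  apply Integrable.of_integral_ne_zero
  rw [integral_gam hd hε]
  positivity

theorem lintegral_gam (hd : Module.finrank ℝ E = 8) {ε : ℝ} (hε : 0 < ε) (x : E) :
    ∫⁻ y : E, ENNReal.ofReal (gam ε ‖x + y‖) = ENNReal.ofReal ((2 * π) ^ 8) := by
  rw [lintegral_add_left_eq_self (fun y => ENNReal.ofReal (gam ε ‖y‖)) x,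
    ← integral_gam hd hε, ofReal_integral_eq_lintegral_ofReal (integrable_gam hd hε)]
  exact Eventually.of_forall fun y => gam_nonneg _ _

theorem wt_le {r : ℝ} (hr : 0 < r) : wt r ≤ kap * r⁻¹ := by
  unfold wt
  have hk := kap_pos
  have hri : 0 < r⁻¹ := inv_pos.2 hr
  have h1 : (4 - r ^ 2) ^ 2 * √(4 - r ^ 2) ≤ 32 := by
    by_cases h : 4 - r ^ 2 ≤ 0
    · rw [Real.sqrt_eq_zero_of_nonpos h]; norm_num
    · push Not at h
      have h2 : √(4 - r ^ 2) ≤ 2 := by
        rw [Real.sqrt_le_left (by norm_num)]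
        nlinarith
      have h3 : (4 - r ^ 2) ^ 2 ≤ 16 := by nlinarith [sq_nonneg r]
      have h4 : 0 ≤ √(4 - r ^ 2) := Real.sqrt_nonneg _
      nlinarith [sq_nonneg (4 - r ^ 2)]
  have h5 : kap / 32 * r⁻¹ * ((4 - r ^ 2) ^ 2 * √(4 - r ^ 2)) ≤ kap / 32 * r⁻¹ * 32 := by
    apply mul_le_mul_of_nonneg_left h1
    positivity
  linarith

theorem sq_mul_wt_le {r : ℝ} (hr : 0 ≤ r) : r ^ 2 * wt r ≤ 2 * kap := by
  have hk := kap_pos
  rcases hr.eq_or_lt with rfl | hr
  · simp; positivity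
  by_cases h : 2 ≤ r
  · have : wt r = 0 := by
      unfold wt
      rw [Real.sqrt_eq_zero_of_nonpos (by nlinarith)]
      simp
    rw [this]; simp; positivity
  · push Not at h
    have h1 := wt_le hr
    have h2 : r ^ 2 * wt r ≤ r ^ 2 * (kap * r⁻¹) := mul_le_mul_of_nonneg_left h1 (sq_nonneg _)
    have h3 : r ^ 2 * (kap * r⁻¹) = kap * r := by field_simp
    nlinarith

theorem wt_two_le {r : ℝ} (hr : 2 ≤ r) : wt r = 0 := by
  unfold wt
  rw [Real.sqrt_eq_zero_of_nonpos (by nlinarith)]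
  simp

/-- regularised `σ * σ` at `-x` -/
def Wk (E : Type*) [NormedAddCommGroup E] [InnerProductSpace ℝ E] [FiniteDimensional ℝ E]
    [MeasurableSpace E] [BorelSpace E] (ε : ℝ) (x : E) : ℝ≥0∞ :=
  ∫⁻ α : sphere (0 : E) 1, ∫⁻ β : sphere (0 : E) 1,
    ENNReal.ofReal (gam ε ‖x + ((α : E) + β)‖) ∂(surf E) ∂(surf E)

theorem Wk_eq (hd : Module.finrank ℝ E = 8) (ε : ℝ) (x : E) :
    Wk E ε x = ∫⁻ y : E, ENNReal.ofReal (gam ε ‖x + y‖) * ENNReal.ofReal (wt ‖y‖) :=
  conv_eq hd (G := fun r => ENNReal.ofReal (gam ε r))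
    (ENNReal.measurable_ofReal.comp (measurable_gam ε)) x

/-- the constant in the uniform bound -/
def Cw (E : Type*) [NormedAddCommGroup E] [InnerProductSpace ℝ E] [FiniteDimensional ℝ E]
    [MeasurableSpace E] [BorelSpace E] : ℝ :=
  (2 * π) ^ 8 * kap + (2 * π) ^ 4 * kap * ((surf E).real univ / 7)

theorem Cw_pos : 0 < Cw E := by
  unfold Cw
  have := kap_pos
  positivity

theorem lintegral_inv_ball (hd : Module.finrank ℝ E = 8) {s : ℝ} (hs : 0 ≤ s) :
    ∫⁻ y : E, (Iio s).indicator 1 ‖y‖ * ENNReal.ofReal (‖y‖⁻¹) =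
      ENNReal.ofReal ((surf E).real univ / 7 * s ^ 7) := by
  have : Nontrivial E := Module.nontrivial_of_finrank_pos (R := ℝ) (by omega)
  have hm : Measurable fun y : E => (Iio s).indicator (1 : ℝ → ℝ≥0∞) ‖y‖ *
      ENNReal.ofReal (‖y‖⁻¹) := by
    apply Measurable.mul
    · exact (measurable_one.indicator measurableSet_Iio).comp measurable_norm
    · fun_prop
  rw [lintegral_polar hm, hd]
  have h3 : ∀ ω : sphere (0 : E) 1, ∫⁻ r in Ioi (0 : ℝ),
      ENNReal.ofReal (r ^ (8 - 1)) * ((Iio s).indicator 1 ‖r • (ω : E)‖ *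
        ENNReal.ofReal (‖r • (ω : E)‖⁻¹)) = ENNReal.ofReal (s ^ 7 / 7) := by
    intro ω
    have h4 := lintegral_pow_ind 6 hs
    norm_num at h4
    rw [← h4]
    apply setLIntegral_congr_fun measurableSet_Ioi
    intro r hr
    have hr : 0 < r := hr
    have hn : ‖r • (ω : E)‖ = r := by
      rw [norm_smul, norm_eq_of_mem_sphere, Real.norm_of_nonneg hr.le, mul_one]
    simp only [hn]
    rw [mul_left_comm, ← ENNReal.ofReal_mul (by positivity), mul_comm]
    congr 2
    field_simp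
  simp_rw [h3]
  rw [lintegral_const, ← ofReal_measureReal (measure_ne_top _ _),
    ← ENNReal.ofReal_mul (by positivity)]
  congr 1
  ring

theorem Wk_le (hd : Module.finrank ℝ E = 8) {ε : ℝ} (hε : 0 < ε) (x : E) :
    Wk E ε x ≤ ENNReal.ofReal (Cw E / √ε) := by
  have hk := kap_pos
  have hs : 0 < √ε := Real.sqrt_pos.2 hε
  have hs2 : √ε ^ 2 = ε := Real.sq_sqrt hε.le
  rw [Wk_eq hd]
  calc ∫⁻ y : E, ENNReal.ofReal (gam ε ‖x + y‖) * ENNReal.ofReal (wt ‖y‖)
      ≤ ∫⁻ y : E, (ENNReal.ofReal (gam ε ‖x + y‖) * ENNReal.ofReal (kap / √ε) +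
        ENNReal.ofReal ((2 * π / ε) ^ 4 * kap) * ((Iio √ε).indicator 1 ‖y‖ *
          ENNReal.ofReal (‖y‖⁻¹))) := by
        apply lintegral_mono
        intro y
        simp only
        by_cases hy : √ε ≤ ‖y‖
        · refine le_trans ?_ le_self_add
          apply mul_le_mul_right
          apply ENNReal.ofReal_le_ofReal
          refine (wt_le (hs.trans_le hy)).trans ?_
          rw [div_eq_mul_inv]
          apply mul_le_mul_of_nonneg_left _ hk.le
          exact inv_anti₀ hs hy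
        · refine le_trans ?_ le_add_self
          push Not at hy
          rw [indicator_of_mem (show ‖y‖ ∈ Iio √ε from hy), Pi.one_apply, one_mul,
            ← ENNReal.ofReal_mul (gam_nonneg _ _), ← ENNReal.ofReal_mul (by positivity)]
          apply ENNReal.ofReal_le_ofReal
          rw [mul_assoc]
          rcases (norm_nonneg y).eq_or_lt with h0 | h0
          · rw [← h0]
            simp [wt]
          · apply mul_le_mul (gam_le _ _ hε) (wt_le h0) (wt_nonneg h0.le) (by positivity)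
    _ = ENNReal.ofReal ((2 * π) ^ 8) * ENNReal.ofReal (kap / √ε) +
        ENNReal.ofReal ((2 * π / ε) ^ 4 * kap) *
          ENNReal.ofReal ((surf E).real univ / 7 * √ε ^ 7) := by
        rw [lintegral_add_left, lintegral_mul_const, lintegral_gam hd hε, lintegral_const_mul,
          lintegral_inv_ball hd hs.le]
        · apply Measurable.mul
          · exact (measurable_one.indicator measurableSet_Iio).comp measurable_norm
          · fun_prop
        · exact ENNReal.measurable_ofReal.comp ((measurable_gam ε).comp (by fun_prop))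
        · exact (ENNReal.measurable_ofReal.comp
            ((measurable_gam ε).comp (by fun_prop))).mul_const _
    _ = ENNReal.ofReal (Cw E / √ε) := by
        rw [← ENNReal.ofReal_mul (by positivity), ← ENNReal.ofReal_mul (by positivity),
          ← ENNReal.ofReal_add (by positivity) (by positivity)]
        congr 1
        unfold Cw
        have h8 : ε ^ 4 = √ε ^ 7 * √ε := by
          calc ε ^ 4 = (√ε ^ 2) ^ 4 := by rw [hs2]
            _ = _ := by ring
        rw [div_pow, h8]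
        field_simp

/-- first moment -/
def Mk (E : Type*) [NormedAddCommGroup E] [InnerProductSpace ℝ E] [FiniteDimensional ℝ E]
    [MeasurableSpace E] [BorelSpace E] (ε : ℝ) (x : E) : ℝ≥0∞ :=
  ∫⁻ α : sphere (0 : E) 1, ∫⁻ β : sphere (0 : E) 1,
    ENNReal.ofReal (‖x + ((α : E) + β)‖ * gam ε ‖x + ((α : E) + β)‖) ∂(surf E) ∂(surf E)

theorem measurable_gam_norm (ε : ℝ) (x : E) :
    Measurable fun p : sphere (0 : E) 1 × sphere (0 : E) 1 =>
      ENNReal.ofReal (gam ε ‖x + ((p.1 : E) + p.2)‖) :=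
  ENNReal.measurable_ofReal.comp ((measurable_gam ε).comp (by fun_prop))

theorem Mk_le {ε : ℝ} (hε : 0 < ε) (x : E) :
    Mk E ε x ≤ ENNReal.ofReal (40 * √ε) * Wk E (2 * ε) x := by
  unfold Mk Wk
  have hm := measurable_gam_norm (E := E) (2 * ε) x
  rw [← lintegral_const_mul _ hm.lintegral_prod_right']
  apply lintegral_mono
  intro α
  simp only
  rw [← lintegral_const_mul]
  · apply lintegral_mono
    intro β
    simp only
    rw [← ENNReal.ofReal_mul (by positivity)]
    exact ENNReal.ofReal_le_ofReal (mul_gam_le hε _)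
  · exact ENNReal.measurable_ofReal.comp ((measurable_gam _).comp (by fun_prop))

theorem sq_mul_Wk_le (hd : Module.finrank ℝ E = 8) {ε : ℝ} (hε : 0 < ε) (hε1 : ε ≤ 1) (x : E) :
    ENNReal.ofReal (‖x‖ ^ 2) * Wk E ε x ≤
      ENNReal.ofReal (4 * kap * (2 * π) ^ 8 + 128 * Cw E) := by
  have hk := kap_pos
  have hC := Cw_pos (E := E)
  have hm1 : ∀ δ : ℝ, Measurable fun y : E => ENNReal.ofReal (gam δ ‖x + y‖) := fun δ =>
    ENNReal.measurable_ofReal.comp ((measurable_gam δ).comp (by fun_prop))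
  have hm2 : Measurable fun y : E => ENNReal.ofReal (wt ‖y‖) :=
    ENNReal.measurable_ofReal.comp (measurable_wt.comp measurable_norm)
  have hm3 : ∀ δ : ℝ, Measurable fun y : E => ENNReal.ofReal (gam δ ‖x + y‖) *
      ENNReal.ofReal (wt ‖y‖) := fun δ => (hm1 δ).mul hm2
  rw [Wk_eq hd, ← lintegral_const_mul _ (hm3 ε)]
  calc ∫⁻ y : E, ENNReal.ofReal (‖x‖ ^ 2) *
        (ENNReal.ofReal (gam ε ‖x + y‖) * ENNReal.ofReal (wt ‖y‖))
      ≤ ∫⁻ y : E, (ENNReal.ofReal (4 * kap) * ENNReal.ofReal (gam ε ‖x + y‖) +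
        ENNReal.ofReal (128 * ε) *
          (ENNReal.ofReal (gam (2 * ε) ‖x + y‖) * ENNReal.ofReal (wt ‖y‖))) := by
        apply lintegral_mono
        intro y
        simp only
        have hg := gam_nonneg ε ‖x + y‖
        have hg2 := gam_nonneg (2 * ε) ‖x + y‖
        have hw := wt_nonneg (norm_nonneg y)
        rw [← ENNReal.ofReal_mul hg, ← ENNReal.ofReal_mul (by positivity),
          ← ENNReal.ofReal_mul hg2, ← ENNReal.ofReal_mul (by positivity),
          ← ENNReal.ofReal_mul (by positivity), ← ENNReal.ofReal_add (by positivity)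
            (by positivity)]
        apply ENNReal.ofReal_le_ofReal
        have h1 : ‖x‖ ^ 2 ≤ 2 * ‖y‖ ^ 2 + 2 * ‖x + y‖ ^ 2 := by
          have h2 : ‖x‖ ≤ ‖x + y‖ + ‖y‖ := by
            have := norm_sub_le (x + y) y
            simpa using this
          nlinarith [sq_nonneg (‖x + y‖ - ‖y‖), norm_nonneg x, norm_nonneg y,
            norm_nonneg (x + y)]
        have h3 := sq_mul_wt_le (norm_nonneg y)
        have h4 := sq_mul_gam_le hε ‖x + y‖
        calc ‖x‖ ^ 2 * (gam ε ‖x + y‖ * wt ‖y‖)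
            ≤ (2 * ‖y‖ ^ 2 + 2 * ‖x + y‖ ^ 2) * (gam ε ‖x + y‖ * wt ‖y‖) := by
              apply mul_le_mul_of_nonneg_right h1 (by positivity)
          _ = 2 * (‖y‖ ^ 2 * wt ‖y‖) * gam ε ‖x + y‖ +
              2 * (‖x + y‖ ^ 2 * gam ε ‖x + y‖) * wt ‖y‖ := by ring
          _ ≤ 2 * (2 * kap) * gam ε ‖x + y‖ +
              2 * (64 * ε * gam (2 * ε) ‖x + y‖) * wt ‖y‖ := by
              gcongr
          _ = _ := by ring
    _ = ENNReal.ofReal (4 * kap) * ENNReal.ofReal ((2 * π) ^ 8) +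
        ENNReal.ofReal (128 * ε) * Wk E (2 * ε) x := by
        rw [lintegral_add_left ((hm1 ε).const_mul _), lintegral_const_mul _ (hm1 ε),
          lintegral_gam hd hε, lintegral_const_mul _ (hm3 _), ← Wk_eq hd]
    _ ≤ ENNReal.ofReal (4 * kap) * ENNReal.ofReal ((2 * π) ^ 8) +
        ENNReal.ofReal (128 * ε) * ENNReal.ofReal (Cw E / √(2 * ε)) := by
        gcongr
        exact Wk_le hd (by positivity) x
    _ ≤ _ := by
        rw [← ENNReal.ofReal_mul (by positivity), ← ENNReal.ofReal_mul (by positivity),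
          ← ENNReal.ofReal_add (by positivity) (by positivity)]
        apply ENNReal.ofReal_le_ofReal
        have h5 : ε ≤ √(2 * ε) := by
          apply Real.le_sqrt_of_sq_le
          nlinarith
        have h6 : 0 < √(2 * ε) := Real.sqrt_pos.2 (by positivity)
        have h7 : 128 * ε * (Cw E / √(2 * ε)) ≤ 128 * Cw E := by
          rw [← mul_div_assoc, div_le_iff₀ h6]
          nlinarith [mul_le_mul_of_nonneg_left h5 hC.le]
        linarith

theorem integrable_wt (hd : Module.finrank ℝ E = 8) : Integrable fun y : E => wt ‖y‖ := by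
  refine ⟨(measurable_wt.comp measurable_norm).aestronglyMeasurable, ?_⟩
  rw [hasFiniteIntegral_iff_ofReal (Eventually.of_forall fun y => wt_nonneg (norm_nonneg y))]
  have h := radial (E := E) hd (b := fun _ => 1) measurable_const
  simp only [one_mul] at h
  rw [← h, lintegral_const, lintegral_const]
  exact ENNReal.mul_lt_top (ENNReal.mul_lt_top ENNReal.one_lt_top (measure_lt_top _ _))
    (measure_lt_top _ _)

theorem continuousAt_wt {r : ℝ} (hr : r ≠ 0) : ContinuousAt wt r := by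
  unfold wt
  apply ContinuousAt.mul
  · apply ContinuousAt.mul continuousAt_const
    exact continuousAt_inv₀ hr
  · fun_prop

/-- the sequence of scales -/
def eps (n : ℕ) : ℝ := (((n : ℝ) + 1) ^ 2)⁻¹

theorem eps_pos (n : ℕ) : 0 < eps n := by
  unfold eps
  positivity

theorem eps_le_one (n : ℕ) : eps n ≤ 1 := by
  unfold eps
  apply inv_le_one_of_one_le₀
  have : (0 : ℝ) ≤ n := Nat.cast_nonneg n
  nlinarith

theorem tendsto_Wk_aux (hd : Module.finrank ℝ E = 8) {x : E} (hx : x ≠ 0) {a : ℝ} (ha : 0 < a) :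
    Tendsto (fun n : ℕ => Wk E (a * eps n) x) atTop (𝓝 (ENNReal.ofReal ((2 * π) ^ 8 * wt ‖x‖))) := by
  set φ : E → ℝ := fun z => ((2 * π) ^ 4)⁻¹ * Real.exp (-(‖z‖ ^ 2 / 2)) with hφ
  have hφ0 : ∀ z, 0 ≤ φ z := fun z => by simp only [hφ]; positivity
  have hφ1 : ∫ z, φ z = 1 := by
    have h := integral_gam (E := E) hd (zero_lt_one (α := ℝ))
    unfold gam at h
    rw [integral_const_mul] at h
    simp only [hφ]
    rw [integral_const_mul]
    have h2 : ∫ y : E, Real.exp (-(‖y‖ ^ 2 / 2)) = (2 * π) ^ 4 := by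
      have h3 : (2 * π / 1) ^ 4 * ∫ y : E, Real.exp (-(‖y‖ ^ 2 / (2 * 1))) =
        (2 * π) ^ 4 * (2 * π) ^ 4 := by rw [h]; ring
      have h4 : (2 * π / 1) ^ 4 ≠ 0 := by positivity
      rw [div_one] at h3 h4
      have h5 := mul_left_cancel₀ h4 h3
      rw [← h5]
      simp
    rw [h2]
    field_simp
  have hφ2 : Tendsto (fun z : E => ‖z‖ ^ Module.finrank ℝ E * φ z) (Bornology.cobounded E)
      (𝓝 0) := by
    have h1 : Tendsto (fun r : ℝ => r ^ 8 * (((2 * π) ^ 4)⁻¹ * Real.exp (-(r ^ 2 / 2)))) atTop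
        (𝓝 0) := by
      have h2 := (Real.tendsto_pow_mul_exp_neg_atTop_nhds_zero 4).comp
        (f := fun r : ℝ => r ^ 2 / 2) (x := atTop) ((tendsto_pow_atTop
          (by norm_num : (2 : ℕ) ≠ 0)).atTop_div_const (by norm_num))
      have h3 := h2.const_mul (16 * ((2 * π) ^ 4)⁻¹)
      rw [mul_zero] at h3
      refine h3.congr fun r => ?_
      simp only [comp_apply]
      ring
    have h4 := h1.comp (tendsto_norm_cobounded_atTop (E := E))
    rw [hd]
    exact h4
  have hg := integrable_wt (E := E) hd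
  have hgc : ContinuousAt (fun y : E => wt ‖y‖) (-x) := by
    apply ContinuousAt.comp (g := wt)
    · apply continuousAt_wt
      rw [norm_ne_zero_iff]
      simpa using hx
    · exact continuous_norm.continuousAt
  have key := tendsto_integral_comp_smul_smul_of_integrable' (μ := volume) hφ0 hφ1 hφ2 hg hgc
  have hc : Tendsto (fun n : ℕ => (√a)⁻¹ * ((n : ℝ) + 1)) atTop atTop := by
    apply Tendsto.const_mul_atTop (by positivity)
    exact tendsto_atTop_add_const_right _ _ tendsto_natCast_atTop_atTop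
  have key2 := (key.comp hc).const_mul ((2 * π) ^ 8)
  simp only [norm_neg] at key2
  have key3 := ENNReal.tendsto_ofReal key2
  refine key3.congr fun n => ?_
  rw [Wk_eq hd]
  have hε : 0 < a * eps n := mul_pos ha (eps_pos n)
  have hn : (0 : ℝ) < (n : ℝ) + 1 := by positivity
  have hsa : 0 < √a := Real.sqrt_pos.2 ha
  have hsa2 : √a ^ 2 = a := Real.sq_sqrt ha.le
  have e1 : ∀ y : E, gam (a * eps n) ‖x + y‖ = (2 * π) ^ 8 *
      (((√a)⁻¹ * ((n : ℝ) + 1)) ^ 8 * φ (((√a)⁻¹ * ((n : ℝ) + 1)) • (-x - y))) := by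
    intro y
    simp only [hφ]
    unfold gam eps
    rw [norm_smul, Real.norm_of_nonneg (by positivity)]
    have h1 : ‖-x - y‖ = ‖x + y‖ := by
      rw [← norm_neg]; congr 1; abel
    rw [h1]
    have h2 : ((√a)⁻¹ * ((n : ℝ) + 1) * ‖x + y‖) ^ 2 / 2 =
        ‖x + y‖ ^ 2 / (2 * (a * (((n : ℝ) + 1) ^ 2)⁻¹)) := by
      rw [mul_pow, mul_pow, inv_pow, hsa2]
      field_simp
    rw [h2]
    have h3 : ((√a)⁻¹ * ((n : ℝ) + 1)) ^ 8 = (a⁻¹ * ((n : ℝ) + 1) ^ 2) ^ 4 := by
      calc ((√a)⁻¹ * ((n : ℝ) + 1)) ^ 8 = ((√a ^ 2)⁻¹ * ((n : ℝ) + 1) ^ 2) ^ 4 := by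
            field_simp
        _ = _ := by rw [hsa2]
    rw [h3]
    field_simp
  have e2 : ∀ y : E, ENNReal.ofReal (gam (a * eps n) ‖x + y‖) * ENNReal.ofReal (wt ‖y‖) =
      ENNReal.ofReal ((2 * π) ^ 8 * ((((√a)⁻¹ * ((n : ℝ) + 1)) ^ 8 *
        φ (((√a)⁻¹ * ((n : ℝ) + 1)) • (-x - y))) * wt ‖y‖)) := by
    intro y
    rw [← ENNReal.ofReal_mul (gam_nonneg _ _), e1]
    congr 1
    ring
  simp_rw [e2]
  rw [← ofReal_integral_eq_lintegral_ofReal]
  · simp only [comp_apply, smul_eq_mul, hd]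
    rw [integral_const_mul]
  · apply Integrable.const_mul
    have h3 : Integrable fun y : E => (((2 * π) ^ 8)⁻¹ * gam (a * eps n) ‖x + y‖) * wt ‖y‖ := by
      apply hg.bdd_mul (c := ((2 * π) ^ 8)⁻¹ * (2 * π / (a * eps n)) ^ 4)
      · apply Continuous.aestronglyMeasurable
        exact continuous_const.mul ((continuous_gam _).comp (by fun_prop))
      · apply Eventually.of_forall
        intro y
        rw [Real.norm_of_nonneg (by have := gam_nonneg (a * eps n) ‖x + y‖; positivity)]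
        apply mul_le_mul_of_nonneg_left (gam_le _ _ hε) (by positivity)
    refine h3.congr (Eventually.of_forall fun y => ?_)
    simp only
    rw [e1, inv_mul_cancel_left₀ (by positivity)]
  · apply Eventually.of_forall
    intro y
    have := hφ0 (((√a)⁻¹ * ((n : ℝ) + 1)) • (-x - y))
    have := wt_nonneg (norm_nonneg y)
    positivity

end K

end

end Pool.Agent.SharpS7
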