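import Pool.Agent.SharpS7.Positive

/-!
# The reduced kernel in terms of `t = a · b`, and a polynomial identity
-/

set_option linter.unusedSectionVars false

namespace Pool.Agent.SharpS7

open MeasureTheory Measure Metric Set Function Filter Topology Real
open scoped ENNReal RealInnerProductSpace Pointwise

noncomputable section

/-- the polynomial `(1-t)^5 (1+t)^2` -/
def pA (t : ℝ) : ℝ := (1 - t) ^ 5 * (1 + t) ^ 2

/-- the polynomial `(1-t)^5 (1+t)^3 (52 + 8 t - 11 t²) / 14` -/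
def pB (t : ℝ) : ℝ := (1 - t) ^ 5 * (1 + t) ^ 3 * (52 + 8 * t - 11 * t ^ 2) / 14

theorem pAB : 3 * ∫ t in (-1 : ℝ)..1, pB t = 7 * ∫ t in (-1 : ℝ)..1, pA t := by
  have hA : Continuous pA := by unfold pA; fun_prop
  have hB : Continuous pB := by unfold pB; fun_prop
  have h : ∫ t in (-1 : ℝ)..1, (3 * pB t - 7 * pA t) = 0 := by
    have hF : ∀ t ∈ uIcc (-1 : ℝ) 1, HasDerivAt
        (fun t : ℝ => (1 - t) ^ 6 * (1 + t) ^ 3 * (3 / 14 * t ^ 2 - 29 / 21))
        (3 * pB t - 7 * pA t) t := by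
      intro t _
      have h1 : HasDerivAt (fun t : ℝ => (1 - t) ^ 6) (((6 : ℕ) : ℝ) * (1 - t) ^ (6 - 1) * (-1)) t :=
        ((hasDerivAt_id t).const_sub 1).pow 6
      have h2 : HasDerivAt (fun t : ℝ => (1 + t) ^ 3) (((3 : ℕ) : ℝ) * (1 + t) ^ (3 - 1) * 1) t :=
        ((hasDerivAt_id t).const_add 1).pow 3
      have h3 : HasDerivAt (fun t : ℝ => 3 / 14 * t ^ 2 - 29 / 21)
          (3 / 14 * (((2 : ℕ) : ℝ) * t ^ (2 - 1))) t :=
        ((hasDerivAt_pow 2 t).const_mul (3 / 14)).sub_const _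
      refine ((h1.mul h2).mul h3).congr_deriv ?_
      unfold pA pB
      norm_num
      ring
    rw [intervalIntegral.integral_eq_sub_of_hasDerivAt hF]
    · norm_num
    · exact (Continuous.intervalIntegrable (by fun_prop) _ _)
  rw [intervalIntegral.integral_sub, intervalIntegral.integral_const_mul,
    intervalIntegral.integral_const_mul] at h
  · linarith
  · exact (Continuous.intervalIntegrable (by fun_prop) _ _)
  · exact (Continuous.intervalIntegrable (by fun_prop) _ _)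

theorem lint_poly {p : ℝ → ℝ} (hp : Continuous p) (h0 : ∀ t ∈ Ioo (-1 : ℝ) 1, 0 ≤ p t) :
    ∫⁻ t in Ioo (-1 : ℝ) 1, ENNReal.ofReal (p t) = ENNReal.ofReal (∫ t in (-1 : ℝ)..1, p t) := by
  rw [intervalIntegral.integral_of_le (by norm_num), integral_Ioc_eq_integral_Ioo,
    ofReal_integral_eq_lintegral_ofReal]
  · exact (hp.integrableOn_Icc (a := -1) (b := 1)).mono_set Ioo_subset_Icc_self
  · filter_upwards [ae_restrict_mem measurableSet_Ioo] with t ht
    exact h0 t ht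

theorem wt_sl {t : ℝ} (ht : t ∈ Ioo (-1 : ℝ) 1) :
    wt (√(2 + 2 * t)) * ((1 - t ^ 2) ^ 2 * √(1 - t ^ 2)) = kap / 8 * pA t := by
  have h1 : 0 < 1 + t := by linarith [ht.1]
  have h2 : 0 < 1 - t := by linarith [ht.2]
  have e1 : √(2 + 2 * t) ^ 2 = 2 + 2 * t := Real.sq_sqrt (by linarith)
  have e2 : √(4 - √(2 + 2 * t) ^ 2) = √2 * √(1 - t) := by
    rw [e1, ← Real.sqrt_mul (by norm_num)]
    congr 1
    ring
  have e3 : √(2 + 2 * t) = √2 * √(1 + t) := by
    rw [← Real.sqrt_mul (by norm_num)]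
    congr 1
    ring
  have e4 : √(1 - t ^ 2) = √(1 + t) * √(1 - t) := by
    rw [← Real.sqrt_mul h1.le]
    congr 1
    ring
  have hs2 : √2 ^ 2 = (2 : ℝ) := Real.sq_sqrt (by norm_num)
  have hsp : √(1 + t) ^ 2 = 1 + t := Real.sq_sqrt h1.le
  have hsm : √(1 - t) ^ 2 = 1 - t := Real.sq_sqrt h2.le
  have p1 : 0 < √(1 + t) := Real.sqrt_pos.2 h1
  have p2 : 0 < √2 := Real.sqrt_pos.2 (by norm_num)
  unfold wt pA
  rw [e2, e1, e3, e4]
  have e5 : (4 - (2 + 2 * t)) ^ 2 = 4 * (1 - t) ^ 2 := by ring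
  have e6 : (1 - t ^ 2) ^ 2 = (1 - t) ^ 2 * (1 + t) ^ 2 := by ring
  rw [e5, e6]
  have e7 : kap / 32 * (√2 * √(1 + t))⁻¹ * (4 * (1 - t) ^ 2 * (√2 * √(1 - t))) *
      ((1 - t) ^ 2 * (1 + t) ^ 2 * (√(1 + t) * √(1 - t))) =
      kap / 8 * ((1 - t) ^ 4 * √(1 - t) ^ 2 * (1 + t) ^ 2) := by
    field_simp
    ring
  rw [e7, hsm]
  ring

theorem pbar_half (t : ℝ) : pbar ((1 + t) / 2) = (1 + t) * (52 + 8 * t - 11 * t ^ 2) / 14 := by
  unfold pbar
  ring

theorem one_d {φ : ℝ → ℝ} (hφ : ∀ t ∈ Ioo (-1 : ℝ) 1, 0 ≤ φ t) {p : ℝ → ℝ} (hp : Continuous p)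
    (h : ∀ t ∈ Ioo (-1 : ℝ) 1, φ t * wt (√(2 + 2 * t)) * ((1 - t ^ 2) ^ 2 * √(1 - t ^ 2)) = p t) :
    ∫⁻ t, ENNReal.ofReal (φ t * wt (√(2 + 2 * t))) *
      ENNReal.ofReal ((1 - t ^ 2) ^ 2 * √(1 - t ^ 2)) =
      ENNReal.ofReal (∫ t in (-1 : ℝ)..1, p t) := by
  have hw : ∀ t, 0 ≤ wt (√(2 + 2 * t)) := fun t => wt_nonneg (Real.sqrt_nonneg _)
  rw [← lint_poly hp, ← lintegral_indicator measurableSet_Ioo]
  · apply lintegral_congr
    intro t
    by_cases ht : t ∈ Ioo (-1 : ℝ) 1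
    · rw [indicator_of_mem ht, ← ENNReal.ofReal_mul (mul_nonneg (hφ t ht) (hw t)), h t ht]
    · rw [indicator_of_notMem ht]
      have h0 : √(1 - t ^ 2) = 0 := by
        apply Real.sqrt_eq_zero_of_nonpos
        rw [mem_Ioo, not_and_or, not_lt, not_lt] at ht
        rcases ht with ht | ht <;> nlinarith
      simp [h0]
  · intro t ht
    rw [← h t ht]
    have := hw t
    have := hφ t ht
    positivity

section R

variable {E : Type*} [NormedAddCommGroup E] [InnerProductSpace ℝ E] [FiniteDimensional ℝ E]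
  [MeasurableSpace E] [BorelSpace E]

/-- zonal double integrals -/
theorem zonal (hd : Module.finrank ℝ E = 8) {ψ : ℝ → ℝ≥0∞} (hψ : Measurable ψ) :
    ∫⁻ a : sphere (0 : E) 1, ∫⁻ b : sphere (0 : E) 1, ψ ⟪(a : E), (b : E)⟫
      ∂(surf E) ∂(surf E) = surf E univ * (surf E7 univ *
        ∫⁻ t, ψ t * ENNReal.ofReal ((1 - t ^ 2) ^ 2 * √(1 - t ^ 2))) := by
  have h : ∀ a : sphere (0 : E) 1, ∫⁻ b : sphere (0 : E) 1, ψ ⟪(a : E), (b : E)⟫ ∂(surf E) =
      surf E7 univ * ∫⁻ t, ψ t * ENNReal.ofReal ((1 - t ^ 2) ^ 2 * √(1 - t ^ 2)) := by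
    intro a
    rw [← slice hd (norm_eq_of_mem_sphere a) hψ]
    simp_rw [real_inner_comm]
  simp_rw [h]
  rw [lintegral_const, mul_comm]

theorem norm_add_eq (a b : sphere (0 : E) 1) :
    ‖(a : E) + b‖ = √(2 + 2 * ⟪(a : E), (b : E)⟫) := by
  rw [norm_add_sphere, real_inner_comm]

theorem norm_add_sq_eq (a b : sphere (0 : E) 1) :
    ‖(a : E) + b‖ ^ 2 / 4 = (1 + ⟪(a : E), (b : E)⟫) / 2 := by
  rw [norm_add_eq, Real.sq_sqrt]
  · ring
  · have := (inner_mem_Icc a b).1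
    linarith

/-- the two sides agree at `f = 1` -/
theorem at_one (hd : Module.finrank ℝ E = 8) :
    3 * ∫⁻ a : sphere (0 : E) 1, ∫⁻ b : sphere (0 : E) 1,
      ENNReal.ofReal (pbar (‖(a : E) + b‖ ^ 2 / 4) * wt ‖(a : E) + b‖) ∂(surf E) ∂(surf E) =
    7 * ∫⁻ a : sphere (0 : E) 1, ∫⁻ b : sphere (0 : E) 1,
      ENNReal.ofReal (wt ‖(a : E) + b‖) ∂(surf E) ∂(surf E) := by
  have hk := kap_pos
  simp_rw [norm_add_sq_eq, norm_add_eq]
  have hwm : Measurable fun t : ℝ => wt (√(2 + 2 * t)) := measurable_wt.comp (by fun_prop)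
  rw [zonal hd (ψ := fun t => ENNReal.ofReal (pbar ((1 + t) / 2) * wt (√(2 + 2 * t)))),
    zonal hd (ψ := fun t => ENNReal.ofReal (wt (√(2 + 2 * t))))]
  · have hB : Continuous fun t => kap / 8 * pB t := by unfold pB; fun_prop
    have hA : Continuous fun t => kap / 8 * pA t := by unfold pA; fun_prop
    rw [one_d (φ := fun t => pbar ((1 + t) / 2)) _ hB]
    · have h1 := one_d (φ := fun _ => 1) (by simp) hA (by
        intro t ht
        rw [one_mul, wt_sl ht])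
      simp only [one_mul] at h1
      rw [h1, intervalIntegral.integral_const_mul, intervalIntegral.integral_const_mul]
      have h2 := pAB
      rw [mul_left_comm 3, mul_left_comm 3, mul_left_comm 7, mul_left_comm 7]
      congr 2
      have e3 : (3 : ℝ≥0∞) = ENNReal.ofReal 3 := by norm_num
      have e7 : (7 : ℝ≥0∞) = ENNReal.ofReal 7 := by norm_num
      rw [e3, e7, ← ENNReal.ofReal_mul (by norm_num), ← ENNReal.ofReal_mul (by norm_num)]
      congr 1
      linear_combination kap / 8 * h2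
    · intro t ht
      rw [mul_assoc, wt_sl ht, pbar_half]
      unfold pA pB
      ring
    · intro t ht
      exact pbar_nonneg (by linarith [ht.1]) (by linarith [ht.2])
  · exact ENNReal.measurable_ofReal.comp hwm
  · apply ENNReal.measurable_ofReal.comp
    apply Measurable.mul _ hwm
    unfold pbar
    fun_prop

/-- the reduced kernel as a function of `t` -/
theorem kernel_t {t : ℝ} (ht : t ∈ Icc (-1 : ℝ) 1) :
    pbar ((1 + t) / 2) * wt (√(2 + 2 * t)) =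
      kap / 112 * (ke t + √(1 - t ^ 2) * (-96 * t + 30 * t ^ 3)) := by
  rcases ht.1.eq_or_lt with h | h
  · rw [← h]
    unfold ke wt
    norm_num
  have h1 : 0 < 1 + t := by linarith
  have h2 : 0 ≤ 1 - t := by linarith [ht.2]
  have e1 : √(2 + 2 * t) ^ 2 = 2 + 2 * t := Real.sq_sqrt (by linarith)
  have e2 : √(4 - √(2 + 2 * t) ^ 2) = √2 * √(1 - t) := by
    rw [e1, ← Real.sqrt_mul (by norm_num)]
    congr 1
    ring
  have e3 : √(2 + 2 * t) = √2 * √(1 + t) := by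
    rw [← Real.sqrt_mul (by norm_num)]
    congr 1
    ring
  have e4 : √(1 - t ^ 2) = √(1 + t) * √(1 - t) := by
    rw [← Real.sqrt_mul h1.le]
    congr 1
    ring
  have hsp : √(1 + t) ^ 2 = 1 + t := Real.sq_sqrt h1.le
  have p1 : 0 < √(1 + t) := Real.sqrt_pos.2 h1
  have p2 : 0 < √2 := Real.sqrt_pos.2 (by norm_num)
  rw [pbar_half]
  unfold ke wt
  rw [e2, e1, e3, e4]
  have e8 : (1 + t) * (52 + 8 * t - 11 * t ^ 2) / 14 *
      (kap / 32 * (√2 * √(1 + t))⁻¹ * ((4 - (2 + 2 * t)) ^ 2 * (√2 * √(1 - t)))) =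
      √(1 + t) ^ 2 * (52 + 8 * t - 11 * t ^ 2) / 14 *
      (kap / 32 * (√2 * √(1 + t))⁻¹ * ((4 - (2 + 2 * t)) ^ 2 * (√2 * √(1 - t)))) := by
    rw [hsp]
  rw [e8]
  field_simp
  ring

theorem Qf_odd {g : sphere (0 : E) 1 → ℝ} (hg : Integrable g (surf E))
    (hge : ∀ ω, g (-ω) = g ω) : Qf g (fun t => √(1 - t ^ 2) * (-96 * t + 30 * t ^ 3)) = 0 := by
  set φ : ℝ → ℝ := fun t => √(1 - t ^ 2) * (-96 * t + 30 * t ^ 3) with hφ
  have hφc : Continuous φ := by simp only [hφ]; fun_prop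
  have hodd : ∀ t, φ (-t) = -φ t := by
    intro t
    simp only [hφ, neg_sq]
    ring
  have hT : MeasurePreserving (Prod.map (fun ω : sphere (0 : E) 1 => -ω)
      (fun ω : sphere (0 : E) 1 => ω)) (surf2 E) (surf2 E) :=
    (measurePreserving_neg_surf (E := E)).prod (MeasurePreserving.id (surf E))
  have h1 : Qf g φ = - Qf g φ := by
    have hint := integrable_Qf hg hφc
    have h2 : Qf g φ = ∫ p : sphere (0 : E) 1 × sphere (0 : E) 1,
        φ ⟪((-p.1 : sphere (0 : E) 1) : E), (p.2 : E)⟫ * (g (-p.1) * g p.2) ∂(surf2 E) := by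
      unfold Qf
      conv_lhs => rw [← hT.map_eq]
      rw [integral_map hT.measurable.aemeasurable]
      · rfl
      · rw [hT.map_eq]
        exact hint.aestronglyMeasurable
    refine h2.trans ?_
    unfold Qf
    rw [← integral_neg]
    congr 1
    ext p
    rw [coe_neg_sphere, inner_neg_left, hodd, hge]
    ring
  linarith

/-- the reduced form in terms of the even kernel -/
theorem reduced (g : sphere (0 : E) 1 → ℝ) (hg : Integrable g (surf E))
    (g0 : ∀ ω, 0 ≤ g ω) (hge : ∀ ω, g (-ω) = g ω) :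
    ∫⁻ p : sphere (0 : E) 1 × sphere (0 : E) 1, ENNReal.ofReal (g p.1 * g p.2) *
      ENNReal.ofReal (pbar (‖(p.1 : E) + p.2‖ ^ 2 / 4) * wt ‖(p.1 : E) + p.2‖) ∂(surf2 E) =
      ENNReal.ofReal (kap / 112 * Qf g ke) := by
  have hk := kap_pos
  have hp0 : ∀ p : sphere (0 : E) 1 × sphere (0 : E) 1,
      0 ≤ pbar ((1 + ⟪(p.1 : E), (p.2 : E)⟫) / 2) * wt (√(2 + 2 * ⟪(p.1 : E), (p.2 : E)⟫)) := by
    intro p
    have h := inner_mem_Icc p.1 p.2
    exact mul_nonneg (pbar_nonneg (by linarith [h.1]) (by linarith [h.2]))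
      (wt_nonneg (Real.sqrt_nonneg _))
  set φ : ℝ → ℝ := fun t => √(1 - t ^ 2) * (-96 * t + 30 * t ^ 3) with hφ
  have hφc : Continuous φ := by simp only [hφ]; fun_prop
  have h1 : ∀ p : sphere (0 : E) 1 × sphere (0 : E) 1, ENNReal.ofReal (g p.1 * g p.2) *
      ENNReal.ofReal (pbar (‖(p.1 : E) + p.2‖ ^ 2 / 4) * wt ‖(p.1 : E) + p.2‖) =
      ENNReal.ofReal (kap / 112 * (ke ⟪(p.1 : E), (p.2 : E)⟫ * (g p.1 * g p.2)) +
        kap / 112 * (φ ⟪(p.1 : E), (p.2 : E)⟫ * (g p.1 * g p.2))) := by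
    intro p
    rw [← ENNReal.ofReal_mul (mul_nonneg (g0 _) (g0 _)), norm_add_sq_eq, norm_add_eq,
      kernel_t (inner_mem_Icc p.1 p.2)]
    congr 1
    simp only [hφ]
    ring
  simp_rw [h1]
  have i1 := (integrable_Qf hg continuous_ke).const_mul (kap / 112)
  have i2 := (integrable_Qf hg hφc).const_mul (kap / 112)
  have i3 : Integrable (fun p : sphere (0 : E) 1 × sphere (0 : E) 1 =>
      kap / 112 * (ke ⟪(p.1 : E), (p.2 : E)⟫ * (g p.1 * g p.2)) +
        kap / 112 * (φ ⟪(p.1 : E), (p.2 : E)⟫ * (g p.1 * g p.2))) (surf2 E) := i1.add i2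
  rw [← ofReal_integral_eq_lintegral_ofReal i3]
  · rw [integral_add i1 i2, integral_const_mul, integral_const_mul]
    have h2 := Qf_odd hg hge
    unfold Qf at h2
    simp only [hφ]
    rw [h2]
    unfold Qf
    rw [mul_zero, add_zero]
  · apply Eventually.of_forall
    intro p
    have h3 := hp0 p
    rw [kernel_t (inner_mem_Icc p.1 p.2)] at h3
    have h4 := mul_nonneg h3 (mul_nonneg (g0 p.1) (g0 p.2))
    simp only [hφ]
    refine h4.trans (le_of_eq ?_)
    ring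

end R

end

end Pool.Agent.SharpS7
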