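import Pool.Agent.SharpS7.Sym
import Pool.Agent.SharpS7.Reduce

/-!
# Removing the regularisation
-/

set_option linter.unusedSectionVars false

namespace Pool.Agent.SharpS7

open MeasureTheory Measure Metric Set Function Filter Topology Real
open scoped ENNReal RealInnerProductSpace Pointwise

noncomputable section

section L

variable {E : Type*} [NormedAddCommGroup E] [InnerProductSpace ℝ E] [FiniteDimensional ℝ E]
  [MeasurableSpace E] [BorelSpace E]

theorem measurable_Wk (ε : ℝ) : Measurable (Wk E ε) := by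
  unfold Wk
  have h : Measurable fun z : (E × sphere (0 : E) 1) × sphere (0 : E) 1 =>
      ENNReal.ofReal (gam ε ‖z.1.1 + ((z.1.2 : E) + z.2)‖) :=
    ENNReal.measurable_ofReal.comp ((measurable_gam ε).comp (by fun_prop))
  have h2 : Measurable fun z : E × sphere (0 : E) 1 => ∫⁻ β : sphere (0 : E) 1,
      ENNReal.ofReal (gam ε ‖z.1 + ((z.2 : E) + β)‖) ∂(surf E) := h.lintegral_prod_right'
  exact h2.lintegral_prod_right'

/-- the upper bound for the reduced kernel -/
def Un (E : Type*) [NormedAddCommGroup E] [InnerProductSpace ℝ E] [FiniteDimensional ℝ E]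
    [MeasurableSpace E] [BorelSpace E] (n : ℕ) (x : E) : ℝ≥0∞ :=
  ENNReal.ofReal (pbar (‖x‖ ^ 2 / 4)) * Wk E (eps n) x +
    ENNReal.ofReal 101 * (ENNReal.ofReal (40 * √(eps n)) * Wk E (2 * eps n) x)

theorem measurable_Un (n : ℕ) : Measurable (Un E n) := by
  unfold Un
  have h1 := measurable_Wk (E := E) (eps n)
  have h2 := measurable_Wk (E := E) (2 * eps n)
  have h3 : Measurable fun x : E => ENNReal.ofReal (pbar (‖x‖ ^ 2 / 4)) := by
    apply ENNReal.measurable_ofReal.comp
    unfold pbar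
    fun_prop
  exact (h3.mul h1).add ((h2.const_mul _).const_mul _)

/-- uniform bound constant -/
def CU (E : Type*) [NormedAddCommGroup E] [InnerProductSpace ℝ E] [FiniteDimensional ℝ E]
    [MeasurableSpace E] [BorelSpace E] : ℝ≥0∞ :=
  ENNReal.ofReal 4 * ENNReal.ofReal (4 * kap * (2 * π) ^ 8 + 128 * Cw E) +
    ENNReal.ofReal 101 * ENNReal.ofReal (40 * Cw E)

theorem CU_ne_top : CU E ≠ ∞ := by
  unfold CU
  exact ENNReal.add_ne_top.2 ⟨ENNReal.mul_ne_top ENNReal.ofReal_ne_top ENNReal.ofReal_ne_top,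
    ENNReal.mul_ne_top ENNReal.ofReal_ne_top ENNReal.ofReal_ne_top⟩

theorem Un_le (hd : Module.finrank ℝ E = 8) (n : ℕ) {x : E} :
    Un E n x ≤ CU E := by
  have hε := eps_pos n
  have hC := Cw_pos (E := E)
  unfold Un CU
  gcongr ?_ + ENNReal.ofReal 101 * ?_
  · calc ENNReal.ofReal (pbar (‖x‖ ^ 2 / 4)) * Wk E (eps n) x
        ≤ (ENNReal.ofReal 4 * ENNReal.ofReal (‖x‖ ^ 2)) * Wk E (eps n) x := by
          gcongr
          rw [← ENNReal.ofReal_mul (by norm_num)]
          apply ENNReal.ofReal_le_ofReal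
          unfold pbar
          nlinarith [sq_nonneg (‖x‖ ^ 2), sq_nonneg (‖x‖ ^ 2 / 4 - 1 / 2),
            mul_nonneg (sq_nonneg ‖x‖) (sq_nonneg (‖x‖ ^ 2 / 4 - 1 / 2)),
            mul_nonneg (sq_nonneg ‖x‖) (sq_nonneg (‖x‖ ^ 2 / 4 - 1))]
      _ = ENNReal.ofReal 4 * (ENNReal.ofReal (‖x‖ ^ 2) * Wk E (eps n) x) := by ring
      _ ≤ _ := by
          gcongr
          exact sq_mul_Wk_le hd hε (eps_le_one n) x
  · calc ENNReal.ofReal (40 * √(eps n)) * Wk E (2 * eps n) x
        ≤ ENNReal.ofReal (40 * √(eps n)) * ENNReal.ofReal (Cw E / √(2 * eps n)) := by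
          gcongr
          exact Wk_le hd (by positivity) x
      _ ≤ _ := by
          rw [← ENNReal.ofReal_mul (by positivity)]
          apply ENNReal.ofReal_le_ofReal
          have h1 : 0 < √(2 * eps n) := Real.sqrt_pos.2 (by positivity)
          have h2 : √(eps n) ≤ √(2 * eps n) := Real.sqrt_le_sqrt (by linarith)
          rw [← mul_div_assoc, div_le_iff₀ h1]
          nlinarith [mul_le_mul_of_nonneg_left h2 hC.le]

theorem tendsto_eps : Tendsto eps atTop (𝓝 0) := by
  unfold eps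
  have h : Tendsto (fun n : ℕ => ((n : ℝ) + 1) ^ 2) atTop atTop := by
    apply (tendsto_pow_atTop (by norm_num)).comp
    exact tendsto_atTop_add_const_right _ _ tendsto_natCast_atTop_atTop
  exact h.inv_tendsto_atTop

theorem tendsto_Un (hd : Module.finrank ℝ E = 8) {x : E} (hx : x ≠ 0) :
    Tendsto (fun n => Un E n x) atTop
      (𝓝 (ENNReal.ofReal (pbar (‖x‖ ^ 2 / 4)) * ENNReal.ofReal ((2 * π) ^ 8 * wt ‖x‖))) := by
  have h1 := tendsto_Wk_aux (E := E) hd hx (zero_lt_one (α := ℝ))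
  simp only [one_mul] at h1
  have h2 := tendsto_Wk_aux (E := E) hd hx (zero_lt_two (α := ℝ))
  have h3 : Tendsto (fun n => ENNReal.ofReal (40 * √(eps n))) atTop (𝓝 0) := by
    have h4 : Tendsto (fun n => 40 * √(eps n)) atTop (𝓝 (40 * √0)) :=
      ((Real.continuous_sqrt.tendsto 0).comp tendsto_eps).const_mul 40
    rw [Real.sqrt_zero, mul_zero] at h4
    have h5 := ENNReal.tendsto_ofReal h4
    rwa [ENNReal.ofReal_zero] at h5
  have h6 := ENNReal.Tendsto.const_mul (a := ENNReal.ofReal (pbar (‖x‖ ^ 2 / 4))) h1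
    (Or.inr ENNReal.ofReal_ne_top)
  have h7 := ENNReal.Tendsto.mul h3 (Or.inr ENNReal.ofReal_ne_top) h2 (Or.inr ENNReal.zero_ne_top)
  rw [zero_mul] at h7
  have h8 := ENNReal.Tendsto.const_mul (a := ENNReal.ofReal 101) h7
    (Or.inr ENNReal.ofReal_ne_top)
  rw [mul_zero] at h8
  have h9 := h6.add h8
  rw [add_zero] at h9
  exact h9

/-- `a + b ≠ 0` almost everywhere -/
theorem ae_add_ne_zero (hd : Module.finrank ℝ E = 8) :
    ∀ᵐ p : sphere (0 : E) 1 × sphere (0 : E) 1 ∂(surf2 E), (p.1 : E) + p.2 ≠ 0 := by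
  have h := null_pair (E := E) hd (T := {-1}) (by measurability)
    (Set.Finite.measure_zero (by simp) _)
  filter_upwards [h] with p hp h0
  apply hp
  rw [mem_singleton_iff]
  have h1 : (p.2 : E) = -(p.1 : E) := by
    rw [eq_neg_iff_add_eq_zero, add_comm]; exact h0
  rw [h1, inner_neg_right, real_inner_self_eq_norm_sq, norm_eq_of_mem_sphere]
  norm_num

theorem tendsto_RHS (hd : Module.finrank ℝ E = 8) {g : sphere (0 : E) 1 → ℝ}
    (hg : Integrable g (surf E)) (hgm : Measurable g) :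
    Tendsto (fun n => ∫⁻ p : sphere (0 : E) 1 × sphere (0 : E) 1,
        ENNReal.ofReal (g p.1 * g p.2) * Un E n ((p.1 : E) + p.2) ∂(surf2 E)) atTop
      (𝓝 (∫⁻ p : sphere (0 : E) 1 × sphere (0 : E) 1,
        ENNReal.ofReal (g p.1 * g p.2) * (ENNReal.ofReal (pbar (‖(p.1 : E) + p.2‖ ^ 2 / 4)) *
          ENNReal.ofReal ((2 * π) ^ 8 * wt ‖(p.1 : E) + p.2‖)) ∂(surf2 E))) := by
  have hgg : Measurable fun p : sphere (0 : E) 1 × sphere (0 : E) 1 =>
      ENNReal.ofReal (g p.1 * g p.2) := by fun_prop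
  have hadd : Measurable fun p : sphere (0 : E) 1 × sphere (0 : E) 1 => (p.1 : E) + p.2 := by
    fun_prop
  apply tendsto_lintegral_of_dominated_convergence
    (fun p : sphere (0 : E) 1 × sphere (0 : E) 1 => ENNReal.ofReal (g p.1 * g p.2) * CU E)
  · intro n
    exact hgg.mul ((measurable_Un n).comp hadd)
  · intro n
    apply Eventually.of_forall
    intro p
    simp only
    gcongr
    exact Un_le hd n
  · rw [lintegral_mul_const _ hgg]
    apply ENNReal.mul_ne_top _ CU_ne_top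
    have h := (hg.mul_prod hg).hasFiniteIntegral
    have h2 : ∫⁻ p : sphere (0 : E) 1 × sphere (0 : E) 1, ENNReal.ofReal (g p.1 * g p.2)
        ∂(surf2 E) ≤ ∫⁻ p : sphere (0 : E) 1 × sphere (0 : E) 1, ‖g p.1 * g p.2‖ₑ ∂(surf2 E) := by
      apply lintegral_mono
      intro p
      exact Real.ofReal_le_enorm _
    exact (h2.trans_lt h).ne
  · filter_upwards [ae_add_ne_zero (E := E) hd] with p hp
    exact ENNReal.Tendsto.const_mul (tendsto_Un hd hp) (Or.inr ENNReal.ofReal_ne_top)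

theorem tendsto_gw (x : E) : Tendsto (fun n => gw (eps n) x) atTop (𝓝 1) := by
  unfold gw
  have h : Tendsto (fun n => Real.exp (-(eps n * ‖x‖ ^ 2 / 2))) atTop
      (𝓝 (Real.exp (-(0 * ‖x‖ ^ 2 / 2)))) := by
    apply (Real.continuous_exp.tendsto _).comp
    exact ((tendsto_eps.mul_const _).div_const _).neg
  simpa using h

theorem gw_le_one {ε : ℝ} (hε : 0 ≤ ε) (x : E) : gw ε x ≤ 1 := by
  unfold gw
  rw [Real.exp_le_one_iff]
  have : 0 ≤ ε * ‖x‖ ^ 2 / 2 := by positivity
  linarith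

theorem measurable_extension {f : sphere (0 : E) 1 → ℂ} (hf : Measurable f) :
    Measurable (extension f) :=
  measurable_Tx (μ := surf E) (φ := fun ω : sphere (0 : E) 1 => (ω : E)) (by fun_prop) hf

/-- the fourth power of the `L⁴` norm of the extension -/
def X4 (f : sphere (0 : E) 1 → ℂ) : ℝ≥0∞ := ∫⁻ x : E, ENNReal.ofReal (‖extension f x‖ ^ 4)

theorem fatou_ext {f : sphere (0 : E) 1 → ℂ} (hf : Measurable f) :
    X4 f ≤ liminf (fun n => ∫⁻ x : E, ENNReal.ofReal (‖extension f x‖ ^ 4 * gw (eps n) x))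
      atTop := by
  have h1 : X4 f = ∫⁻ x : E, liminf (fun n =>
      ENNReal.ofReal (‖extension f x‖ ^ 4 * gw (eps n) x)) atTop := by
    unfold X4
    apply lintegral_congr
    intro x
    symm
    apply Tendsto.liminf_eq
    apply ENNReal.tendsto_ofReal
    have := (tendsto_gw x).const_mul (‖extension f x‖ ^ 4)
    simpa using this
  rw [h1]
  apply lintegral_liminf_le
  intro n
  apply ENNReal.measurable_ofReal.comp
  exact ((measurable_extension hf).norm.pow_const 4).mul (continuous_gw _).measurable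

theorem step_n (hd : Module.finrank ℝ E = 8) {f : sphere (0 : E) 1 → ℂ} (hf : Measurable f)
    (hfi : Integrable f (surf E)) (n : ℕ) :
    7 * ∫⁻ x : E, ENNReal.ofReal (‖extension f x‖ ^ 4 * gw (eps n) x) ≤
      3 * ∫⁻ p : sphere (0 : E) 1 × sphere (0 : E) 1,
        ENNReal.ofReal (hs (fun ω => ‖f ω‖) p.1 ^ 2 * hs (fun ω => ‖f ω‖) p.2 ^ 2) *
          Un E n ((p.1 : E) + p.2) ∂(surf2 E) := by
  have hh : Measurable fun ω => ‖f ω‖ := hf.norm
  have hsm := measurable_hs hh
  have h1 := ext_quartic_le hd (eps_pos n) hf hfi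
  have h2 := symmetrise (ε := eps n) hh (fun ω => norm_nonneg _)
  have h3 := psi_step (eps n) hsm (hs_nonneg _)
  have h4 : 7 * ∫⁻ x : E, ENNReal.ofReal (‖extension f x‖ ^ 4 * gw (eps n) x) ≤
      3 * ∫⁻ a, ∫⁻ b, ENNReal.ofReal (hs (fun ω => ‖f ω‖) a ^ 2 *
        hs (fun ω => ‖f ω‖) b ^ 2) * Kk E (eps n) (a : E) b ∂(surf E) ∂(surf E) := by
    refine le_trans ?_ h3
    gcongr
    exact h1.trans h2
  refine h4.trans ?_
  gcongr
  rw [lintegral_prod]
  · apply lintegral_mono
    intro a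
    apply lintegral_mono
    intro b
    simp only
    gcongr
    refine (Kk_le hd (eps n) (norm_eq_of_mem_sphere a) (norm_eq_of_mem_sphere b)).trans ?_
    unfold Un
    gcongr
    exact Mk_le (eps_pos n) _
  · apply Measurable.aemeasurable
    apply Measurable.mul
    · fun_prop
    · exact (measurable_Un n).comp (by fun_prop)

end L

end

end Pool.Agent.SharpS7
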