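import Pool.Agent.SharpS7.Defs

/-!
# Polar coordinates and invariance of the surface measure
-/

set_option linter.unusedSectionVars false

namespace Pool.Agent.SharpS7

open MeasureTheory Measure Metric Set Function
open scoped ENNReal RealInnerProductSpace Pointwise

noncomputable section

section Polar

variable {E : Type*} [NormedAddCommGroup E] [InnerProductSpace ℝ E] [FiniteDimensional ℝ E]
  [MeasurableSpace E] [BorelSpace E]

/-- polar coordinates for the lower Lebesgue integral -/
theorem lintegral_polar [Nontrivial E] {F : E → ℝ≥0∞} (hF : Measurable F) :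
    ∫⁻ x, F x = ∫⁻ ω : sphere (0 : E) 1, ∫⁻ r in Ioi (0 : ℝ),
      ENNReal.ofReal (r ^ (Module.finrank ℝ E - 1)) * F (r • (ω : E))
        ∂volume ∂(volume : Measure E).toSphere := by
  have h1 : ∫⁻ x, F x = ∫⁻ x in ({0}ᶜ : Set E), F x := by
    rw [← lintegral_add_compl F (measurableSet_singleton (0 : E))]
    rw [setLIntegral_measure_zero _ _ (measure_singleton _), zero_add]
  rw [h1]
  have h2 : ∫⁻ x in ({0}ᶜ : Set E), F x =
      ∫⁻ x : ({0}ᶜ : Set E), F x ∂((volume : Measure E).comap (↑)) := by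
    rw [lintegral_subtype_comap (measurableSet_singleton (0 : E)).compl]
  rw [h2]
  have hmp := (volume : Measure E).measurePreserving_homeomorphUnitSphereProd
  have h3 : ∫⁻ x : ({0}ᶜ : Set E), F x ∂((volume : Measure E).comap (↑)) =
      ∫⁻ p, F (p.2.1 • (p.1 : E)) ∂((volume : Measure E).toSphere.prod
        (Measure.volumeIoiPow (Module.finrank ℝ E - 1))) := by
    rw [← hmp.lintegral_comp]
    · apply lintegral_congr
      intro x
      congr 1
      have hx : ‖(x : E)‖ ≠ 0 := norm_ne_zero_iff.2 x.2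
      simp [smul_smul, hx]
    · apply hF.comp
      apply Measurable.smul
      · exact measurable_subtype_coe.comp measurable_snd
      · exact measurable_subtype_coe.comp measurable_fst
  rw [h3, lintegral_prod]
  · apply lintegral_congr
    intro ω
    unfold Measure.volumeIoiPow
    rw [lintegral_withDensity_eq_lintegral_mul₀]
    · rw [← lintegral_subtype_comap measurableSet_Ioi
        (fun r : ℝ => ENNReal.ofReal (r ^ (Module.finrank ℝ E - 1)) * F (r • (ω : E)))]
      rfl
    · exact (ENNReal.measurable_ofReal.comp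
        ((measurable_subtype_coe.pow_const _))).aemeasurable
    · have h5 : Measurable fun r : Ioi (0 : ℝ) => (r : ℝ) • (ω : E) :=
        measurable_subtype_coe.smul_const (ω : E)
      exact (hF.comp h5).aemeasurable
  · apply Measurable.aemeasurable
    apply hF.comp
    apply Measurable.smul
    · exact measurable_subtype_coe.comp measurable_snd
    · exact measurable_subtype_coe.comp measurable_fst

/-- the map induced by a linear isometry equivalence on the unit sphere -/
def sphMap (R : E ≃ₗᵢ[ℝ] E) (ω : sphere (0 : E) 1) : sphere (0 : E) 1 :=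
  ⟨R ω, by simp⟩

@[simp] theorem coe_sphMap (R : E ≃ₗᵢ[ℝ] E) (ω : sphere (0 : E) 1) :
    (sphMap R ω : E) = R ω := rfl

theorem continuous_sphMap (R : E ≃ₗᵢ[ℝ] E) : Continuous (sphMap R) := by
  unfold sphMap
  fun_prop

theorem measurePreserving_sphMap (R : E ≃ₗᵢ[ℝ] E) :
    MeasurePreserving (sphMap R) (surf E) (surf E) := by
  refine ⟨(continuous_sphMap R).measurable, ?_⟩
  ext s hs
  rw [Measure.map_apply (continuous_sphMap R).measurable hs,
    Measure.toSphere_apply' _ ((continuous_sphMap R).measurable hs),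
    Measure.toSphere_apply' _ hs]
  congr 1
  have h1 : (Ioo (0 : ℝ) 1 • (Subtype.val '' (sphMap R ⁻¹' s)) : Set E) =
      R ⁻¹' (Ioo (0 : ℝ) 1 • (Subtype.val '' s)) := by
    ext x
    constructor
    · rintro ⟨r, hr, _, ⟨ω, hω, rfl⟩, rfl⟩
      exact ⟨r, hr, _, ⟨sphMap R ω, hω, rfl⟩, by simp⟩
    · rintro ⟨r, hr, _, ⟨ω, hω, rfl⟩, hx⟩
      refine ⟨r, hr, _, ⟨sphMap R.symm ω, ?_, rfl⟩, ?_⟩
      · have : sphMap R (sphMap R.symm ω) = ω := by
          ext; simp
        rw [mem_preimage, this]
        exact hω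
      · apply R.injective
        simpa using hx
  rw [h1]
  exact R.measurePreserving.measure_preimage_emb R.toHomeomorph.measurableEmbedding _

theorem lintegral_surf_isometry (R : E ≃ₗᵢ[ℝ] E) {ψ : sphere (0 : E) 1 → ℝ≥0∞}
    (hψ : Measurable ψ) : ∫⁻ ω, ψ (sphMap R ω) ∂(surf E) = ∫⁻ ω, ψ ω ∂(surf E) :=
  (measurePreserving_sphMap R).lintegral_comp hψ

theorem measurePreserving_neg_surf :
    MeasurePreserving (fun ω : sphere (0 : E) 1 => -ω) (surf E) (surf E) := by
  have h := measurePreserving_sphMap (LinearIsometryEquiv.neg ℝ : E ≃ₗᵢ[ℝ] E)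
  have h2 : sphMap (LinearIsometryEquiv.neg ℝ : E ≃ₗᵢ[ℝ] E) = fun ω => -ω := by
    ext ω; simp
  rwa [h2] at h

theorem lintegral_surf_neg {ψ : sphere (0 : E) 1 → ℝ≥0∞} (hψ : Measurable ψ) :
    ∫⁻ ω, ψ (-ω) ∂(surf E) = ∫⁻ ω, ψ ω ∂(surf E) :=
  (measurePreserving_neg_surf (E := E)).lintegral_comp hψ

/-- two vectors of the same norm are exchanged by a linear isometry -/
theorem exists_isometry {u v : E} (h : ‖u‖ = ‖v‖) : ∃ R : E ≃ₗᵢ[ℝ] E, R u = v ∧
    ∀ x, ⟪x, u⟫ = ⟪x, v⟫ → R x = x := by
  refine ⟨(ℝ ∙ (u - v))ᗮ.reflection, Submodule.reflection_sub h, ?_⟩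
  intro x hx
  apply Submodule.reflection_mem_subspace_eq_self
  rw [Submodule.mem_orthogonal_singleton_iff_inner_left]
  rw [inner_sub_right, hx, sub_self]

end Polar

end

end Pool.Agent.SharpS7
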