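import Mathlib

/-!
# The power series of `√(1 - s) (52 + 25 s - 11 s²)`
-/

namespace Pool.Agent.SharpS7

open Filter Topology Real

noncomputable section

theorem choose_succ_mul (a : ℝ) (n : ℕ) :
    Ring.choose a (n + 1) * (n + 1) = Ring.choose a n * (a - n) := by
  have h : ∀ m : ℕ, Ring.choose a m = (m.factorial : ℝ)⁻¹ * (descPochhammer ℝ m).eval a := by
    intro m
    rw [Ring.choose_eq_smul, Polynomial.descPochhammer_smeval_eq_ascPochhammer,
      Polynomial.ascPochhammer_smeval_cast, Polynomial.ascPochhammer_smeval_eq_eval,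
      ← descPochhammer_eval_eq_ascPochhammer, smul_eq_mul]
  rw [h, h, descPochhammer_succ_eval, Nat.factorial_succ]
  push_cast
  have : (n.factorial : ℝ) ≠ 0 := by positivity
  field_simp

/-- the coefficients of `√(1 - s)` -/
def rc (n : ℕ) : ℝ := (-1) ^ n * Ring.choose (1 / 2 : ℝ) n

theorem rc_zero : rc 0 = 1 := by
  simp [rc]

theorem rc_succ (n : ℕ) : rc (n + 1) * (2 * n + 2) = rc n * (2 * n - 1) := by
  have h := choose_succ_mul (1 / 2) n
  unfold rc
  rw [pow_succ]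
  have h2 : (-1) ^ n * -1 * Ring.choose (1 / 2 : ℝ) (n + 1) * (2 * n + 2) =
      -2 * (-1) ^ n * (Ring.choose (1 / 2 : ℝ) (n + 1) * (n + 1)) := by ring
  rw [h2, h]
  ring

theorem hasSum_rc {s : ℝ} (h0 : 0 ≤ s) (h1 : s < 1) :
    HasSum (fun n => rc n * s ^ n) (√(1 - s)) := by
  have h := (Real.one_add_rpow_hasFPowerSeriesOnBall_zero (a := 1 / 2)).hasSum (y := -s)
    (by
      rw [Metric.mem_eball, edist_zero_right, ← ofReal_norm, norm_neg, Real.norm_of_nonneg h0]
      rw [← ENNReal.ofReal_one]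
      exact (ENNReal.ofReal_lt_ofReal_iff (by norm_num)).2 h1)
  rw [zero_add, ← sub_eq_add_neg, ← Real.sqrt_eq_rpow] at h
  have h2 : (fun n => rc n * s ^ n) =
      fun n => (binomialSeries ℝ (1 / 2 : ℝ) n) fun _ => -s := by
    ext n
    rw [binomialSeries_apply, List.ofFn_const, List.prod_replicate, smul_eq_mul, neg_pow]
    unfold rc
    ring
  rw [h2]
  exact h

/-- the coefficients of `√(1 - s) (52 + 25 s - 11 s²)` -/
def ec : ℕ → ℝ
  | 0 => 52
  | 1 => 52 * rc 1 + 25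
  | (n + 2) => 52 * rc (n + 2) + 25 * rc (n + 1) - 11 * rc n

theorem hasSum_ec {s : ℝ} (h0 : 0 ≤ s) (h1 : s < 1) :
    HasSum (fun n => ec n * s ^ n) (√(1 - s) * (52 + 25 * s - 11 * s ^ 2)) := by
  have h := hasSum_rc h0 h1
  have ha := ((hasSum_nat_add_iff' 2).2 h).mul_left 52
  have hb := ((hasSum_nat_add_iff' 1).2 h).mul_left (25 * s)
  have hc := h.mul_left (-(11 * s ^ 2))
  have hd := (ha.add hb).add hc
  rw [← hasSum_nat_add_iff' 2]
  have e1 : (fun n => ec (n + 2) * s ^ (n + 2)) = fun n =>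
      52 * (rc (n + 2) * s ^ (n + 2)) + 25 * s * (rc (n + 1) * s ^ (n + 1)) +
        -(11 * s ^ 2) * (rc n * s ^ n) := by
    ext n
    simp only [ec]
    ring
  rw [e1]
  have e2 : √(1 - s) * (52 + 25 * s - 11 * s ^ 2) - ∑ i ∈ Finset.range 2, ec i * s ^ i =
      52 * (√(1 - s) - ∑ i ∈ Finset.range 2, rc i * s ^ i) +
        25 * s * (√(1 - s) - ∑ i ∈ Finset.range 1, rc i * s ^ i) +
        -(11 * s ^ 2) * √(1 - s) := by
    simp only [Finset.sum_range_succ, Finset.sum_range_zero, ec, rc_zero]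
    ring
  rw [e2]
  exact hd

theorem rc_one : rc 1 = -(1 / 2) := by
  have h := rc_succ 0
  rw [rc_zero] at h
  norm_num at h
  linarith

theorem rc_two : rc 2 = -(1 / 8) := by
  have h := rc_succ 1
  rw [rc_one] at h
  norm_num at h
  linarith

theorem rc_neg (n : ℕ) : rc (n + 1) < 0 := by
  induction n with
  | zero => rw [rc_one]; norm_num
  | succ n ih =>
    have h := rc_succ (n + 1)
    push_cast at h
    have hn : (0 : ℝ) ≤ n := Nat.cast_nonneg n
    by_contra hcon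
    push Not at hcon
    have h2 : 0 ≤ rc (n + 1 + 1) * (2 * (n + 1) + 2) := by positivity
    have h3 : rc (n + 1) * (2 * (n + 1) - 1) < 0 := mul_neg_of_neg_of_pos ih (by linarith)
    linarith

theorem ec_neg (n : ℕ) : ec (n + 1) < 0 := by
  match n with
  | 0 => simp only [ec, rc_one]; norm_num
  | 1 =>
    change 52 * rc 2 + 25 * rc 1 - 11 * rc 0 < 0
    rw [rc_two, rc_one, rc_zero]
    norm_num
  | (k + 2) =>
    -- `n + 1 = k + 3`, in terms of `rc (k + 1)`
    have h1 := rc_succ (k + 1)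
    have h2 := rc_succ (k + 2)
    have hr := rc_neg k
    push_cast at h1 h2
    have hk : (0 : ℝ) ≤ k := Nat.cast_nonneg k
    have e : ec (k + 2 + 1) = 52 * rc (k + 3) + 25 * rc (k + 2) - 11 * rc (k + 1) := rfl
    rw [e]
    have h1' : rc (k + 2) = rc (k + 1) * (2 * k + 1) / (2 * k + 4) := by
      rw [eq_div_iff (by positivity)]
      linarith
    have h2' : rc (k + 3) = rc (k + 2) * (2 * k + 3) / (2 * k + 6) := by
      rw [eq_div_iff (by positivity)]
      linarith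
    rw [h2', h1']
    have h3 : 52 * (rc (k + 1) * (2 * k + 1) / (2 * k + 4) * (2 * k + 3) / (2 * k + 6)) +
        25 * (rc (k + 1) * (2 * k + 1) / (2 * k + 4)) - 11 * rc (k + 1) =
        rc (k + 1) * ((264 * k ^ 2 + 546 * k + 42) / ((2 * k + 4) * (2 * k + 6))) := by
      field_simp
      ring
    rw [h3]
    apply mul_neg_of_neg_of_pos hr
    positivity

/-- the partial sums -/
def ps (N : ℕ) (s : ℝ) : ℝ := ∑ n ∈ Finset.range (N + 1), ec n * s ^ n

theorem continuous_ps (N : ℕ) : Continuous (ps N) := by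
  unfold ps
  fun_prop

theorem ps_succ (N : ℕ) (s : ℝ) : ps (N + 1) s = ps N s + ec (N + 1) * s ^ (N + 1) := by
  unfold ps
  rw [Finset.sum_range_succ]

theorem ps_antitone {s : ℝ} (h0 : 0 ≤ s) : Antitone fun N => ps N s := by
  apply antitone_nat_of_succ_le
  intro N
  rw [ps_succ]
  have h1 := ec_neg N
  have h2 : 0 ≤ s ^ (N + 1) := by positivity
  nlinarith

theorem tendsto_ps {s : ℝ} (h0 : 0 ≤ s) (h1 : s < 1) :
    Tendsto (fun N => ps N s) atTop (𝓝 (√(1 - s) * (52 + 25 * s - 11 * s ^ 2))) :=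
  (hasSum_ec h0 h1).tendsto_sum_nat.comp (tendsto_add_atTop_nat 1)

theorem le_ps {s : ℝ} (h0 : 0 ≤ s) (h1 : s ≤ 1) (N : ℕ) :
    √(1 - s) * (52 + 25 * s - 11 * s ^ 2) ≤ ps N s := by
  have h : ∀ t ∈ Set.Ico (0 : ℝ) 1, √(1 - t) * (52 + 25 * t - 11 * t ^ 2) ≤ ps N t := by
    intro t ht
    exact (ps_antitone ht.1).le_of_tendsto (tendsto_ps ht.1 ht.2) N
  have hcl : closure (Set.Ico (0 : ℝ) 1) = Set.Icc 0 1 := closure_Ico (by norm_num)
  refine le_on_closure h ?_ ?_ ?_
  · apply Continuous.continuousOn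
    fun_prop
  · exact (continuous_ps N).continuousOn
  · rw [hcl]
    exact ⟨h0, h1⟩

theorem ps_le {s : ℝ} (h0 : 0 ≤ s) (N : ℕ) : ps N s ≤ 52 := by
  refine (ps_antitone h0 (Nat.zero_le N)).trans ?_
  simp [ps, ec]

theorem abs_ps_le {s : ℝ} (h0 : 0 ≤ s) (h1 : s ≤ 1) (N : ℕ) : |ps N s| ≤ 52 := by
  rw [abs_le]
  refine ⟨?_, ps_le h0 N⟩
  refine le_trans ?_ (le_ps h0 h1 N)
  have h2 : 0 ≤ 52 + 25 * s - 11 * s ^ 2 := by nlinarith
  have : 0 ≤ √(1 - s) * (52 + 25 * s - 11 * s ^ 2) := by positivity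
  linarith

end

end Pool.Agent.SharpS7
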