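import Pool.Agent.SharpS7.Iso
import Pool.Agent.SharpS7.Series

/-!
# The quadratic form of the reduced kernel
-/

set_option linter.unusedSectionVars false

namespace Pool.Agent.SharpS7

open MeasureTheory Measure Metric Set Function Filter Topology Real
open scoped ENNReal RealInnerProductSpace Pointwise

noncomputable section

section P

variable {E : Type*} [NormedAddCommGroup E] [InnerProductSpace ℝ E] [FiniteDimensional ℝ E]
  [MeasurableSpace E] [BorelSpace E]

/-- zonal quadratic form -/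
def Qf (g : sphere (0 : E) 1 → ℝ) (φ : ℝ → ℝ) : ℝ :=
  ∫ p : sphere (0 : E) 1 × sphere (0 : E) 1,
    φ ⟪(p.1 : E), (p.2 : E)⟫ * (g p.1 * g p.2) ∂(surf2 E)

theorem inner_mem_Icc (a b : sphere (0 : E) 1) : ⟪(a : E), (b : E)⟫ ∈ Icc (-1 : ℝ) 1 := by
  rw [mem_Icc, ← abs_le]
  have := abs_real_inner_le_norm (a : E) b
  rwa [norm_eq_of_mem_sphere, norm_eq_of_mem_sphere, mul_one] at this

theorem exists_bound {φ : ℝ → ℝ} (hφ : Continuous φ) :
    ∃ C, ∀ p : sphere (0 : E) 1 × sphere (0 : E) 1, ‖φ ⟪(p.1 : E), (p.2 : E)⟫‖ ≤ C := by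
  obtain ⟨C, hC⟩ := isCompact_Icc.exists_bound_of_continuousOn
    (s := Icc (-1 : ℝ) 1) hφ.continuousOn
  exact ⟨C, fun p => hC _ (inner_mem_Icc p.1 p.2)⟩

theorem integrable_zonal {φ : ℝ → ℝ} (hφ : Continuous φ)
    {G : sphere (0 : E) 1 × sphere (0 : E) 1 → ℝ} (hG : Integrable G (surf2 E)) :
    Integrable (fun p => φ ⟪(p.1 : E), (p.2 : E)⟫ * G p) (surf2 E) := by
  obtain ⟨C, hC⟩ := exists_bound (E := E) hφ
  apply hG.bdd_mul (c := C)
  · apply Continuous.aestronglyMeasurable
    exact hφ.comp (by fun_prop)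
  · exact Eventually.of_forall hC

theorem integrable_Qf {g : sphere (0 : E) 1 → ℝ} (hg : Integrable g (surf E)) {φ : ℝ → ℝ}
    (hφ : Continuous φ) : Integrable (fun p : sphere (0 : E) 1 × sphere (0 : E) 1 =>
      φ ⟪(p.1 : E), (p.2 : E)⟫ * (g p.1 * g p.2)) (surf2 E) :=
  integrable_zonal hφ (hg.mul_prod hg)

/-- positive definiteness of powers -/
theorem psd {h : sphere (0 : E) 1 → ℝ} (hh : Integrable h (surf E)) (n : ℕ) :
    0 ≤ Qf h (fun t => t ^ n) := by
  unfold Qf
  set b := stdOrthonormalBasis ℝ E with hb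
  have h1 : ∀ x y : E, ⟪x, y⟫ ^ n = ∑ p : Fin n → Fin (Module.finrank ℝ E),
      (∏ k, ⟪x, b (p k)⟫) * (∏ k, ⟪y, b (p k)⟫) := by
    intro x y
    rw [← b.sum_inner_mul_inner x y, Fintype.sum_pow]
    apply Finset.sum_congr rfl
    intro p _
    rw [← Finset.prod_mul_distrib]
    apply Finset.prod_congr rfl
    intro k _
    rw [real_inner_comm y]
  have h2 : ∀ z : sphere (0 : E) 1 × sphere (0 : E) 1,
      ⟪(z.1 : E), (z.2 : E)⟫ ^ n * (h z.1 * h z.2) =
      ∑ p : Fin n → Fin (Module.finrank ℝ E),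
        (((∏ k, ⟪(z.1 : E), b (p k)⟫) * h z.1) * ((∏ k, ⟪(z.2 : E), b (p k)⟫) * h z.2)) := by
    intro z
    rw [h1, Finset.sum_mul]
    apply Finset.sum_congr rfl
    intro p _
    ring
  have h3 : ∀ p : Fin n → Fin (Module.finrank ℝ E), Integrable
      (fun ω : sphere (0 : E) 1 => (∏ k, ⟪(ω : E), b (p k)⟫) * h ω) (surf E) := by
    intro p
    apply hh.bdd_mul (c := 1)
    · apply Continuous.aestronglyMeasurable
      fun_prop
    · apply Eventually.of_forall
      intro ω
      rw [norm_prod]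
      apply Finset.prod_le_one
      · intro k _
        exact norm_nonneg _
      · intro k _
        have := norm_inner_le_norm (𝕜 := ℝ) (ω : E) (b (p k))
        rwa [norm_eq_of_mem_sphere, b.orthonormal.1, mul_one] at this
  simp_rw [h2]
  rw [integral_finsetSum]
  · apply Finset.sum_nonneg
    intro p _
    rw [integral_prod_mul (f := fun ω : sphere (0 : E) 1 => (∏ k, ⟪(ω : E), b (p k)⟫) * h ω)
      (g := fun ω : sphere (0 : E) 1 => (∏ k, ⟪(ω : E), b (p k)⟫) * h ω)]
    exact mul_self_nonneg _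
  · intro p _
    exact (h3 p).mul_prod (h3 p)

theorem moment_const (n : ℕ) (a a' : sphere (0 : E) 1) :
    ∫ b : sphere (0 : E) 1, ⟪(a : E), (b : E)⟫ ^ n ∂(surf E) =
      ∫ b : sphere (0 : E) 1, ⟪(a' : E), (b : E)⟫ ^ n ∂(surf E) := by
  have h0 : ‖(a : E)‖ = ‖(a' : E)‖ := by
    rw [norm_eq_of_mem_sphere, norm_eq_of_mem_sphere]
  obtain ⟨R, hR, _⟩ := exists_isometry h0
  have hT := measurePreserving_sphMap R
  have hc : Continuous fun b : sphere (0 : E) 1 => ⟪(a' : E), (b : E)⟫ ^ n := by fun_prop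
  have h1 : ∫ b : sphere (0 : E) 1, ⟪(a' : E), (b : E)⟫ ^ n ∂(surf E) =
      ∫ b : sphere (0 : E) 1, ⟪(a' : E), (sphMap R b : E)⟫ ^ n ∂(surf E) := by
    conv_lhs => rw [← hT.map_eq]
    rw [integral_map hT.measurable.aemeasurable hc.aestronglyMeasurable]
  rw [h1]
  congr 1
  ext b
  rw [← hR, coe_sphMap, LinearIsometryEquiv.inner_map_map]

theorem pow_ineq {g : sphere (0 : E) 1 → ℝ} (hg : Integrable g (surf E)) (n : ℕ) :
    (∫ ω, g ω ∂(surf E)) ^ 2 * Qf (E := E) (fun _ => 1) (fun t => t ^ n) ≤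
      (surf E).real univ ^ 2 * Qf g (fun t => t ^ n) := by
  rcases isEmpty_or_nonempty (sphere (0 : E) 1) with he | he
  · have : (surf E) = 0 := by
      rw [Measure.eq_zero_of_isEmpty (surf E)]
    simp [this, Qf]
  obtain ⟨a₀⟩ := he
  set G := ∫ ω, g ω ∂(surf E) with hG
  set S := (surf E).real univ with hS
  set M := ∫ b : sphere (0 : E) 1, ⟪(a₀ : E), (b : E)⟫ ^ n ∂(surf E) with hM
  have hmc : ∀ a : sphere (0 : E) 1,
      ∫ b : sphere (0 : E) 1, ⟪(a : E), (b : E)⟫ ^ n ∂(surf E) = M :=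
    fun a => moment_const n a a₀
  rcases eq_or_ne S 0 with hS0 | hS0
  · have : (surf E) = 0 := by
      rw [← Measure.measure_univ_eq_zero]
      rwa [hS, measureReal_eq_zero_iff (measure_ne_top _ _)] at hS0
    simp [hG, this, Qf, hS0]
  have hφ : Continuous fun t : ℝ => t ^ n := by fun_prop
  have i1 : Integrable (fun p : sphere (0 : E) 1 × sphere (0 : E) 1 => g p.1) (surf2 E) := by
    have := hg.mul_prod (integrable_const (1 : ℝ) (μ := surf E))
    simpa using this
  have i2 : Integrable (fun p : sphere (0 : E) 1 × sphere (0 : E) 1 => g p.2) (surf2 E) := by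
    have := (integrable_const (1 : ℝ) (μ := surf E)).mul_prod hg
    simpa using this
  have i0 : Integrable (fun _ : sphere (0 : E) 1 × sphere (0 : E) 1 => (1 : ℝ)) (surf2 E) :=
    integrable_const _
  have e0 : ∫ p : sphere (0 : E) 1 × sphere (0 : E) 1,
      ⟪(p.1 : E), (p.2 : E)⟫ ^ n * 1 ∂(surf2 E) = S * M := by
    rw [integral_prod _ (integrable_zonal hφ i0)]
    simp only [mul_one]
    simp_rw [hmc]
    rw [integral_const, smul_eq_mul]
  have e1 : ∫ p : sphere (0 : E) 1 × sphere (0 : E) 1,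
      ⟪(p.1 : E), (p.2 : E)⟫ ^ n * g p.1 ∂(surf2 E) = M * G := by
    rw [integral_prod _ (integrable_zonal hφ i1)]
    simp_rw [integral_mul_const, hmc]
    rw [integral_const_mul]
  have e2 : ∫ p : sphere (0 : E) 1 × sphere (0 : E) 1,
      ⟪(p.1 : E), (p.2 : E)⟫ ^ n * g p.2 ∂(surf2 E) = M * G := by
    rw [integral_prod_symm _ (integrable_zonal hφ i2)]
    simp_rw [integral_mul_const, real_inner_comm, hmc]
    rw [integral_const_mul]
  have eQ1 : Qf (E := E) (fun _ => 1) (fun t => t ^ n) = S * M := by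
    unfold Qf
    rw [← e0]
    simp
  set c := G / S with hc
  have hh : Integrable (fun ω => g ω - c) (surf E) := hg.sub (integrable_const _)
  have key := psd hh n
  have e3 : Qf (fun ω => g ω - c) (fun t => t ^ n) =
      Qf g (fun t => t ^ n) - c * (M * G) - c * (M * G) + c ^ 2 * (S * M) := by
    have h1 : ∀ p : sphere (0 : E) 1 × sphere (0 : E) 1,
        ⟪(p.1 : E), (p.2 : E)⟫ ^ n * ((g p.1 - c) * (g p.2 - c)) =
        ⟪(p.1 : E), (p.2 : E)⟫ ^ n * (g p.1 * g p.2) -
          c * (⟪(p.1 : E), (p.2 : E)⟫ ^ n * g p.1) -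
          c * (⟪(p.1 : E), (p.2 : E)⟫ ^ n * g p.2) +
          c ^ 2 * (⟪(p.1 : E), (p.2 : E)⟫ ^ n * 1) := by
      intro p
      ring
    have j0 := (integrable_zonal hφ i0).const_mul (c ^ 2)
    have j1 := (integrable_zonal hφ i1).const_mul c
    have j2 := (integrable_zonal hφ i2).const_mul c
    have jg := integrable_Qf hg hφ
    unfold Qf
    simp only [h1]
    rw [integral_add, integral_sub, integral_sub,
      integral_const_mul, integral_const_mul, integral_const_mul, e0, e1, e2]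
    · exact jg
    · exact j1
    · exact jg.sub j1
    · exact j2
    · exact (jg.sub j1).sub j2
    · exact j0
  rw [e3] at key
  rw [eQ1]
  have hSc : c * S = G := by rw [hc]; field_simp
  have h4 : c * (M * G) = c ^ 2 * (S * M) := by rw [← hSc]; ring
  rw [h4] at key
  have h5 : G ^ 2 * (S * M) = S ^ 2 * (c ^ 2 * (S * M)) := by rw [← hSc]; ring
  rw [h5]
  apply mul_le_mul_of_nonneg_left _ (sq_nonneg _)
  linarith

theorem null_set (hd : Module.finrank ℝ E = 8) {T : Set ℝ} (hT : MeasurableSet T)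
    (h0 : volume T = 0) (a : sphere (0 : E) 1) :
    ∀ᵐ b : sphere (0 : E) 1 ∂(surf E), ⟪(b : E), (a : E)⟫ ∉ T := by
  have h := slice hd (norm_eq_of_mem_sphere a) (ψ := T.indicator 1)
    (measurable_one.indicator hT)
  have h1 : ∫⁻ t, T.indicator 1 t * ENNReal.ofReal ((1 - t ^ 2) ^ 2 * √(1 - t ^ 2)) = 0 := by
    rw [lintegral_eq_zero_iff]
    · have h2 : ∀ᵐ t : ℝ, t ∉ T := by
        rw [ae_iff]
        simpa using h0
      filter_upwards [h2] with t ht
      rw [indicator_of_notMem ht]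
      simp
    · exact (measurable_one.indicator hT).mul (by fun_prop)
  rw [h1, mul_zero, lintegral_eq_zero_iff] at h
  · filter_upwards [h] with b hb hbT
    rw [indicator_of_mem hbT] at hb
    simp at hb
  · exact (measurable_one.indicator hT).comp (by fun_prop)

theorem null_pair (hd : Module.finrank ℝ E = 8) {T : Set ℝ} (hT : MeasurableSet T)
    (h0 : volume T = 0) : ∀ᵐ p : sphere (0 : E) 1 × sphere (0 : E) 1 ∂(surf2 E),
      ⟪(p.1 : E), (p.2 : E)⟫ ∉ T := by
  rw [Measure.ae_prod_iff_ae_ae]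
  · apply Eventually.of_forall
    intro a
    filter_upwards [null_set hd hT h0 a] with b hb
    rwa [real_inner_comm]
  · have : Measurable fun p : sphere (0 : E) 1 × sphere (0 : E) 1 => ⟪(p.1 : E), (p.2 : E)⟫ := by
      fun_prop
    exact this hT.compl

/-- the even part of the reduced kernel -/
def ke (t : ℝ) : ℝ := √(1 - t ^ 2) * (52 + 25 * t ^ 2 - 11 * (t ^ 2) ^ 2)

theorem continuous_ke : Continuous ke := by
  unfold ke
  fun_prop

theorem Qf_ps {g : sphere (0 : E) 1 → ℝ} (hg : Integrable g (surf E)) (N : ℕ) :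
    Qf g (fun t => ps N (t ^ 2)) =
      ∑ n ∈ Finset.range (N + 1), ec n * Qf g (fun t => t ^ (2 * n)) := by
  unfold Qf ps
  simp_rw [← integral_const_mul]
  rw [← integral_finsetSum]
  · congr 1
    ext p
    rw [Finset.sum_mul]
    apply Finset.sum_congr rfl
    intro n _
    rw [pow_mul]
    ring
  · intro n _
    apply Integrable.const_mul
    exact integrable_Qf hg (φ := fun t => t ^ (2 * n)) (by fun_prop)

theorem Qf_ps_le {g : sphere (0 : E) 1 → ℝ} (hg : Integrable g (surf E)) (N : ℕ) :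
    (surf E).real univ ^ 2 * Qf g (fun t => ps N (t ^ 2)) ≤
    (∫ ω, g ω ∂(surf E)) ^ 2 * Qf (E := E) (fun _ => 1) (fun t => ps N (t ^ 2)) := by
  rw [Qf_ps hg, Qf_ps (integrable_const _), Finset.mul_sum, Finset.mul_sum]
  apply Finset.sum_le_sum
  intro n _
  rcases n with _ | n
  · have e1 : Qf g (fun t => t ^ (2 * 0)) = (∫ ω, g ω ∂(surf E)) ^ 2 := by
      unfold Qf
      simp only [mul_zero, pow_zero, one_mul]
      rw [integral_prod_mul]
      ring
    have e2 : Qf (E := E) (fun _ => 1) (fun t => t ^ (2 * 0)) = (surf E).real univ ^ 2 := by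
      unfold Qf
      simp only [mul_zero, pow_zero, one_mul]
      rw [integral_const, smul_eq_mul, mul_one, ← univ_prod_univ, measureReal_prod_prod]
      ring
    rw [e1, e2]
    apply le_of_eq
    ring
  · have h := pow_ineq hg (2 * (n + 1))
    have h2 := ec_neg n
    nlinarith

theorem kernel_ineq (hd : Module.finrank ℝ E = 8) {g : sphere (0 : E) 1 → ℝ}
    (hg : Integrable g (surf E)) (g0 : ∀ ω, 0 ≤ g ω) :
    (surf E).real univ ^ 2 * Qf g ke ≤
      (∫ ω, g ω ∂(surf E)) ^ 2 * Qf (E := E) (fun _ => 1) ke := by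
  have hcp : ∀ N, Continuous fun t : ℝ => ps N (t ^ 2) := fun N =>
    (continuous_ps N).comp (by fun_prop)
  have ht2 : ∀ p : sphere (0 : E) 1 × sphere (0 : E) 1, ⟪(p.1 : E), (p.2 : E)⟫ ^ 2 ≤ 1 := by
    intro p
    have h := inner_mem_Icc p.1 p.2
    rw [sq_le_one_iff_abs_le_one, abs_le]
    exact h
  have h1 : ∀ N, (surf E).real univ ^ 2 * Qf g ke ≤
      (∫ ω, g ω ∂(surf E)) ^ 2 * Qf (E := E) (fun _ => 1) (fun t => ps N (t ^ 2)) := by
    intro N
    refine le_trans ?_ (Qf_ps_le hg N)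
    apply mul_le_mul_of_nonneg_left _ (sq_nonneg _)
    unfold Qf
    apply integral_mono (integrable_Qf hg continuous_ke) (integrable_Qf hg (hcp N))
    intro p
    apply mul_le_mul_of_nonneg_right _ (mul_nonneg (g0 _) (g0 _))
    exact le_ps (sq_nonneg _) (ht2 p) N
  have h2 : Tendsto (fun N => Qf (E := E) (fun _ => 1) (fun t => ps N (t ^ 2))) atTop
      (𝓝 (Qf (E := E) (fun _ => 1) ke)) := by
    unfold Qf
    apply tendsto_integral_of_dominated_convergence (fun _ => 52)
    · intro N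
      exact (integrable_Qf (g := fun _ => 1) (integrable_const _) (hcp N)).aestronglyMeasurable
    · exact integrable_const _
    · intro N
      apply Eventually.of_forall
      intro p
      rw [mul_one, mul_one, Real.norm_eq_abs]
      exact abs_ps_le (sq_nonneg _) (ht2 p) N
    · have hn := null_pair (E := E) hd (T := {1, -1}) (by measurability)
        (Set.Finite.measure_zero (by simp) _)
      filter_upwards [hn] with p hp
      apply Tendsto.mul_const
      apply tendsto_ps (sq_nonneg _)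
      rcases (ht2 p).lt_or_eq with h | h
      · exact h
      · exfalso
        apply hp
        have h3 : (⟪(p.1 : E), (p.2 : E)⟫ - 1) * (⟪(p.1 : E), (p.2 : E)⟫ + 1) = 0 := by
          linear_combination h
        rcases mul_eq_zero.1 h3 with h4 | h4
        · left; linarith
        · right
          rw [mem_singleton_iff]
          linarith
  exact ge_of_tendsto' (h2.const_mul _) h1

end P

end

end Pool.Agent.SharpS7
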