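import Pool.Agent.SharpS7.Iso
import Pool.Agent.SharpS7.Gauss

/-!
# The regularised quartic form
-/

set_option linter.unusedSectionVars false

namespace Pool.Agent.SharpS7

open MeasureTheory Measure Metric Set Function Filter Topology Real
open scoped ENNReal RealInnerProductSpace Pointwise ComplexConjugate

noncomputable section

section Q

variable {E : Type*} [NormedAddCommGroup E] [InnerProductSpace ℝ E] [FiniteDimensional ℝ E]
  [MeasurableSpace E] [BorelSpace E]

/-- the iterated integral over four copies of the sphere -/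
def I4 (F : sphere (0 : E) 1 → sphere (0 : E) 1 → sphere (0 : E) 1 → sphere (0 : E) 1 → ℝ≥0∞) :
    ℝ≥0∞ :=
  ∫⁻ a, ∫⁻ b, ∫⁻ c, ∫⁻ d, F a b c d ∂(surf E) ∂(surf E) ∂(surf E) ∂(surf E)

/-- joint measurability -/
def MeasF (F : sphere (0 : E) 1 → sphere (0 : E) 1 → sphere (0 : E) 1 → sphere (0 : E) 1 →
    ℝ≥0∞) : Prop :=
  Measurable fun z : sphere (0 : E) 1 × sphere (0 : E) 1 × sphere (0 : E) 1 × sphere (0 : E) 1 =>
    F z.1 z.2.1 z.2.2.1 z.2.2.2

variable {F G : sphere (0 : E) 1 → sphere (0 : E) 1 → sphere (0 : E) 1 → sphere (0 : E) 1 → ℝ≥0∞}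

theorem MeasF.comp' {Y : Type*} [MeasurableSpace Y] (hF : MeasF F)
    {f1 f2 f3 f4 : Y → sphere (0 : E) 1} (h1 : Measurable f1) (h2 : Measurable f2)
    (h3 : Measurable f3) (h4 : Measurable f4) :
    Measurable fun y => F (f1 y) (f2 y) (f3 y) (f4 y) :=
  Measurable.comp hF (h1.prodMk (h2.prodMk (h3.prodMk h4)))

theorem MeasF.s12 (hF : MeasF F) : MeasF (fun a b c d => F b a c d) := by
  unfold MeasF
  exact hF.comp' (by fun_prop) (by fun_prop) (by fun_prop) (by fun_prop)

theorem MeasF.s23 (hF : MeasF F) : MeasF (fun a b c d => F a c b d) := by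
  unfold MeasF
  exact hF.comp' (by fun_prop) (by fun_prop) (by fun_prop) (by fun_prop)

theorem MeasF.s34 (hF : MeasF F) : MeasF (fun a b c d => F a b d c) := by
  unfold MeasF
  exact hF.comp' (by fun_prop) (by fun_prop) (by fun_prop) (by fun_prop)

theorem MeasF.m2 (hF : MeasF F) (a b : sphere (0 : E) 1) :
    Measurable fun z : sphere (0 : E) 1 × sphere (0 : E) 1 => F a b z.1 z.2 :=
  hF.comp' (by fun_prop) (by fun_prop) (by fun_prop) (by fun_prop)

theorem MeasF.m3 (hF : MeasF F) (a b c : sphere (0 : E) 1) :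
    Measurable fun z : sphere (0 : E) 1 => F a b c z :=
  hF.comp' (by fun_prop) (by fun_prop) (by fun_prop) (by fun_prop)

/-- measurability of the innermost integral -/
theorem MeasF.i3 (hF : MeasF F) :
    Measurable fun z : sphere (0 : E) 1 × sphere (0 : E) 1 × sphere (0 : E) 1 =>
      ∫⁻ d, F z.1 z.2.1 z.2.2 d ∂(surf E) := by
  have h : Measurable fun z : (sphere (0 : E) 1 × sphere (0 : E) 1 × sphere (0 : E) 1) ×
      sphere (0 : E) 1 => F z.1.1 z.1.2.1 z.1.2.2 z.2 :=
    hF.comp' (by fun_prop) (by fun_prop) (by fun_prop) (by fun_prop)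
  exact h.lintegral_prod_right'

theorem MeasF.i3' {Y : Type*} [MeasurableSpace Y] (hF : MeasF F)
    {f1 f2 f3 : Y → sphere (0 : E) 1} (h1 : Measurable f1) (h2 : Measurable f2)
    (h3 : Measurable f3) : Measurable fun y => ∫⁻ d, F (f1 y) (f2 y) (f3 y) d ∂(surf E) :=
  Measurable.comp (g := fun z : sphere (0 : E) 1 × sphere (0 : E) 1 × sphere (0 : E) 1 =>
      ∫⁻ d, F z.1 z.2.1 z.2.2 d ∂(surf E)) hF.i3 (h1.prodMk (h2.prodMk h3))

theorem MeasF.i2 (hF : MeasF F) :
    Measurable fun z : sphere (0 : E) 1 × sphere (0 : E) 1 =>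
      ∫⁻ c, ∫⁻ d, F z.1 z.2 c d ∂(surf E) ∂(surf E) := by
  have h : Measurable fun z : (sphere (0 : E) 1 × sphere (0 : E) 1) ×
      sphere (0 : E) 1 => ∫⁻ d, F z.1.1 z.1.2 z.2 d ∂(surf E) :=
    hF.i3' (by fun_prop) (by fun_prop) (by fun_prop)
  exact h.lintegral_prod_right'

theorem MeasF.i2' {Y : Type*} [MeasurableSpace Y] (hF : MeasF F)
    {f1 f2 : Y → sphere (0 : E) 1} (h1 : Measurable f1) (h2 : Measurable f2) :
    Measurable fun y => ∫⁻ c, ∫⁻ d, F (f1 y) (f2 y) c d ∂(surf E) ∂(surf E) :=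
  Measurable.comp (g := fun z : sphere (0 : E) 1 × sphere (0 : E) 1 =>
      ∫⁻ c, ∫⁻ d, F z.1 z.2 c d ∂(surf E) ∂(surf E)) hF.i2 (h1.prodMk h2)

theorem I4_12 (hF : MeasF F) : I4 (fun a b c d => F b a c d) = I4 F := by
  unfold I4
  exact lintegral_lintegral_swap
    (f := fun a b => ∫⁻ c, ∫⁻ d, F b a c d ∂(surf E) ∂(surf E)) hF.s12.i2.aemeasurable

theorem I4_23 (hF : MeasF F) : I4 (fun a b c d => F a c b d) = I4 F := by
  unfold I4
  apply lintegral_congr
  intro a
  apply lintegral_lintegral_swap (f := fun b c => ∫⁻ d, F a c b d ∂(surf E))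
  apply Measurable.aemeasurable
  exact hF.i3' (by fun_prop) (by fun_prop) (by fun_prop)

theorem I4_34 (hF : MeasF F) : I4 (fun a b c d => F a b d c) = I4 F := by
  unfold I4
  apply lintegral_congr
  intro a
  apply lintegral_congr
  intro b
  exact lintegral_lintegral_swap (f := fun c d => F a b d c) (hF.s34.m2 a b).aemeasurable

theorem I4_24 (hF : MeasF F) : I4 (fun a b c d => F a d c b) = I4 F := by
  have h1 := I4_23 hF
  have h2 := I4_34 hF.s23
  have h3 := I4_23 hF.s23.s34
  exact h3.trans (h2.trans h1)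

theorem MeasF.s24 (hF : MeasF F) : MeasF (fun a b c d => F a d c b) := hF.s23.s34.s23

theorem I4_14 (hF : MeasF F) : I4 (fun a b c d => F d b c a) = I4 F := by
  have h1 := I4_12 hF
  have h2 := I4_24 hF.s12
  have h3 := I4_12 hF.s12.s24
  exact h3.trans (h2.trans h1)

theorem MeasF.s14 (hF : MeasF F) : MeasF (fun a b c d => F d b c a) := hF.s12.s24.s12

theorem I4_1324 (hF : MeasF F) : I4 (fun a b c d => F c d a b) = I4 F := by
  have h1 := I4_14 hF
  have h2 := I4_23 hF.s14
  have h3 := I4_12 hF.s14.s23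
  have h4 := I4_34 hF.s14.s23.s12
  exact h4.trans (h3.trans (h2.trans h1))

theorem I4_mono (h : ∀ a b c d, F a b c d ≤ G a b c d) : I4 F ≤ I4 G :=
  lintegral_mono fun a => lintegral_mono fun b => lintegral_mono fun c => lintegral_mono fun d =>
    h a b c d

theorem I4_congr (h : ∀ a b c d, F a b c d = G a b c d) : I4 F = I4 G :=
  le_antisymm (I4_mono fun a b c d => (h a b c d).le) (I4_mono fun a b c d => (h a b c d).ge)

theorem I4_add (hF : MeasF F) : I4 (fun a b c d => F a b c d + G a b c d) = I4 F + I4 G := by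
  unfold I4
  rw [← lintegral_add_left]
  · apply lintegral_congr
    intro a
    rw [← lintegral_add_left]
    · apply lintegral_congr
      intro b
      rw [← lintegral_add_left]
      · apply lintegral_congr
        intro c
        rw [← lintegral_add_left (hF.m3 a b c)]
      · exact (hF.m2 a b).lintegral_prod_right'
    · exact hF.i2' (by fun_prop) (by fun_prop)
  · exact hF.i2.lintegral_prod_right'

theorem I4_const_mul (hF : MeasF F) (k : ℝ≥0∞) :
    I4 (fun a b c d => k * F a b c d) = k * I4 F := by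
  unfold I4
  rw [← lintegral_const_mul]
  · apply lintegral_congr
    intro a
    rw [← lintegral_const_mul]
    · apply lintegral_congr
      intro b
      rw [← lintegral_const_mul]
      · apply lintegral_congr
        intro c
        rw [← lintegral_const_mul _ (hF.m3 a b c)]
      · exact (hF.m2 a b).lintegral_prod_right'
    · exact hF.i2' (by fun_prop) (by fun_prop)
  · exact hF.i2.lintegral_prod_right'

end Q

end

end Pool.Agent.SharpS7
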