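import Pool.Agent.SharpS7.Polar

/-!
# The slicing formula for the unit sphere of an eight-dimensional space
-/

set_option linter.unusedSectionVars false

namespace Pool.Agent.SharpS7

open MeasureTheory Measure Metric Set Function
open scoped ENNReal RealInnerProductSpace Pointwise

noncomputable section

/-- seven-dimensional Euclidean space -/
abbrev E7 : Type := EuclideanSpace ℝ (Fin 7)

section Slice

variable {E : Type*} [NormedAddCommGroup E] [InnerProductSpace ℝ E] [FiniteDimensional ℝ E]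
  [MeasurableSpace E] [BorelSpace E]

theorem exists_split (hd : Module.finrank ℝ E = 8) {e : E} (he : ‖e‖ = 1) :
    ∃ Φ : WithLp 2 (ℝ × E7) ≃ₗᵢ[ℝ] E, Φ (WithLp.toLp 2 (1, 0)) = e := by
  have h2 : Module.finrank ℝ (WithLp 2 (ℝ × E7)) = 8 := by
    rw [(WithLp.linearEquiv 2 ℝ (ℝ × E7)).finrank_eq]
    simp
  let b1 := stdOrthonormalBasis ℝ E
  let b2 := stdOrthonormalBasis ℝ (WithLp 2 (ℝ × E7))
  let Φ0 : WithLp 2 (ℝ × E7) ≃ₗᵢ[ℝ] E := b2.equiv b1 (finCongr (by rw [hd, h2]))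
  have h3 : ‖Φ0 (WithLp.toLp 2 (1, 0))‖ = ‖e‖ := by
    rw [he, LinearIsometryEquiv.norm_map, WithLp.prod_norm_eq_of_L2]
    simp
  obtain ⟨R, hR, _⟩ := exists_isometry h3
  exact ⟨Φ0.trans R, by simpa using hR⟩

theorem lintegral_split (Φ : WithLp 2 (ℝ × E7) ≃ₗᵢ[ℝ] E) {F : E → ℝ≥0∞} (hF : Measurable F) :
    ∫⁻ x, F x = ∫⁻ a : ℝ, ∫⁻ y : E7, F (Φ (WithLp.toLp 2 (a, y))) := by
  have hΦ : Measurable Φ := Φ.continuous.measurable
  rw [← Φ.measurePreserving.lintegral_comp hF,
    ← (WithLp.volume_preserving_toLp ℝ E7).lintegral_comp (f := fun z => F (Φ z))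
      (hF.comp hΦ)]
  rw [Measure.volume_eq_prod, lintegral_prod]
  have := (WithLp.volume_preserving_toLp ℝ E7).measurable
  exact (hF.comp (hΦ.comp this)).aemeasurable

theorem lintegral_pow_Ioo (n : ℕ) {s : ℝ} (hs : 0 ≤ s) :
    ∫⁻ r in Ioo (0 : ℝ) s, ENNReal.ofReal (r ^ n) = ENNReal.ofReal (s ^ (n + 1) / (n + 1)) := by
  rw [restrict_congr_set Ioo_ae_eq_Ioc,
    ← ofReal_integral_eq_lintegral_ofReal, ← intervalIntegral.integral_of_le hs]
  · simp
  · exact (intervalIntegral.intervalIntegrable_pow _).1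
  · filter_upwards [ae_restrict_mem measurableSet_Ioc] with y hy
    exact pow_nonneg hy.1.le _

theorem lintegral_pow_ind (n : ℕ) {s : ℝ} (hs : 0 ≤ s) :
    ∫⁻ r in Ioi (0 : ℝ), ENNReal.ofReal (r ^ n) * (Iio s).indicator 1 r =
      ENNReal.ofReal (s ^ (n + 1) / (n + 1)) := by
  rw [← lintegral_pow_Ioo n hs]
  have h1 : ∀ r : ℝ, ENNReal.ofReal (r ^ n) * (Iio s).indicator 1 r =
      (Iio s).indicator (fun r => ENNReal.ofReal (r ^ n)) r := by
    intro r
    by_cases hr : r ∈ Iio s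
    · rw [indicator_of_mem hr, indicator_of_mem hr]; simp
    · rw [indicator_of_notMem hr, indicator_of_notMem hr]; simp
  simp_rw [h1]
  rw [lintegral_indicator measurableSet_Iio, Measure.restrict_restrict measurableSet_Iio,
    inter_comm, Ioi_inter_Iio]

/-- the change of variables `a = ρ t / √(1 - t²)` -/
theorem subst_slice {ρ : ℝ} (hρ : 0 < ρ) (H : ℝ → ℝ≥0∞) :
    ∫⁻ a, H a = ∫⁻ t in Ioo (-1 : ℝ) 1,
      ENNReal.ofReal (ρ / ((1 - t ^ 2) * √(1 - t ^ 2))) * H (ρ * t / √(1 - t ^ 2)) := by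
  have hpos : ∀ t ∈ Ioo (-1 : ℝ) 1, 0 < 1 - t ^ 2 := by
    intro t ht
    nlinarith [ht.1, ht.2]
  have himg : (fun t : ℝ => ρ * t / √(1 - t ^ 2)) '' Ioo (-1 : ℝ) 1 = univ := by
    apply eq_univ_of_forall
    intro a
    have h1 : 0 < a ^ 2 + ρ ^ 2 := by positivity
    have h2 : √(a ^ 2 + ρ ^ 2) ^ 2 = a ^ 2 + ρ ^ 2 := Real.sq_sqrt h1.le
    have h3 : 0 < √(a ^ 2 + ρ ^ 2) := Real.sqrt_pos.2 h1
    have h4 : |a| < √(a ^ 2 + ρ ^ 2) := by
      rw [← Real.sqrt_sq_eq_abs]
      exact Real.sqrt_lt_sqrt (sq_nonneg a) (by nlinarith)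
    refine ⟨a / √(a ^ 2 + ρ ^ 2), ?_, ?_⟩
    · rw [mem_Ioo, ← abs_lt, abs_div, abs_of_pos h3, div_lt_one h3]
      exact h4
    · have h5 : 1 - (a / √(a ^ 2 + ρ ^ 2)) ^ 2 = (ρ / √(a ^ 2 + ρ ^ 2)) ^ 2 := by
        rw [div_pow, div_pow, h2]
        field_simp
        ring
      simp only
      rw [h5, Real.sqrt_sq (by positivity)]
      field_simp
  have hinj : InjOn (fun t : ℝ => ρ * t / √(1 - t ^ 2)) (Ioo (-1 : ℝ) 1) := by
    have hleft : ∀ t ∈ Ioo (-1 : ℝ) 1,
        (ρ * t / √(1 - t ^ 2)) / √((ρ * t / √(1 - t ^ 2)) ^ 2 + ρ ^ 2) = t := by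
      intro t ht
      have h0 := hpos t ht
      have h1 : 0 < √(1 - t ^ 2) := Real.sqrt_pos.2 h0
      have h2 : √(1 - t ^ 2) ^ 2 = 1 - t ^ 2 := Real.sq_sqrt h0.le
      have h3 : (ρ * t / √(1 - t ^ 2)) ^ 2 + ρ ^ 2 = (ρ / √(1 - t ^ 2)) ^ 2 := by
        rw [div_pow, div_pow, h2]
        field_simp
        ring
      rw [h3, Real.sqrt_sq (by positivity)]
      field_simp
    intro t ht t' ht' h
    simp only at h
    rw [← hleft t ht, ← hleft t' ht', h]
  have hder : ∀ t ∈ Ioo (-1 : ℝ) 1, HasDerivWithinAt (fun t : ℝ => ρ * t / √(1 - t ^ 2))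
      (ρ / ((1 - t ^ 2) * √(1 - t ^ 2))) (Ioo (-1 : ℝ) 1) t := by
    intro t ht
    have h0 := hpos t ht
    have h1 : 0 < √(1 - t ^ 2) := Real.sqrt_pos.2 h0
    have h2 : √(1 - t ^ 2) ^ 2 = 1 - t ^ 2 := Real.sq_sqrt h0.le
    have hd1 : HasDerivAt (fun t : ℝ => 1 - t ^ 2) (-(2 * t)) t := by
      simpa using (hasDerivAt_pow 2 t).const_sub 1
    have hd2 : HasDerivAt (fun t : ℝ => √(1 - t ^ 2)) (-(2 * t) / (2 * √(1 - t ^ 2))) t :=
      hd1.sqrt h0.ne'
    have hd3 : HasDerivAt (fun t : ℝ => ρ * t) ρ t := by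
      simpa using (hasDerivAt_id t).const_mul ρ
    have hd4 := hd3.div hd2 h1.ne'
    refine (hd4.congr_deriv ?_).hasDerivWithinAt
    rw [h2]
    field_simp
    rw [h2]
    ring
  have h := lintegral_image_eq_lintegral_abs_deriv_mul measurableSet_Ioo hder hinj H
  rw [himg, setLIntegral_univ] at h
  rw [h]
  apply setLIntegral_congr_fun measurableSet_Ioo
  intro t ht
  simp only
  rw [abs_of_nonneg]
  have h0 := hpos t ht
  positivity

/-- **Slicing formula.** -/
theorem slice (hd : Module.finrank ℝ E = 8) {e : E} (he : ‖e‖ = 1) {ψ : ℝ → ℝ≥0∞}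
    (hψ : Measurable ψ) :
    ∫⁻ ω : sphere (0 : E) 1, ψ ⟪(ω : E), e⟫ ∂(surf E) =
      surf E7 univ * ∫⁻ t, ψ t * ENNReal.ofReal ((1 - t ^ 2) ^ 2 * √(1 - t ^ 2)) := by
  have : Nontrivial E := Module.nontrivial_of_finrank_pos (R := ℝ) (by omega)
  obtain ⟨Φ, hΦ⟩ := exists_split hd he
  set ind : ℝ → ℝ≥0∞ := fun r => (Iio (1 : ℝ)).indicator 1 r with hind
  have hindm : Measurable ind := measurable_one.indicator measurableSet_Iio
  set F : E → ℝ≥0∞ := fun x => ψ (⟪x, e⟫ / ‖x‖) * ind ‖x‖ with hF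
  have hFm : Measurable F := by
    apply Measurable.mul
    · apply hψ.comp
      fun_prop
    · exact hindm.comp measurable_norm
  -- first computation
  have hA : ∫⁻ x, F x = (∫⁻ ω : sphere (0 : E) 1, ψ ⟪(ω : E), e⟫ ∂(surf E)) *
      ENNReal.ofReal (1 / 8) := by
    rw [lintegral_polar hFm, hd]
    have h1 : ∀ ω : sphere (0 : E) 1, ∫⁻ r in Ioi (0 : ℝ),
        ENNReal.ofReal (r ^ (8 - 1)) * F (r • (ω : E)) = ψ ⟪(ω : E), e⟫ *
          ENNReal.ofReal (1 / 8) := by
      intro ω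
      have h2 : ∫⁻ r in Ioi (0 : ℝ), ENNReal.ofReal (r ^ (8 - 1)) * F (r • (ω : E)) =
          ∫⁻ r in Ioi (0 : ℝ), ψ ⟪(ω : E), e⟫ *
            (ENNReal.ofReal (r ^ 7) * (Iio (1 : ℝ)).indicator 1 r) := by
        apply setLIntegral_congr_fun measurableSet_Ioi
        intro r hr
        have hr : 0 < r := hr
        simp only [hF, hind]
        have hn : ‖r • (ω : E)‖ = r := by
          rw [norm_smul, norm_eq_of_mem_sphere, Real.norm_of_nonneg hr.le, mul_one]
        rw [hn, real_inner_smul_left, mul_div_cancel_left₀ _ hr.ne']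
        ring
      rw [h2, lintegral_const_mul]
      · rw [lintegral_pow_ind 7 zero_le_one]
        norm_num
      · apply Measurable.mul
        · fun_prop
        · exact measurable_one.indicator measurableSet_Iio
    simp_rw [h1]
    rw [lintegral_mul_const]
    exact hψ.comp (by fun_prop)
  -- second computation
  have hB : ∫⁻ x, F x = surf E7 univ * (∫⁻ t, ψ t *
      ENNReal.ofReal ((1 - t ^ 2) ^ 2 * √(1 - t ^ 2))) * ENNReal.ofReal (1 / 8) := by
    rw [lintegral_split Φ hFm]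
    set H : ℝ → ℝ → ℝ≥0∞ := fun a ρ => ψ (a / √(a ^ 2 + ρ ^ 2)) * ind (√(a ^ 2 + ρ ^ 2)) with hH
    have hHm : Measurable (uncurry H) := by
      apply Measurable.mul
      · apply hψ.comp
        fun_prop
      · apply hindm.comp
        fun_prop
    have h1 : ∀ a : ℝ, ∀ y : E7, F (Φ (WithLp.toLp 2 (a, y))) = H a ‖y‖ := by
      intro a y
      have hn : ‖Φ (WithLp.toLp 2 (a, y))‖ = √(a ^ 2 + ‖y‖ ^ 2) := by
        rw [LinearIsometryEquiv.norm_map, WithLp.prod_norm_eq_of_L2]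
        simp
      have hi : ⟪Φ (WithLp.toLp 2 (a, y)), e⟫ = a := by
        rw [← hΦ, LinearIsometryEquiv.inner_map_map, WithLp.prod_inner_apply]
        simp
      simp only [hF, hH]
      rw [hn, hi]
    simp_rw [h1]
    have h2 : ∀ a : ℝ, ∫⁻ y : E7, H a ‖y‖ = surf E7 univ * ∫⁻ ρ in Ioi (0 : ℝ),
        ENNReal.ofReal (ρ ^ 6) * H a ρ := by
      intro a
      have hm : Measurable fun y : E7 => H a ‖y‖ :=
        hHm.comp (measurable_const.prodMk measurable_norm)
      rw [lintegral_polar hm]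
      have h3 : ∀ ω : sphere (0 : E7) 1, ∫⁻ r in Ioi (0 : ℝ),
          ENNReal.ofReal (r ^ (Module.finrank ℝ E7 - 1)) * H a ‖r • (ω : E7)‖ =
          ∫⁻ r in Ioi (0 : ℝ), ENNReal.ofReal (r ^ 6) * H a r := by
        intro ω
        apply setLIntegral_congr_fun measurableSet_Ioi
        intro r hr
        have hr : 0 < r := hr
        have hn : ‖r • (ω : E7)‖ = r := by
          rw [norm_smul, norm_eq_of_mem_sphere, Real.norm_of_nonneg hr.le, mul_one]
        simp only [hn, finrank_euclideanSpace_fin]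
      simp_rw [h3]
      rw [lintegral_const, mul_comm]
    simp_rw [h2]
    have hm2 : Measurable (uncurry fun a ρ => ENNReal.ofReal (ρ ^ 6) * H a ρ) := by
      apply Measurable.mul
      · fun_prop
      · exact hHm
    rw [lintegral_const_mul]
    swap
    · exact Measurable.lintegral_prod_right' hm2
    rw [mul_assoc]
    congr 1
    rw [lintegral_lintegral_swap hm2.aemeasurable]
    have h4 : ∫⁻ ρ in Ioi (0 : ℝ), ∫⁻ a : ℝ, ENNReal.ofReal (ρ ^ 6) * H a ρ =
        ∫⁻ ρ in Ioi (0 : ℝ), ∫⁻ t in Ioo (-1 : ℝ) 1,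
          (ψ t * ENNReal.ofReal (1 / ((1 - t ^ 2) * √(1 - t ^ 2)))) *
            (ENNReal.ofReal (ρ ^ 7) * (Iio √(1 - t ^ 2)).indicator 1 ρ) := by
      apply setLIntegral_congr_fun measurableSet_Ioi
      intro ρ hρ
      have hρ : 0 < ρ := hρ
      simp only
      rw [subst_slice hρ]
      apply setLIntegral_congr_fun measurableSet_Ioo
      intro t ht
      have h0 : 0 < 1 - t ^ 2 := by nlinarith [ht.1, ht.2]
      have hs1 : 0 < √(1 - t ^ 2) := Real.sqrt_pos.2 h0
      have hs2 : √(1 - t ^ 2) ^ 2 = 1 - t ^ 2 := Real.sq_sqrt h0.le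
      have h5 : √((ρ * t / √(1 - t ^ 2)) ^ 2 + ρ ^ 2) = ρ / √(1 - t ^ 2) := by
        have h6 : (ρ * t / √(1 - t ^ 2)) ^ 2 + ρ ^ 2 = (ρ / √(1 - t ^ 2)) ^ 2 := by
          rw [div_pow, div_pow, hs2]
          field_simp
          ring
        rw [h6, Real.sqrt_sq (by positivity)]
      simp only [hH]
      rw [h5]
      have h7 : ρ * t / √(1 - t ^ 2) / (ρ / √(1 - t ^ 2)) = t := by
        field_simp
      have h8 : ind (ρ / √(1 - t ^ 2)) = (Iio √(1 - t ^ 2)).indicator 1 ρ := by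
        simp only [hind, indicator_apply, mem_Iio, div_lt_one hs1, Pi.one_apply]
      rw [h7, h8]
      have h9 : ENNReal.ofReal (ρ / ((1 - t ^ 2) * √(1 - t ^ 2))) * (ENNReal.ofReal (ρ ^ 6)) =
          ENNReal.ofReal (1 / ((1 - t ^ 2) * √(1 - t ^ 2))) * ENNReal.ofReal (ρ ^ 7) := by
        rw [← ENNReal.ofReal_mul (by positivity), ← ENNReal.ofReal_mul (by positivity)]
        congr 1
        ring
      calc ENNReal.ofReal (ρ / ((1 - t ^ 2) * √(1 - t ^ 2))) * (ENNReal.ofReal (ρ ^ 6) *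
            (ψ t * (Iio √(1 - t ^ 2)).indicator 1 ρ)) =
            (ENNReal.ofReal (ρ / ((1 - t ^ 2) * √(1 - t ^ 2))) * (ENNReal.ofReal (ρ ^ 6))) *
            (ψ t * (Iio √(1 - t ^ 2)).indicator 1 ρ) := by ring
        _ = _ := by rw [h9]; ring
    rw [h4, lintegral_lintegral_swap]
    · rw [← lintegral_mul_const]
      · rw [← lintegral_indicator measurableSet_Ioo]
        apply lintegral_congr
        intro t
        by_cases ht : t ∈ Ioo (-1 : ℝ) 1
        · rw [indicator_of_mem ht, lintegral_const_mul]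
          · have h0 : 0 < 1 - t ^ 2 := by nlinarith [ht.1, ht.2]
            have hs1 : 0 < √(1 - t ^ 2) := Real.sqrt_pos.2 h0
            have hs2 : √(1 - t ^ 2) ^ 2 = 1 - t ^ 2 := Real.sq_sqrt h0.le
            rw [lintegral_pow_ind 7 hs1.le, mul_assoc, mul_assoc]
            congr 1
            rw [← ENNReal.ofReal_mul (by positivity), ← ENNReal.ofReal_mul (by positivity)]
            congr 1
            have hs8 : √(1 - t ^ 2) ^ (7 + 1) = (1 - t ^ 2) ^ 4 := by
              calc √(1 - t ^ 2) ^ (7 + 1) = (√(1 - t ^ 2) ^ 2) ^ 4 := by ring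
                _ = _ := by rw [hs2]
            rw [hs8]
            have : (1 - t ^ 2) ^ 4 = (1 - t ^ 2) ^ 3 * √(1 - t ^ 2) ^ 2 := by
              rw [hs2]; ring
            rw [this]
            field_simp
            norm_num
          · apply Measurable.mul
            · fun_prop
            · exact measurable_one.indicator measurableSet_Iio
        · rw [indicator_of_notMem ht]
          have h0 : √(1 - t ^ 2) = 0 := by
            apply Real.sqrt_eq_zero_of_nonpos
            rw [mem_Ioo, not_and_or, not_lt, not_lt] at ht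
            rcases ht with ht | ht <;> nlinarith
          simp [h0]
      · exact hψ.mul (by fun_prop)
    · apply Measurable.aemeasurable
      apply Measurable.mul
      · apply Measurable.mul
        · exact hψ.comp measurable_snd
        · fun_prop
      · apply Measurable.mul
        · fun_prop
        · have h10 : (fun p : ℝ × ℝ => (Iio √(1 - p.2 ^ 2)).indicator (1 : ℝ → ℝ≥0∞) p.1) =
              {p : ℝ × ℝ | p.1 < √(1 - p.2 ^ 2)}.indicator 1 := by
            ext p
            simp only [indicator_apply, mem_Iio, mem_ofPred_eq, Pi.one_apply]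
          have h11 : Measurable (fun p : ℝ × ℝ => (Iio √(1 - p.2 ^ 2)).indicator
              (1 : ℝ → ℝ≥0∞) p.1) := by
            rw [h10]
            apply measurable_one.indicator
            exact measurableSet_lt measurable_fst (by fun_prop)
          exact h11
  rw [hA] at hB
  exact (ENNReal.mul_left_inj (by norm_num) ENNReal.ofReal_ne_top).1 hB

end Slice

end

end Pool.Agent.SharpS7
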