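import Pool.Agent.SharpS7.Quartic

/-!
# Symmetrisation and the cubic splitting
-/

set_option linter.unusedSectionVars false

namespace Pool.Agent.SharpS7

open MeasureTheory Measure Metric Set Function Filter Topology Real
open scoped ENNReal RealInnerProductSpace Pointwise ComplexConjugate

noncomputable section

section S

variable {E : Type*} [NormedAddCommGroup E] [InnerProductSpace ℝ E] [FiniteDimensional ℝ E]
  [MeasurableSpace E] [BorelSpace E]

theorem extension_sq (f : sphere (0 : E) 1 → ℂ) (x : E) :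
    Tx (surf2 E) (fun p => (p.1 : E) + p.2) (fun p => f p.1 * f p.2) x = extension f x ^ 2 := by
  unfold Tx extension
  rw [pow_two, ← integral_prod_mul]
  congr 1
  ext z
  rw [inner_add_right]
  have h2 : Complex.exp (-((⟪x, (z.1 : E)⟫ + ⟪x, (z.2 : E)⟫ : ℝ) : ℂ) * Complex.I) =
      Complex.exp (-(⟪x, (z.1 : E)⟫ : ℂ) * Complex.I) *
        Complex.exp (-(⟪x, (z.2 : E)⟫ : ℂ) * Complex.I) := by
    rw [← Complex.exp_add]
    congr 1
    push_cast
    ring
  rw [h2]
  ring

theorem measF_gam {f : sphere (0 : E) 1 → sphere (0 : E) 1 → sphere (0 : E) 1 →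
    sphere (0 : E) 1 → ℝ} (hf : Measurable fun z : sphere (0 : E) 1 × sphere (0 : E) 1 ×
      sphere (0 : E) 1 × sphere (0 : E) 1 => f z.1 z.2.1 z.2.2.1 z.2.2.2) (ε : ℝ) :
    MeasF fun a b c d => ENNReal.ofReal (f a b c d * gam ε ‖(a : E) + b + (c + d)‖) := by
  unfold MeasF
  apply ENNReal.measurable_ofReal.comp
  apply hf.mul
  exact (measurable_gam ε).comp (by fun_prop)

theorem measF_gam' {f : sphere (0 : E) 1 → sphere (0 : E) 1 → sphere (0 : E) 1 →
    sphere (0 : E) 1 → ℝ} (hf : Measurable fun z : sphere (0 : E) 1 × sphere (0 : E) 1 ×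
      sphere (0 : E) 1 × sphere (0 : E) 1 => f z.1 z.2.1 z.2.2.1 z.2.2.2) (ε : ℝ) :
    MeasF fun a b c d => ENNReal.ofReal (f a b c d * gam ε ‖(a : E) + b - (c + d)‖) := by
  unfold MeasF
  apply ENNReal.measurable_ofReal.comp
  apply hf.mul
  exact (measurable_gam ε).comp (by fun_prop)

theorem lintegral_surf2_surf2 {F : sphere (0 : E) 1 → sphere (0 : E) 1 → sphere (0 : E) 1 →
    sphere (0 : E) 1 → ℝ≥0∞} (hF : MeasF F) :
    ∫⁻ s, ∫⁻ t, F s.1 s.2 t.1 t.2 ∂(surf2 E) ∂(surf2 E) = I4 F := by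
  unfold I4
  rw [lintegral_prod]
  · apply lintegral_congr
    intro a
    apply lintegral_congr
    intro b
    rw [lintegral_prod]
    exact (hF.m2 a b).aemeasurable
  · apply Measurable.aemeasurable
    have h : Measurable fun z : (sphere (0 : E) 1 × sphere (0 : E) 1) ×
        (sphere (0 : E) 1 × sphere (0 : E) 1) => F z.1.1 z.1.2 z.2.1 z.2.2 :=
      hF.comp' (by fun_prop) (by fun_prop) (by fun_prop) (by fun_prop)
    exact h.lintegral_prod_right'

theorem ext_quartic_le (hd : Module.finrank ℝ E = 8) {ε : ℝ} (hε : 0 < ε)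
    {f : sphere (0 : E) 1 → ℂ} (hf : Measurable f) (hfi : Integrable f (surf E)) :
    ∫⁻ x : E, ENNReal.ofReal (‖extension f x‖ ^ 4 * gw ε x) ≤
      I4 fun a b c d => ENNReal.ofReal ((‖f a‖ * ‖f b‖ * (‖f c‖ * ‖f d‖)) *
        gam ε ‖(a : E) + b - (c + d)‖) := by
  have hφ : Measurable (fun p : sphere (0 : E) 1 × sphere (0 : E) 1 => (p.1 : E) + p.2) := by
    fun_prop
  have hF : Measurable (fun p : sphere (0 : E) 1 × sphere (0 : E) 1 => f p.1 * f p.2) := by
    fun_prop
  have h := gauss_upper hd hε hφ hF (hfi.mul_prod hfi) (μ := surf2 E)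
  simp_rw [extension_sq] at h
  have h1 : ∀ x : E, ‖extension f x ^ 2‖ ^ 2 = ‖extension f x‖ ^ 4 := by
    intro x
    rw [norm_pow]; ring
  simp_rw [h1] at h
  refine h.trans (le_of_eq ?_)
  rw [← lintegral_surf2_surf2]
  · simp only [norm_mul]
  · apply measF_gam'
    fun_prop

theorem ext_quartic_one (hd : Module.finrank ℝ E = 8) {ε : ℝ} (hε : 0 < ε) :
    ∫⁻ x : E, ENNReal.ofReal (‖extension (fun _ : sphere (0 : E) 1 => 1) x‖ ^ 4 * gw ε x) =
      I4 fun a b c d : sphere (0 : E) 1 =>
        ENNReal.ofReal (1 * gam ε ‖(a : E) + b - (c + d)‖) := by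
  have hφ : Measurable (fun p : sphere (0 : E) 1 × sphere (0 : E) 1 => (p.1 : E) + p.2) := by
    fun_prop
  have h := gauss_exact hd hε hφ (μ := surf2 E)
  have h0 : ∀ x : E, Tx (surf2 E) (fun p => (p.1 : E) + p.2) (fun _ => 1) x =
      extension (fun _ : sphere (0 : E) 1 => 1) x ^ 2 := by
    intro x
    rw [← extension_sq]
    simp
  simp_rw [h0] at h
  have h1 : ∀ x : E, ‖extension (fun _ : sphere (0 : E) 1 => 1) x ^ 2‖ ^ 2 =
      ‖extension (fun _ : sphere (0 : E) 1 => 1) x‖ ^ 4 := by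
    intro x
    rw [norm_pow]; ring
  simp_rw [h1] at h
  rw [h, ← lintegral_surf2_surf2]
  · simp only [one_mul]
  · apply measF_gam'
    fun_prop

/-- replacing `c, d` by `-c, -d` -/
theorem I4_neg34 {F : sphere (0 : E) 1 → sphere (0 : E) 1 → sphere (0 : E) 1 →
    sphere (0 : E) 1 → ℝ≥0∞} (hF : MeasF F) :
    I4 (fun a b c d => F a b (-c) (-d)) = I4 F := by
  unfold I4
  apply lintegral_congr
  intro a
  apply lintegral_congr
  intro b
  rw [← lintegral_surf_neg (ψ := fun c => ∫⁻ d, F a b c d ∂(surf E))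
    (hF.m2 a b).lintegral_prod_right']
  apply lintegral_congr
  intro c
  exact lintegral_surf_neg (ψ := fun d => F a b (-c) d) (hF.m3 a b (-c))

/-- the even rearrangement -/
def hs (h : sphere (0 : E) 1 → ℝ) (ω : sphere (0 : E) 1) : ℝ :=
  √((h ω ^ 2 + h (-ω) ^ 2) / 2)

theorem hs_nonneg (h : sphere (0 : E) 1 → ℝ) (ω : sphere (0 : E) 1) : 0 ≤ hs h ω :=
  Real.sqrt_nonneg _

theorem hs_sq (h : sphere (0 : E) 1 → ℝ) (ω : sphere (0 : E) 1) :
    hs h ω ^ 2 = (h ω ^ 2 + h (-ω) ^ 2) / 2 := Real.sq_sqrt (by positivity)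

theorem hs_neg (h : sphere (0 : E) 1 → ℝ) (ω : sphere (0 : E) 1) :
    hs h (-ω) = hs h ω := by
  unfold hs
  rw [neg_neg, add_comm]

theorem measurable_hs {h : sphere (0 : E) 1 → ℝ} (hh : Measurable h) : Measurable (hs h) := by
  unfold hs
  have : Measurable fun ω : sphere (0 : E) 1 => h (-ω) := hh.comp (by fun_prop)
  fun_prop

theorem hs_pair {h : sphere (0 : E) 1 → ℝ} (a d : sphere (0 : E) 1) :
    h a * h (-d) + h (-a) * h d ≤ 2 * (hs h a * hs h d) := by
  have h1 := hs_sq h a
  have h2 := hs_sq h d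
  have h3 := hs_nonneg h a
  have h4 := hs_nonneg h d
  have h5 : (h a * h (-d) + h (-a) * h d) ^ 2 ≤ (2 * (hs h a * hs h d)) ^ 2 := by
    have : (2 * (hs h a * hs h d)) ^ 2 = 4 * (hs h a ^ 2 * hs h d ^ 2) := by ring
    rw [this, h1, h2]
    nlinarith [sq_nonneg (h a * h d - h (-a) * h (-d))]
  exact (le_abs_self _).trans (abs_le_of_sq_le_sq h5 (by positivity))

theorem symmetrise {ε : ℝ} {h : sphere (0 : E) 1 → ℝ} (hh : Measurable h) (h0 : ∀ ω, 0 ≤ h ω) :
    I4 (fun a b c d => ENNReal.ofReal ((h a * h b * (h c * h d)) *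
        gam ε ‖(a : E) + b - (c + d)‖)) ≤
    I4 (fun a b c d => ENNReal.ofReal ((hs h a * hs h b * (hs h c * hs h d)) *
        gam ε ‖(a : E) + b + (c + d)‖)) := by
  have hn : Measurable fun ω : sphere (0 : E) 1 => h (-ω) := hh.comp (by fun_prop)
  have hm0 : MeasF fun a b c d : sphere (0 : E) 1 => ENNReal.ofReal ((h a * h b * (h c * h d)) *
        gam ε ‖(a : E) + b - (c + d)‖) := by
    apply measF_gam'
    fun_prop
  rw [← I4_neg34 hm0]
  set F : sphere (0 : E) 1 → sphere (0 : E) 1 → sphere (0 : E) 1 → sphere (0 : E) 1 → ℝ≥0∞ :=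
    fun a b c d => ENNReal.ofReal ((h a * h b * (h (-c) * h (-d))) *
        gam ε ‖(a : E) + b + (c + d)‖) with hF
  have hFm : MeasF F := by
    apply measF_gam (f := fun a b c d => h a * h b * (h (-c) * h (-d)))
    fun_prop
  have e0 : I4 (fun a b c d : sphere (0 : E) 1 =>
      ENNReal.ofReal ((h a * h b * (h (-c) * h (-d))) *
        gam ε ‖(a : E) + b - (((-c : sphere (0 : E) 1) : E) + ((-d : sphere (0 : E) 1) : E))‖)) =
        I4 F := by
    apply I4_congr
    intro a b c d
    simp only [hF]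
    congr 4
    simp only [coe_neg_sphere]
    abel
  rw [e0]
  have g23 := I4_23 hFm
  have g14 := I4_14 hFm
  have g1423 := (I4_14 hFm.s23).trans g23
  have hG0 : ∀ a b c d : sphere (0 : E) 1, 0 ≤ gam ε ‖(a : E) + b + (c + d)‖ :=
    fun a b c d => gam_nonneg _ _
  have key : 4 * I4 F ≤ 4 * I4 (fun a b c d =>
      ENNReal.ofReal ((hs h a * hs h b * (hs h c * hs h d)) *
        gam ε ‖(a : E) + b + (c + d)‖)) := by
    have hsm := measurable_hs hh
    have hm2 : MeasF (fun a b c d : sphere (0 : E) 1 =>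
      ENNReal.ofReal ((hs h a * hs h b * (hs h c * hs h d)) *
        gam ε ‖(a : E) + b + (c + d)‖)) := by
      apply measF_gam
      fun_prop
    rw [← I4_const_mul hm2]
    have e1 : 4 * I4 F = I4 F + I4 (fun a b c d => F a c b d) + I4 (fun a b c d => F d b c a) +
        I4 (fun a b c d => F d c b a) := by
      rw [g23, g14, g1423]; ring
    rw [e1, ← I4_add hFm, ← I4_add, ← I4_add]
    · apply I4_mono
      intro a b c d
      simp only [hF]
      have s1 : ‖(a : E) + c + (b + d)‖ = ‖(a : E) + b + (c + d)‖ := by congr 1; abel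
      have s2 : ‖(d : E) + b + (c + a)‖ = ‖(a : E) + b + (c + d)‖ := by congr 1; abel
      have s3 : ‖(d : E) + c + (b + a)‖ = ‖(a : E) + b + (c + d)‖ := by congr 1; abel
      rw [s1, s2, s3]
      have hGG := hG0 a b c d
      have p1 := h0 a
      have p2 := h0 b
      have p3 := h0 c
      have p4 := h0 d
      have p5 := h0 (-a)
      have p6 := h0 (-b)
      have p7 := h0 (-c)
      have p8 := h0 (-d)
      rw [← ENNReal.ofReal_add (by positivity) (by positivity),
        ← ENNReal.ofReal_add (by positivity) (by positivity),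
        ← ENNReal.ofReal_add (by positivity) (by positivity)]
      have : (4 : ℝ≥0∞) = ENNReal.ofReal 4 := by norm_num
      rw [this, ← ENNReal.ofReal_mul (by norm_num)]
      apply ENNReal.ofReal_le_ofReal
      have q1 := hs_pair (h := h) a d
      have q2 := hs_pair (h := h) b c
      have q3 : (h a * h (-d) + h (-a) * h d) * (h b * h (-c) + h (-b) * h c) ≤
          (2 * (hs h a * hs h d)) * (2 * (hs h b * hs h c)) := by
        apply mul_le_mul q1 q2 (by positivity)
        have := hs_nonneg h a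
        have := hs_nonneg h d
        positivity
      have q4 := mul_le_mul_of_nonneg_right q3 hGG
      refine le_trans (le_of_eq ?_) (q4.trans (le_of_eq ?_))
      · ring
      · ring
    · have t1 : MeasF (fun a b c d => F a b c d + F a c b d + F d b c a) := by
        unfold MeasF
        exact ((Measurable.add hFm hFm.s23).add hFm.s14)
      exact t1
    · have t1 : MeasF (fun a b c d => F a b c d + F a c b d) := by
        unfold MeasF
        exact (Measurable.add hFm hFm.s23)
      exact t1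
  exact (ENNReal.mul_le_mul_iff_right (by norm_num) (by norm_num)).1 key

theorem P4_sum (a b c d : sphere (0 : E) 1) :
    P4 (a : E) b c d + P4 (a : E) c b d + P4 (a : E) d c b =
      7 * (1 + ‖(a : E) + b + (c + d)‖ ^ 2 / 8) ^ 3 := by
  have ha := norm_eq_of_mem_sphere a
  have hb := norm_eq_of_mem_sphere b
  have hc := norm_eq_of_mem_sphere c
  have hd := norm_eq_of_mem_sphere d
  rw [← aa_sum ha hb hc hd, ← psi_sum]
  unfold P4
  have e1 : aa (a : E) d b c = aa (a : E) d c b := by
    unfold aa; rw [add_comm (b : E) c]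
  have e2 : aa (a : E) c d b = aa (a : E) c b d := by
    unfold aa; rw [add_comm (d : E) b]
  have e3 : aa (a : E) b d c = aa (a : E) b c d := by
    unfold aa; rw [add_comm (d : E) c]
  rw [e1, e2, e3]
  unfold psi
  ring

theorem P4_swap (a b c d : sphere (0 : E) 1) : P4 (c : E) d a b = P4 (a : E) b c d := by
  unfold P4 aa
  rw [add_comm (c : E) a, add_comm (d : E) b, add_comm (c : E) b, add_comm (d : E) a,
    add_comm (‖(c : E) + d‖ ^ 2), add_comm (‖(b : E) + c‖ ^ 2)]

theorem psi_step (ε : ℝ) {k : sphere (0 : E) 1 → ℝ} (hk : Measurable k)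
    (k0 : ∀ ω, 0 ≤ k ω) :
    7 * I4 (fun a b c d => ENNReal.ofReal ((k a * k b * (k c * k d)) *
        gam ε ‖(a : E) + b + (c + d)‖)) ≤
      3 * ∫⁻ a, ∫⁻ b, ENNReal.ofReal (k a ^ 2 * k b ^ 2) * Kk E ε (a : E) b
        ∂(surf E) ∂(surf E) := by
  have hPm : Measurable fun z : sphere (0 : E) 1 × sphere (0 : E) 1 ×
      sphere (0 : E) 1 × sphere (0 : E) 1 => P4 (z.1 : E) z.2.1 z.2.2.1 z.2.2.2 := by
    unfold P4 psi aa
    fun_prop
  set F0 : sphere (0 : E) 1 → sphere (0 : E) 1 → sphere (0 : E) 1 → sphere (0 : E) 1 → ℝ≥0∞ :=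
    fun a b c d => ENNReal.ofReal ((k a * k b * (k c * k d)) *
        gam ε ‖(a : E) + b + (c + d)‖) with hF0
  have hF0m : MeasF F0 := by
    apply measF_gam (f := fun a b c d => k a * k b * (k c * k d))
    fun_prop
  set F1 : sphere (0 : E) 1 → sphere (0 : E) 1 → sphere (0 : E) 1 → sphere (0 : E) 1 → ℝ≥0∞ :=
    fun a b c d => ENNReal.ofReal ((k a * k b * (k c * k d) * P4 (a : E) b c d) *
        gam ε ‖(a : E) + b + (c + d)‖) with hF1
  have hF1m : MeasF F1 := by
    apply measF_gam (f := fun a b c d => k a * k b * (k c * k d) * P4 (a : E) b c d)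
    exact Measurable.mul (by fun_prop) hPm
  set G1 : sphere (0 : E) 1 → sphere (0 : E) 1 → sphere (0 : E) 1 → sphere (0 : E) 1 → ℝ≥0∞ :=
    fun a b c d => ENNReal.ofReal ((k a ^ 2 * k b ^ 2 * P4 (a : E) b c d) *
        gam ε ‖(a : E) + b + (c + d)‖) with hG1
  have hG1m : MeasF G1 := by
    apply measF_gam (f := fun a b c d => k a ^ 2 * k b ^ 2 * P4 (a : E) b c d)
    exact Measurable.mul (by fun_prop) hPm
  have hG0 : ∀ a b c d : sphere (0 : E) 1, 0 ≤ gam ε ‖(a : E) + b + (c + d)‖ :=
    fun a b c d => gam_nonneg _ _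
  have step1 : 7 * I4 F0 ≤ 3 * I4 F1 := by
    have e1 : 3 * I4 F1 = I4 F1 + I4 (fun a b c d => F1 a c b d) +
        I4 (fun a b c d => F1 a d c b) := by
      rw [I4_23 hF1m, I4_24 hF1m]; ring
    rw [e1, ← I4_add hF1m, ← I4_add, ← I4_const_mul hF0m]
    · apply I4_mono
      intro a b c d
      simp only [hF0, hF1]
      have s1 : ‖(a : E) + c + (b + d)‖ = ‖(a : E) + b + (c + d)‖ := by congr 1; abel
      have s2 : ‖(a : E) + d + (c + b)‖ = ‖(a : E) + b + (c + d)‖ := by congr 1; abel
      rw [s1, s2]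
      have hGG := hG0 a b c d
      have p1 := k0 a
      have p2 := k0 b
      have p3 := k0 c
      have p4 := k0 d
      have p5 := P4_nonneg (a : E) b c d
      have p6 := P4_nonneg (a : E) c b d
      have p7 := P4_nonneg (a : E) d c b
      rw [← ENNReal.ofReal_add (by positivity) (by positivity),
        ← ENNReal.ofReal_add (by positivity) (by positivity)]
      have : (7 : ℝ≥0∞) = ENNReal.ofReal 7 := by norm_num
      rw [this, ← ENNReal.ofReal_mul (by norm_num)]
      apply ENNReal.ofReal_le_ofReal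
      have q := P4_sum a b c d
      have q2 : 1 ≤ (1 + ‖(a : E) + b + (c + d)‖ ^ 2 / 8) ^ 3 := by
        apply one_le_pow₀
        have : 0 ≤ ‖(a : E) + b + (c + d)‖ ^ 2 / 8 := by positivity
        linarith
      have q3 : 0 ≤ k a * k b * (k c * k d) * gam ε ‖(a : E) + b + (c + d)‖ := by positivity
      have q4 : k a * k b * (k c * k d) * P4 (a : E) b c d * gam ε ‖(a : E) + b + (c + d)‖ +
          k a * k c * (k b * k d) * P4 (a : E) c b d * gam ε ‖(a : E) + b + (c + d)‖ +
          k a * k d * (k c * k b) * P4 (a : E) d c b * gam ε ‖(a : E) + b + (c + d)‖ =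
          (k a * k b * (k c * k d) * gam ε ‖(a : E) + b + (c + d)‖) *
            (P4 (a : E) b c d + P4 (a : E) c b d + P4 (a : E) d c b) := by ring
      rw [q4, q]
      nlinarith
    · have t1 : MeasF (fun a b c d => F1 a b c d + F1 a c b d) := by
        unfold MeasF
        exact (Measurable.add hF1m hF1m.s23)
      exact t1
  have step2 : I4 F1 ≤ I4 G1 := by
    have h2 : 2 * I4 F1 ≤ 2 * I4 G1 := by
      have e1 : 2 * I4 G1 = I4 G1 + I4 (fun a b c d => G1 c d a b) := by
        rw [I4_1324 hG1m]; ring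
      rw [e1, ← I4_add hG1m, ← I4_const_mul hF1m]
      apply I4_mono
      intro a b c d
      simp only [hG1, hF1]
      have s1 : ‖(c : E) + d + (a + b)‖ = ‖(a : E) + b + (c + d)‖ := by congr 1; abel
      rw [s1, P4_swap a b c d]
      have hGG := hG0 a b c d
      have p5 := P4_nonneg (a : E) b c d
      rw [← ENNReal.ofReal_add (by positivity) (by positivity)]
      have : (2 : ℝ≥0∞) = ENNReal.ofReal 2 := by norm_num
      rw [this, ← ENNReal.ofReal_mul (by norm_num)]
      apply ENNReal.ofReal_le_ofReal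
      have q1 : 2 * (k a * k b * (k c * k d)) ≤ k a ^ 2 * k b ^ 2 + k c ^ 2 * k d ^ 2 := by
        nlinarith [sq_nonneg (k a * k b - k c * k d)]
      have q2 : 0 ≤ P4 (a : E) b c d * gam ε ‖(a : E) + b + (c + d)‖ := by positivity
      nlinarith [mul_le_mul_of_nonneg_right q1 q2]
    exact (ENNReal.mul_le_mul_iff_right (by norm_num) (by norm_num)).1 h2
  have step3 : I4 G1 = ∫⁻ a, ∫⁻ b, ENNReal.ofReal (k a ^ 2 * k b ^ 2) * Kk E ε (a : E) b
        ∂(surf E) ∂(surf E) := by
    unfold I4 Kk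
    apply lintegral_congr
    intro a
    apply lintegral_congr
    intro b
    have hm : Measurable fun z : sphere (0 : E) 1 × sphere (0 : E) 1 =>
        ENNReal.ofReal (P4 (a : E) b z.1 z.2 * gam ε ‖(a : E) + b + ((z.1 : E) + z.2)‖) := by
      apply ENNReal.measurable_ofReal.comp
      apply Measurable.mul
      · exact (continuous_P4 (a : E) b).measurable
      · exact (measurable_gam ε).comp (by fun_prop)
    rw [← lintegral_const_mul _ hm.lintegral_prod_right']
    apply lintegral_congr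
    intro c
    rw [← lintegral_const_mul]
    · apply lintegral_congr
      intro d
      simp only [hG1]
      rw [← ENNReal.ofReal_mul (by positivity)]
      congr 1
      ring
    · exact hm.comp (f := fun d => (c, d)) (by fun_prop)
  calc 7 * I4 F0 ≤ 3 * I4 F1 := step1
    _ ≤ 3 * I4 G1 := by gcongr
    _ = _ := by rw [step3]

end S

end

end Pool.Agent.SharpS7
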